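import Mathlib
import Pool.Agent.IP.Face
import Pool.Agent.IPP.Stmts
import Pool.Agent.IPR.StmtsB

set_option autoImplicit false

/-!
# The common core (project CRE, MP_e1dc24_nt)

Squares `G ^ 2` of functions of hits modulo primes `l > L ^ 100` are equidistributed over the primes
of one class modulo `W` and one interval, with an error RELATIVE to the mean of `G ^ 2` (in the form
of the sum `Zy`). All doc strings are complete proofs. Module `CRE_X` proves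
`theorem Pool.Agent.CRE.t_X (hypotheses) : S_X` in `Pool/Agent/CRE/X.lean`.
-/

namespace Pool.Agent.CRE

open Finset Pool.Agent.Lib_helper9.LG Pool.Agent.IPP

noncomputable section

/-! ### abstract expansions -/

section Abs

variable {ι κ : Type} [Fintype ι] [DecidableEq ι] [Fintype κ] [DecidableEq κ]

/-- The local law: `p` for every `some k`, the rest for `none`. -/
def law (K p : ℝ) : Option κ → ℝ
  | none => 1 - K * p
  | some _ => p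

/-- The local coefficients. -/
def dco (K p : ℝ) : Option κ → Option κ → ℝ
  | none, o => law K p o
  | some _, none => -1
  | some k, some j => if k = j then 1 else 0

/-- The local basis functions. -/
def bas (p : ℝ) : Option κ → Option κ → ℝ
  | none, _ => 1
  | some k, o => (if o = some k then 1 else 0) - p

/-- The mean for the product law. -/
def ew (p : ι → ℝ) (f : (ι → Option κ) → ℝ) : ℝ :=
  ∑ θ, f θ * ∏ i, law (Fintype.card κ) (p i) (θ i)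

/-- The coefficient of `f` at `η`. -/
def cf (p : ι → ℝ) (f : (ι → Option κ) → ℝ) (η : ι → Option κ) : ℝ :=
  ∑ θ, f θ * ∏ i, dco (Fintype.card κ) (p i) (η i) (θ i)

open Classical in
/-- `f` restricted to the `θ` which agree with `η` where `η` is not `none`. -/
def rs (η : ι → Option κ) (f : (ι → Option κ) → ℝ) (θ : ι → Option κ) : ℝ :=
  if ∀ i, η i ≠ none → θ i = η i then f θ else 0

end Abs

/-- EXN (120 lines). The expansion.
PROOF. For one coordinate `[o = θ] = ∑ x : Option κ, dco K p x θ * bas p x o` (check `θ = none`,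
`θ = some j`; `K` is the number of the elements of `κ`). So
`f ω = ∑ θ, f θ ∏ i, [ω i = θ i]` and `Finset.prod_univ_sum` (`Fintype.piFinset_univ`). The second part
is the definition. Third part: if `η i = some k`, `i ∉ E`, then `f θ` does not depend on `θ i` and
`∑ x, dco K p (some k) x = -1 + 1 = 0` (split the sum over `θ` at `i`, for example with
`Equiv.funSplitAt` or `Fintype.sum_equiv` and `Function.update`). The fourth part is clear. -/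
def S_EXN : Prop := ∀ (ι κ : Type) [Fintype ι] [DecidableEq ι] [Fintype κ] [DecidableEq κ]
  (p : ι → ℝ) (f : (ι → Option κ) → ℝ),
  (∀ ω, f ω = ∑ η, cf p f η * ∏ i, bas (p i) (η i) (ω i)) ∧
  cf p f (fun _ => none) = ew p f ∧
  (∀ E : Finset ι, (∀ θ θ' : ι → Option κ, (∀ i ∈ E, θ i = θ' i) → f θ = f θ') →
    ∀ η, ¬ spp η ⊆ E → cf p f η = 0) ∧
  (∀ (g : (ι → Option κ) → ℝ) η, cf p (fun θ => f θ + g θ) η = cf p f η + cf p g η)

/-- DDB (150 lines). The coefficients of a nonnegative function.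
PROOF. Let `E = spp η`. `|dco K p (some k) o| = [o = some k] + [o = none]`, and
`[o = some k] = [o = some k] (1 / p) law o`, `[o = none] ≤ 2 [o = none] law o ≤ 2 law o`
(`law none = 1 - K p ≥ 1/2`). So `|cf p f η| ≤ ∑ θ, f θ ∏_{i ∉ E} law ∏_{i ∈ E} ([θ i = η i] / p i + 2) law`
`= ∑_{T ⊆ E} ∏_{i ∈ T} (1 / p i) 2 ^ |E \ T| ew p (rs (η on T, none elsewhere) f)`
(`Finset.prod_add`), and by hypothesis this is at most `∑_T M C ^ |T| 2 ^ |E \ T| = M (C + 2) ^ |E|`. -/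
def S_DDB : Prop := ∀ (ι κ : Type) [Fintype ι] [DecidableEq ι] [Fintype κ] [DecidableEq κ]
  (p : ι → ℝ) (f : (ι → Option κ) → ℝ) (M C : ℝ), (∀ i, 0 < p i) →
  (∀ i, (Fintype.card κ : ℝ) * p i ≤ 1 / 2) → (∀ θ, 0 ≤ f θ) → 0 ≤ M → 0 ≤ C →
  (∀ η, ew p (rs η f) ≤ M * ∏ i ∈ spp η, (C * p i)) →
  ∀ η, |cf p f η| ≤ M * (C + 2) ^ (spp η).card

/-- UNM (200 lines). Change of the law: `u = 1 / l` (all residues) and `p = 1 / (l - 1) = u / (1 - u)`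
(units).
PROOF. Let `r i o = law K (p i) o / law K (u i) o`. `r (some k) = 1 / (1 - u) = 1 + p`,
`r none = 1 - K u ^ 2 / ((1 - u) (1 - K u))`, which is between `1 - 4 K u ^ 2` and `1`
(`K u ≤ 1/2`, `u ≤ 1/4` if `K ≥ 1`; if `K = 0` it is `1`). For `h ≥ 0`:
`ew p h = ∑ θ, h θ ∏ r ∏ law u ≤ ∑ θ, h θ ∏ (1 + p i [θ i ≠ none]) ∏ law u`
`= ∑_{T'} ∏_{T'} p i * ew u (h restricted to θ i ≠ none on T')`. For `h = rs η f`, `E = spp η`, the last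
mean is the sum over the `ζ` with support `T' \ E` of `ew u (rs (η on E, ζ on T' \ E) f)`, at most
`K ^ |T' \ E| M ∏_{E ∪ T'} (C u i)`. So (a): `ew p (rs η f) ≤ M ∏_{i ∈ E} (C u i (1 + p i))
∏_{i ∉ E} (1 + p i K C u i) ≤ M ∏_E (2 C p i) exp (2 C K ∑ u i ^ 2)` (`u ≤ p ≤ 2 u`, `1 + p ≤ 2`).
(b) `η = none`: the term `T' = ∅` is `ew u f`, the others together are at most
`M (∏ (1 + 2 K C u i ^ 2) - 1) ≤ M (exp (..) - 1)`; and
`ew p f ≥ ew u f ∏ (1 - 4 K u i ^ 2) ≥ ew u f (1 - 4 K ∑ u i ^ 2) ≥ ew u f - M (exp (4 C K ∑ u i ^ 2) - 1)`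
(`0 ≤ 4 K u ^ 2 ≤ 1`, `ew u f ≤ M`, `C ≥ 1`, `x ≤ exp x - 1`). -/
def S_UNM : Prop := ∀ (ι κ : Type) [Fintype ι] [DecidableEq ι] [Fintype κ] [DecidableEq κ]
  (u : ι → ℝ) (f : (ι → Option κ) → ℝ) (M C : ℝ), (∀ i, 0 < u i) → (∀ i, u i ≤ 1 / 4) →
  (∀ i, (Fintype.card κ : ℝ) * u i ≤ 1 / 2) → (∀ i, 4 * (Fintype.card κ : ℝ) * u i ^ 2 ≤ 1) →
  (∀ θ, 0 ≤ f θ) → 0 ≤ M → 1 ≤ C →
  (∀ η, ew u (rs η f) ≤ M * ∏ i ∈ spp η, (C * u i)) →
  (∀ η, ew (fun i => u i / (1 - u i)) (rs η f) ≤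
    M * Real.exp (4 * C * Fintype.card κ * ∑ i, u i ^ 2) *
      ∏ i ∈ spp η, (2 * C * (u i / (1 - u i)))) ∧
  |ew (fun i => u i / (1 - u i)) f - ew u f| ≤
    M * (Real.exp (4 * C * Fintype.card κ * ∑ i, u i ^ 2) - 1)

/-! ### patterns -/

open Classical in
/-- The pattern of the hits of `n`. -/
def pat {κ : Type} (Q : Finset ℕ) (ρ : ℕ → κ → ℕ) (n : ℕ) : {l // l ∈ Q} → Option κ :=
  fun l => if h : ∃ k, n % (l : ℕ) = ρ l k then some h.choose else none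

/-- CRT (200 lines). The law of the pattern.
PROOF. The first two parts: `Hits.inj`. Third part: Chinese remainder theorem (`none`: the residue
`0`, which is no hit by `Hits.pos`). Fourth part: by linearity let `h = [· = θ]`; then
`h (pat n) = ∏ l, F l n`, `F l n = [pat n l = θ l]`, which is periodic modulo `l`, and
`Avg.full_sum` (Lib_helper9/LG/Avg.lean) with `b = 0`, `W = 1`; the local mean is `1 / l` if `θ l` is
`some k`, and `1 - K / l` if it is `none` (the classes `ρ l k` are distinct and less than `l`). -/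
def S_CRT : Prop := ∀ (Q : Finset ℕ) (κ : Type) [Fintype κ] [DecidableEq κ] (ρ : ℕ → κ → ℕ),
  Hits Q ρ →
  (∀ (n : ℕ) (l : {l // l ∈ Q}) (k : κ), pat Q ρ n l = some k ↔ n % (l : ℕ) = ρ l k) ∧
  (∀ (n : ℕ) (l : {l // l ∈ Q}), pat Q ρ n l = none ↔ ∀ k, n % (l : ℕ) ≠ ρ l k) ∧
  (∀ θ : {l // l ∈ Q} → Option κ, ∃ n, pat Q ρ n = θ) ∧
  (∀ h : ({l // l ∈ Q} → Option κ) → ℝ, mean (pr Q) (fun n => h (pat Q ρ n)) =
    ew (fun l : {l // l ∈ Q} => 1 / ((l : ℕ) : ℝ)) h)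

/-- Functions of conductor at most `D`. -/
inductive Con (Q : Finset ℕ) (D : ℝ) : (ℕ → ℝ) → Prop
  | base (E : Finset ℕ) (g : ℕ → ℝ) (hE : E ⊆ Q) (hp : ∀ n, g (n + pr E) = g n)
      (hD : (pr E : ℝ) ≤ D) : Con Q D g
  | add {g h : ℕ → ℝ} (hg : Con Q D g) (hh : Con Q D h) : Con Q D (fun n => g n + h n)

/-- COA (100 lines). Closure properties. PROOF. Induction; product of two base functions: the set
`E ∪ E'`, `pr (E ∪ E') ≤ pr E * pr E'`, and `pr E`, `pr E'` divide `pr (E ∪ E')`. -/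
def S_COA : Prop := ∀ Q : Finset ℕ, (∀ l ∈ Q, l.Prime) →
  (∀ D c : ℝ, 1 ≤ D → Con Q D (fun _ => c)) ∧
  (∀ (D D' : ℝ) (g h : ℕ → ℝ), 1 ≤ D → 1 ≤ D' → Con Q D g → Con Q D' h →
    Con Q (D * D') (fun n => g n * h n)) ∧
  (∀ (D : ℝ) (g : ℕ → ℝ) (d : ℕ), Con Q D g → Con Q D (fun n => g (n + d))) ∧
  (∀ (D D' : ℝ) (g : ℕ → ℝ), D ≤ D' → Con Q D g → Con Q D' g) ∧
  (∀ (ι : Type) (s : Finset ι) (D : ℝ) (g : ι → ℕ → ℝ), 1 ≤ D → (∀ i ∈ s, Con Q D (g i)) →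
    Con Q D (fun n => ∑ i ∈ s, g i n))

/-! ### the sum over primes -/

/-- The primes of the class `s` modulo `W` in an interval. -/
def Prs (W s X₁ X₂ : ℕ) : Finset ℕ :=
  (Ioc X₁ X₂).filter (fun p => p.Prime ∧ p ≡ s [MOD W])

/-- LPE (250 lines). The identity and the bound of the coefficients.
PROOF. Let `K = |κ|`, `u l = 1 / l`, `p l = 1 / (l - 1) = u / (1 - u)`. `f ω = F n` for any `n` of
pattern `ω` (CRT; `Fac`). For the primes `n` of the sum (all `l ∈ Q` are at most `X₁ < n`, so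
`l ∤ n`): `bas (p l) (some k) (pat n l) = wt l (ρ l k) n` (Lib_helper72/AP/Wt.lean;
`(n : ZMod l) = (ρ l k : ZMod l)` iff `n % l = ρ l k`). For `η` let `e = ∏ l ∈ spp η, l` and `r η` an
integer with `r η ≡ ρ l (η l)` modulo all `l ∈ spp η`; then `∏ l, bas = ps e (r η) n` (`e` squarefree,
`primeFactors e` = the image of `spp η`). So by EXN
`∑ log n * F n = ∑ η, cf p f η * dsp W s e (r η) X₁ X₂`, and for `η = none` (`e = 1`, `ps = 1`) the term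
is `ew p f * ∑ log n`. By CRT `ew u (rs η f) = mean (pr Q) (fun n => if ∀ l ∈ spp η, n % l = ρ l (η l)
then F n else 0) ≤ M ∏ (C / l)` (extend `η` on the support to a function `ℕ → κ`; `κ` is not empty), so
UNM gives `ew p (rs η f) ≤ 2 M ∏ (2 C p l)` and `|ew p f - mean (pr Q) F| ≤ M (exp x - 1)`,
`x = 4 C K ∑_{l ∈ Q} 1 / l ^ 2 ≤ 8 C K / z ≤ 1/2` (`∑_{l ≥ z} 1 / l ^ 2 ≤ 2 / z`), so
`exp x - 1 ≤ 2 x ≤ 16 C K / z ≤ 1 / sqrt z` and `exp x ≤ 2`; DDB gives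
`|cf p f η| ≤ 2 M (2 C + 2) ^ |spp η| ≤ 2 M (4 C) ^ |spp η|`. If `e > D` then `cf p f η = 0`: `Con` writes `F`
as a sum of functions `g` with `g` periodic modulo `pr E`, `pr E ≤ D`; the sum of the `g` is a
function of the pattern but the single `g` need not be: replace `g` by
`g' θ = mean of g over the n mod pr Q with pattern θ` (which depends only on the coordinates in `E`
by the Chinese remainder theorem, and the sum of the `g'` is `f`), then EXN (3), (4). -/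
def S_LPE : Prop := ∀ (Q : Finset ℕ) (κ : Type) [Fintype κ] [DecidableEq κ] [Nonempty κ] (ρ : ℕ → κ → ℕ)
  (F : ℕ → ℝ) (z D M C : ℝ) (W s X₁ X₂ : ℕ), Hits Q ρ → Fac Q ρ F → Con Q D F → (∀ n, 0 ≤ F n) →
  (∀ l ∈ Q, z ≤ l ∧ ¬ l ∣ W ∧ l ≤ X₁) → 1 ≤ C → (8 * C * ((Fintype.card κ : ℝ) + 1)) ^ 8 ≤ z →
  X₁ ≤ X₂ → 0 ≤ M →
  (∀ (E : Finset ℕ) (k : ℕ → κ), E ⊆ Q → mean (pr Q) (fun n =>
    if ∀ l ∈ E, n % l = ρ l (k l) then F n else 0) ≤ M * ∏ l ∈ E, (C / l)) →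
  ∃ (c : ({l // l ∈ Q} → Option κ) → ℝ) (r : ({l // l ∈ Q} → Option κ) → ℤ),
    (∀ η, |c η| ≤ 2 * M * (4 * C) ^ (spp η).card) ∧
    (∀ η : {l // l ∈ Q} → Option κ, D < ∏ l ∈ spp η, ((l : ℕ) : ℝ) → c η = 0) ∧
    (∀ η : {l // l ∈ Q} → Option κ, IPR.UnitM (r η) (∏ l ∈ spp η, (l : ℕ))) ∧
    |∑ n ∈ Prs W s X₁ X₂, Real.log n * (F n - mean (pr Q) F) -
      ∑ η ∈ univ.filter (fun η : {l // l ∈ Q} → Option κ => spp η ≠ ∅), c η *
        IPR.dsp W s (∏ l ∈ spp η, (l : ℕ)) (r η) X₁ X₂| ≤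
      M / Real.sqrt z * ∑ n ∈ Prs W s X₁ X₂, Real.log n

def M_LPE : Prop := S_EXN → S_DDB → S_UNM → S_CRT → S_LPE

/-- LPA (250 lines; hypotheses `S_LPE` and `IPR.S_BVP`). Functions of hits are
equidistributed over primes, error relative to `M`.
PROOF. LPE. Group the `η` by `e = ∏ l ∈ spp η, l`; `e = 1` only for `spp η = ∅`, and `z ≤ e ≤ D` if
`c η ≠ 0`. For given `e` (a given support `E`) there are `K ^ |E|` functions `η`; let `R e` be the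
residue `r η` with the largest `|dsp W s e (r η)|`. `K ^ |E| (4 C) ^ |E| ≤ e ^ (1/8)`, since
`(4 C K) ^ 8 ≤ z ≤ l`. So the sum is at most
`2 M ∑_j (2 ^ (j+1)) ^ (1/8) ∑_{e ∈ [2 ^ j, 2 ^ (j+1))} |dsp W s e (R e)|`, `2 ^ (j+1) > z`, `2 ^ j ≤ D`, and BVP
(`f = W`, `U = 2 ^ j`, `U ^ 40 ≤ D ^ 40 ≤ X₂`, `c u = s`) bounds the inner sum by
`X₂ log^4 X₂ / (W sqrt U)`. `∑_{2 ^ j > z / 2} (2 ^ (j+1)) ^ (1/8) / sqrt (2 ^ j) ≤ C' z ^ (-3/8) ≤ C' z ^ (-1/3)`. -/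
def S_LPA : Prop := ∃ C₁ : ℝ, 0 < C₁ ∧
  ∀ (Q : Finset ℕ) (κ : Type) [Fintype κ] [DecidableEq κ] [Nonempty κ] (ρ : ℕ → κ → ℕ)
  (F : ℕ → ℝ) (z D M C : ℝ) (W s X₁ X₂ : ℕ), Hits Q ρ → Fac Q ρ F → Con Q D F → (∀ n, 0 ≤ F n) →
  (∀ l ∈ Q, z ≤ l ∧ ¬ l ∣ W ∧ l ≤ X₁) → 1 ≤ C → (8 * C * ((Fintype.card κ : ℝ) + 1)) ^ 8 ≤ z →
  1 ≤ W → s.Coprime W → C₁ ≤ X₂ → X₁ ≤ X₂ → 1 ≤ D → D ^ 40 ≤ X₂ → (W : ℝ) ^ 40 ≤ X₂ → 0 ≤ M →
  (∀ (E : Finset ℕ) (k : ℕ → κ), E ⊆ Q → mean (pr Q) (fun n =>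
    if ∀ l ∈ E, n % l = ρ l (k l) then F n else 0) ≤ M * ∏ l ∈ E, (C / l)) →
  |∑ n ∈ Prs W s X₁ X₂, Real.log n * (F n - mean (pr Q) F)| ≤
    M * (C₁ * X₂ * Real.log X₂ ^ 4 / (W * z ^ (1 / 3 : ℝ)) +
      1 / Real.sqrt z * ∑ n ∈ Prs W s X₁ X₂, Real.log n)

def M_LPA : Prop := S_LPE → IPR.S_BVP → S_LPA

/-! ### the function `G` -/

/-- The function `G` with coefficients `y` and fixed sites `D`. -/
def Gy (P : ℕ → Finset ℕ) (b : ℕ → ℕ) (N m : ℕ) (Q' S D : Finset ℕ)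
    (y : ({l // l ∈ Q'} → Option {k // k ∈ S}) → ℝ) (c : ℕ) : ℝ :=
  ∑ α, y α * (Lm P b N m ((act α).map (Function.Embedding.subtype _) ∪ D) c *
    vl (fun (i : {l // l ∈ Q'}) (k : {k // k ∈ S}) (c : ℕ) => xx m i k c) α c)

/-- The diagonal sum. -/
def Zy (P : ℕ → Finset ℕ) (N : ℕ) (Q' S D : Finset ℕ)
    (y : ({l // l ∈ Q'} → Option {k // k ∈ S}) → ℝ) : ℝ :=
  ∑ α, y α ^ 2 * VS (SS P N) ((act α).map (Function.Embedding.subtype _) ∪ D).card /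
    ph (fun i : {l // l ∈ Q'} => ((i : ℕ) : ℝ) - 1) (spp α)

/-- `|y|` does not decrease if assigned primes are removed. -/
def Mono {ι κ : Type} (y : (ι → Option κ) → ℝ) : Prop :=
  ∀ α β : ι → Option κ, (∀ i, β i = α i ∨ β i = none) → |y α| ≤ |y β|

/-- The conditions on the sieve primes, the large primes and the sites. -/
structure Cfg (P : ℕ → Finset ℕ) (b : ℕ → ℕ) (N m J : ℕ) (Q' S D : Finset ℕ)
    (y : ({l // l ∈ Q'} → Option {k // k ∈ S}) → ℝ) : Prop where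
  disj : ∀ i < N, ∀ j < N, i ≠ j → Disjoint (P i) (P j)
  pS : ∀ l ∈ SS P N, l.Prime ∧ ¬ l ∣ m ∧ 16 * J + 16 ≤ l
  pQ : ∀ l ∈ Q', l.Prime ∧ ¬ l ∣ m ∧ l ∉ SS P N
  ne : S.Nonempty
  DS : D ⊆ S
  lt : ∀ k ∈ S, ∀ l ∈ SS P N ∪ Q', k < l
  blk : ∀ j < N, ∑ l ∈ P j, (1 : ℝ) / l ≤ 1
  bb : ∀ j < N, 700 * (J + 1) + j ≤ b j
  card : ∀ α, y α ≠ 0 → ((act α).map (Function.Embedding.subtype _) ∪ D).card ≤ J + 1
  mono : Mono y
  eps : ∀ α, y α ≠ 0 → ∏ i ∈ spp α, (1 + ((S.card : ℝ) - 1) / (((i : ℕ) : ℝ) - 1)) ≤ 2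

/-- LCS (200 lines). The sieve functions with forced hits.
PROOF. A hit of `l` at `k l` is a hit of `A` iff `k l ∈ A` (all are less than `l`, `l ∤ m`). Pointwise,
for the block `j` with `T` = the number of the `l ∈ P j` which hit `A ∪ A'` and `B = b j`:
`FF B (om A) * FF B (om A') ≤ [T = 0] + 8 ^ (- 2 B) * 32 ^ T`. Indeed if `T ≥ 1` then the product is
`0` unless `om A > 2 B` or `om A' > 2 B` (`NN`: `FF B n = 0` for `1 ≤ n ≤ 2 B`, and if `om A = 0` then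
`om A' ≥ 1` or conversely), so `T ≥ 2 B + 1` and it is at most `2 ^ (om A + om A') ≤ 4 ^ T ≤ 32 ^ T 8 ^ (-2 B)`.
Multiply over the blocks and expand (`Finset.prod_add`); every term is a product of local functions
of the primes, with mean value the product of the local means (`Avg.full_sum` with `b = 0`, `W = 1`).
With `U = |A ∪ A'|`, `r = |E ∩ P j|`: the mean of the first function of the block together with the
hits of `E ∩ P j` is at most `∏_{l ∈ E} (1/l) ∏_{l ∈ P j \ E} (1 - U / l)`, of the second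
`8 ^ (-2B) 32 ^ r ∏_{l ∈ E} (1/l) ∏_{l ∈ P j \ E} (1 + 31 U / l) ≤ 8 ^ (-2B) 32 ^ r exp (31 U) ∏ (1/l)`.
`1 - U / l ≥ 1/2` and `1 - U / l ≥ exp (-2 U / l)` (`l ≥ 8 U`), so
`∏_{P j \ E} (1 - U/l) ≤ 2 ^ r VSj`, `VSj = ∏_{P j} (1 - U / l) ≥ exp (- 2 U)`, and
`8 ^ (-2 B) exp (33 U) ≤ exp (- 4 B + 33 U) ≤ exp (- j - 1)` (`B ≥ 350 U + j`, `B ≥ 700`), the block gives at most
`∏ (1/l) 32 ^ r VSj (1 + exp (- j - 1))`, and `∏_j (1 + exp (- j - 1)) ≤ exp (∑ exp (- j - 1)) ≤ 2`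
(`∑ exp (-j-1) = 1 / (e - 1) < 0.6`). -/
def S_LCS : Prop := ∀ (P : ℕ → Finset ℕ) (b : ℕ → ℕ) (N m J : ℕ) (A A' E : Finset ℕ) (k : ℕ → ℕ),
  (∀ i < N, ∀ j < N, i ≠ j → Disjoint (P i) (P j)) →
  (∀ l ∈ SS P N, l.Prime ∧ ¬ l ∣ m ∧ 16 * J + 16 ≤ l) →
  (∀ x ∈ A ∪ A', ∀ l ∈ SS P N, x < l) → (∀ l ∈ E, k l < l) → (A ∪ A').card ≤ 2 * J + 2 →
  E ⊆ SS P N → (∀ j < N, ∑ l ∈ P j, (1 : ℝ) / l ≤ 1) → (∀ j < N, 700 * (J + 1) + j ≤ b j) →
  mean (pr (SS P N)) (fun c => if ∀ l ∈ E, l ∣ c + k l * m then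
      Lm P b N m A c * Lm P b N m A' c else 0) ≤
    2 * VS (SS P N) (A ∪ A').card * ∏ l ∈ E, (32 / (l : ℝ))

/-- The local factor of a forced hit at `k`. -/
def cc {κ : Type} [DecidableEq κ] (q : ℝ) (k : κ) : Option κ → ℝ
  | none => 1
  | some j => if j = k then 1 else 1 / q

/-- LCQ (200 lines). The sum over the pairs of configurations.
PROOF. The factor `g α β = ∏_E (cc α cc β) ∏_{E^c} |gl α β|` is symmetric, and
`|y α| |y β| w (act α) (act β) ≤ (y α ^ 2 v (act α) + y β ^ 2 v (act β)) / 2`; so the left side is at most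
`∑ α, y α ^ 2 v (act α) ∑ β, g α β`. `∑ β, g α β = ∏_E (cc α_i ∑_o cc o) ∏_{E^c} ∑_o |gl α_i o|`
(`Fintype.prod_sum` / `Finset.prod_univ_sum`), `∑_o cc o = 1 + 1 + (K - 1) / q ≤ 3`, and
`sum_abs_gl_none`, `sum_abs_gl_some` (LG/Gram.lean): at most
`3 ^ |E| ∏_E cc α_i ∏_{i ∈ spp α \ E} (1 / q_i) * 2` (all factors `1 + (K-1)/q` are at least `1`). For
`α` let `β` be `α` with `none` on `E`: `y α ^ 2 ≤ y β ^ 2`, `act β ⊆ act α`, `v (act α) ≤ v (act β)`, and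
`spp α \ E = spp β`. The sum over the values of `α` on `E` of `∏ cc` is at most `3 ^ |E|`, and the sum
over the `β` which are `none` on `E` is a part of the sum on the right (all terms are nonnegative). -/
def S_LCQ : Prop := ∀ (ι κ : Type) [Fintype ι] [DecidableEq ι] [Fintype κ] [DecidableEq κ]
  (q : ι → ℝ) (E : Finset ι) (k : ι → κ) (y : (ι → Option κ) → ℝ) (v : Finset κ → ℝ)
  (w : Finset κ → Finset κ → ℝ), (∀ i, 0 < q i) → 1 ≤ Fintype.card κ →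
  (∀ i, (Fintype.card κ : ℝ) - 1 ≤ q i) → (∀ A, 0 ≤ v A) → (∀ A A', A ⊆ A' → v A' ≤ v A) →
  (∀ A A', 0 ≤ w A A' ∧ w A A' ≤ v A ∧ w A A' ≤ v A') → Mono y →
  (∀ α, y α ≠ 0 → ∏ i ∈ spp α, (1 + ((Fintype.card κ : ℝ) - 1) / q i) ≤ 2) →
  ∑ α, ∑ β, |y α| * |y β| * w (act α) (act β) *
      ((∏ i ∈ E, cc (q i) (k i) (α i) * cc (q i) (k i) (β i)) *
        ∏ i ∈ Eᶜ, |gl (q i) (α i) (β i)|) ≤
    2 * 9 ^ E.card * ∑ α, y α ^ 2 * v (act α) / ph q (spp α)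

/-- LOC (250 lines). The mass of forced hits.
PROOF. Expand the square; the mean of a product of a function of the hits of `SS` and a function of
the hits of `Q'` is the product of the means (`Avg.full_sum`-like: Chinese remainder theorem for the
coprime numbers `pr SS`, `pr Q'`; or expand everything in local functions). Mean of the `Q'` part for
the pair `(α, β)` and `E' = E ∩ Q'`: the product of the local means: for `l ∉ E` it is `gl (l - 1) (α l) (β l)`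
(`StmtLOC`, LG/Loc.lean), for `l ∈ E` it is `(1 / l) x x'` with `|x| = cc (l - 1) (k l) (α l)`. The `SS` part
is between `0` (`NN`: `Lm ≥ 0`) and the bound of LCS, `w A A' = VS |A ∪ A' ∪ D|`, `v A = VS |A ∪ D|` (`VS` is
antitone and nonnegative in the range `≤ 2 J + 2 ≤ l`; for larger sets put `v = w = 0`, the
coefficients `y` vanish: `Cfg.card`). So the mean is at most
`2 ∏_{E ∩ SS} (32 / l) ∏_{E ∩ Q'} (1 / l) *` the left side of LCQ `≤ 4 ∏_{E ∩ SS} (32 / l) ∏_{E ∩ Q'} (9 / l) Zy`. -/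
def S_LOC : Prop := ∀ (P : ℕ → Finset ℕ) (b : ℕ → ℕ) (N m J : ℕ)
  (Q' S D : Finset ℕ) (y : ({l // l ∈ Q'} → Option {k // k ∈ S}) → ℝ),
  Cfg P b N m J Q' S D y → ∀ (E : Finset ℕ) (k : ℕ → ℕ), E ⊆ SS P N ∪ Q' → (∀ l ∈ E, k l ∈ S) →
  mean (pr (SS P N ∪ Q')) (fun c => if ∀ l ∈ E, l ∣ c + k l * m then
      Gy P b N m Q' S D y c ^ 2 else 0) ≤
    4 * Zy P N Q' S D y * ∏ l ∈ E, (32 / (l : ℝ))

def M_LOC : Prop := S_LCS → S_LCQ → S_LOC

/-- FCY (130 lines). `G` depends only on the hits. PROOF. Copy of `fac` (IPP/FAC.lean), with `Gy` in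
place of `Gc` (`D ⊆ S`). -/
def S_FCY : Prop := ∀ (P : ℕ → Finset ℕ) (b : ℕ → ℕ) (N m k₁ : ℕ) (Q' S D : Finset ℕ)
  (y : ({l // l ∈ Q'} → Option {k // k ∈ S}) → ℝ), D ⊆ S →
  (∀ l ∈ SS P N ∪ Q', l.Prime ∧ ¬ l ∣ m ∧ k₁ < l) →
  (∀ l ∈ SS P N ∪ Q', ∀ k ∈ S, k < l) → k₁ ∉ S →
  Hits (SS P N ∪ Q') (fun l (k : {k // k ∈ S}) => rho m k₁ l k) ∧
  Fac (SS P N ∪ Q') (fun l (k : {k // k ∈ S}) => rho m k₁ l k)
    (fun n => Gy P b N m Q' S D y (n + k₁ * m * (pr (SS P N ∪ Q') - 1)))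

/-- CNY (180 lines; hypothesis `S_COA`). The conductor of `G`.
PROOF. `FF b (om P A c) = ∑_{i ≤ 2 b} (-1)^i C(om, i) = ∑_{T ⊆ P, |T| ≤ 2 b} (-1)^|T| ∏_{l ∈ T} [l hits A]`
(`Finset.card_powersetCard`, the `T` contained in the set of the `l ∈ P` which hit `A`); the function
`∏_{l ∈ T} [l hits A]` is periodic modulo `pr T ≤ (1 + ∑_{l ∈ P} l) ^ (2 b)`. So `Lm` has conductor at
most `LV` (COA, products over the blocks). `vl α` is periodic modulo `∏_{l ∈ spp α} l = exp (sz)`, at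
most `exp B` if `y α ≠ 0`. -/
def S_CNY : Prop := ∀ (P : ℕ → Finset ℕ) (b : ℕ → ℕ) (N m : ℕ) (Q' S D : Finset ℕ)
  (y : ({l // l ∈ Q'} → Option {k // k ∈ S}) → ℝ) (B : ℝ), (∀ l ∈ SS P N ∪ Q', l.Prime) → 0 ≤ B →
  (∀ α, y α ≠ 0 → sz (fun i : {l // l ∈ Q'} => Real.log ((i : ℕ) : ℝ)) (spp α) ≤ B) →
  Con (SS P N ∪ Q') (Real.exp B * LV P b N) (Gy P b N m Q' S D y)

def M_CNY : Prop := S_COA → S_CNY

/-- LPY (200 lines). The second moment of `G` over the primes `b' + W x + i m`, `x < n`.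
PROOF. LPA with `κ = {k // k ∈ S}`, `ρ = rho m i`, `F n' = Gy (n' + i m (pr - 1)) ^ 2`, `z = L ^ 100`,
`D = (exp B LV) ^ 2 ≤ exp (L / 400)`, `M = 4 Zy`, `C = 32`, `s = b' + i m`, `X₁ = i m - 1`, `X₂ = i m + W n - 1`:
the primes of `Prs` are exactly the `b' + W x + i m`, `x < n`, and for such `n'`
`Gy (n' + i m (pr - 1)) = Gy (b' + W x + i m pr) = Gy (b' + W x)` (periodic modulo `pr (SS ∪ Q')`; this
follows from FAC-like arguments: `l ∣ c + k m` depends on `c` modulo `l`). The means are equal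
(periodicity, `mean (pr Q)` is invariant under shifts); the hypothesis on the mass of hits is LOC
(`n' % l = rho m i l k` iff `l ∣ (n' + i m (pr - 1)) + k m`, `FACx.dvd_iff`). Conditions:
`(8 * 32 (|S| + 1)) ^ 8 ≤ (257 (L ^ 2 + 2)) ^ 8 ≤ L ^ 100`, `l ≤ X₁`: `l ≤ LV ≤ exp (L / 1000)` for
`l ∈ P j` (`b j ≥ 1`), `l ≤ exp B₁ ≤ exp (L / 10000)` for `l ∈ Q'`; `D ^ 40 ≤ exp (L / 10) ≤ X₂`,
`W ^ 40 ≤ exp (80 sqrt L) ≤ X₂`. Result: `4 Zy (C₁ (L ^ 2 + 1) exp L (2 L) ^ 4 / (W L ^ 33) +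
L ^ (-50) * 3 L * exp L / W)`, `X₂ ≤ (i + 1) m`, `∑ log ≤ n * 3 L`, `n ≤ exp L / W`, which is at most
`Zy exp L / (W L ^ 21)` for large `L`, and `W.totient ≤ W`. -/
def S_LPY : Prop := ∃ m₀ : ℕ, ∀ m : ℕ, m₀ ≤ m → ∀ (P : ℕ → Finset ℕ) (bb : ℕ → ℕ) (N W b i n J : ℕ)
  (Q' S D : Finset ℕ) (y : ({l // l ∈ Q'} → Option {k // k ∈ S}) → ℝ) (L B : ℝ),
  L = Real.log m → Cfg P bb N m J Q' S D y → 1 ≤ W → (W : ℝ) ≤ Real.exp (2 * Real.sqrt L) →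
  b < W → (b + i * m).Coprime W → 2 ≤ i → (i : ℝ) ≤ L ^ 2 → n = m / W →
  (∀ l ∈ SS P N ∪ Q', ¬ l ∣ W ∧ L ^ 100 < (l : ℝ)) → (∀ l ∈ Q', (l : ℝ) ≤ Real.exp (L / 10000)) →
  (∀ k ∈ S, (k : ℝ) ≤ L ^ 2) → i ∉ S → LV P bb N ≤ Real.exp (L / 1000) → 0 ≤ B → B ≤ L / 10000 →
  (∀ α, y α ≠ 0 → sz (fun i : {l // l ∈ Q'} => Real.log ((i : ℕ) : ℝ)) (spp α) ≤ B) →
  |∑ x ∈ IP.Pi m W b i n, IP.lw m W b i x * Gy P bb N m Q' S D y (b + W * x) ^ 2 -
      IP.Th m W b i n * mean (pr (SS P N ∪ Q')) (fun c => Gy P bb N m Q' S D y c ^ 2)| ≤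
    Zy P N Q' S D y * (Real.exp L / (W.totient * L ^ 20))

def M_LPY : Prop := S_LPA → S_LOC → S_FCY → S_CNY → S_COA → S_LPY

end

end Pool.Agent.CRE
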