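import Mathlib
import Pool.Agent.CRE.Stmts
import Pool.Agent.IPP.GLEV
import Pool.Agent.Lib_helper9.LG.EXPd

set_option autoImplicit false

/-!
CNY (helper89): the conductor of the function `G` with general coefficients.
-/

namespace Pool.Agent.CRE

open Finset Pool.Agent.Lib_helper9.LG Pool.Agent.IPP

noncomputable section

namespace CNYx

/-- A multiple of a period is a period. -/
lemma per_mul {g : ℕ → ℝ} {d e : ℕ} (h : ∀ n, g (n + d) = g n) (hde : d ∣ e) (n : ℕ) :
    g (n + e) = g n := by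
  obtain ⟨k, rfl⟩ := hde
  induction k with
  | zero => simp
  | succ k ih => rw [Nat.mul_succ, ← Nat.add_assoc, h, ih]

/-- The product of local functions over `E` has the period `pr E`. -/
lemma prod_per (E : Finset ℕ) (f : ℕ → ℕ → ℝ) (hp : ∀ l ∈ E, ∀ c, f l (c + l) = f l c) (n : ℕ) :
    ∏ l ∈ E, f l (n + pr E) = ∏ l ∈ E, f l n := by
  refine Finset.prod_congr rfl fun l hl => ?_
  exact per_mul (hp l hl) (Finset.dvd_prod_of_mem (fun l => l) hl) n

lemma one_le_blk (P : Finset ℕ) : (1 : ℝ) ≤ 1 + ∑ l ∈ P, (l : ℝ) := by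
  have : (0 : ℝ) ≤ ∑ l ∈ P, (l : ℝ) := Finset.sum_nonneg fun l _ => Nat.cast_nonneg l
  linarith

open Classical in
/-- The conductor of a function of a block. -/
lemma con_FF {Q : Finset ℕ} (hC : S_COA) (hQ : ∀ l ∈ Q, l.Prime) (P : Finset ℕ) (hP : P ⊆ Q)
    (b m : ℕ) (A : Finset ℕ) :
    Con Q ((1 + ∑ l ∈ P, (l : ℝ)) ^ (2 * b)) (fun c => FF b (om P m A c)) := by
  have h1 : ∀ c, FF b (om P m A c) = ∑ i ∈ range (2 * b + 1),
      ∑ E ∈ powersetCard i P, (-1 : ℝ) ^ i *
        ∏ l ∈ E, (if ∃ k ∈ A, l ∣ c + k * m then (1 : ℝ) else 0) := by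
    intro c
    unfold FF om
    refine Finset.sum_congr rfl fun i _ => ?_
    rw [← Finset.mul_sum]
    congr 1
    rw [← Finset.card_powersetCard, Finset.card_eq_sum_ones, Nat.cast_sum]
    have h2 : powersetCard i (P.filter (fun l => ∃ k ∈ A, l ∣ c + k * m)) =
        (powersetCard i P).filter (fun E => ∀ l ∈ E, ∃ k ∈ A, l ∣ c + k * m) := by
      ext E
      simp only [mem_powersetCard, mem_filter, subset_iff]
      constructor
      · rintro ⟨h1, h2⟩
        exact ⟨⟨fun x hx => (h1 hx).1, h2⟩, fun x hx => (h1 hx).2⟩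
      · rintro ⟨⟨h1, h2⟩, h3⟩
        exact ⟨fun x hx => ⟨h1 hx, h3 x hx⟩, h2⟩
    rw [h2, Finset.sum_filter]
    refine Finset.sum_congr rfl fun E _ => ?_
    rw [Finset.prod_ite_zero]
    simp
  rw [funext h1]
  obtain ⟨-, -, -, -, hsum⟩ := hC Q hQ
  have hD : (1 : ℝ) ≤ (1 + ∑ l ∈ P, (l : ℝ)) ^ (2 * b) := one_le_pow₀ (one_le_blk P)
  refine hsum ℕ _ _ _ hD fun i hi => ?_
  refine hsum (Finset ℕ) _ _ _ hD fun E hE => ?_
  refine Con.base E _ ((Finset.mem_powersetCard.1 hE).1.trans hP) ?_ ?_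
  · intro n
    have h2 := prod_per E (fun l c => if ∃ k ∈ A, l ∣ c + k * m then (1 : ℝ) else 0) (by
      intro l _ c
      have h4 : ∀ k, (l ∣ c + l + k * m ↔ l ∣ c + k * m) := by
        intro k
        have : c + l + k * m = (c + k * m) + l := by ring
        rw [this]
        exact Nat.dvd_add_self_right
      simp only [h4]) n
    rw [h2]
  · have h2 : (pr E : ℝ) = ∏ l ∈ E, (l : ℝ) := by
      unfold pr
      push_cast
      rfl
    rw [h2]
    have h3 : ∏ l ∈ E, (l : ℝ) ≤ ∑ E ∈ powersetCard i P, ∏ l ∈ E, (l : ℝ) :=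
      Finset.single_le_sum (f := fun E : Finset ℕ => ∏ l ∈ E, (l : ℝ))
        (fun E _ => Finset.prod_nonneg fun l _ => Nat.cast_nonneg l) hE
    have h4 : ∑ E ∈ powersetCard i P, ∏ l ∈ E, (l : ℝ) ≤
        ∑ i ∈ range (2 * b + 1), ∑ E ∈ powersetCard i P, ∏ l ∈ E, (l : ℝ) :=
      Finset.single_le_sum (f := fun i : ℕ => ∑ E ∈ powersetCard i P, ∏ l ∈ E, (l : ℝ))
        (fun i _ => Finset.sum_nonneg fun E _ =>
          Finset.prod_nonneg fun l _ => Nat.cast_nonneg l) hi
    exact (h3.trans h4).trans (EXPd.sum_esymm_le P (2 * b))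

/-- Products over a finite set. -/
lemma con_prod {Q : Finset ℕ} (hC : S_COA) (hQ : ∀ l ∈ Q, l.Prime) (s : Finset ℕ) (D : ℕ → ℝ)
    (g : ℕ → ℕ → ℝ) (hD : ∀ i ∈ s, 1 ≤ D i) (h : ∀ i ∈ s, Con Q (D i) (g i)) :
    1 ≤ ∏ i ∈ s, D i ∧ Con Q (∏ i ∈ s, D i) (fun c => ∏ i ∈ s, g i c) := by
  classical
  obtain ⟨hconst, hmul, -, -, -⟩ := hC Q hQ
  induction s using Finset.induction_on with
  | empty =>
    simp only [Finset.prod_empty]
    exact ⟨le_rfl, hconst 1 1 le_rfl⟩
  | insert i s hi ih =>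
    simp only [Finset.prod_insert hi]
    have h1 := hD i (mem_insert_self _ _)
    obtain ⟨h2, h3⟩ := ih (fun j hj => hD j (mem_insert_of_mem hj))
      (fun j hj => h j (mem_insert_of_mem hj))
    exact ⟨one_le_mul_of_one_le_of_one_le h1 h2,
      hmul _ _ _ _ h1 h2 (h i (mem_insert_self _ _)) h3⟩

/-- The conductor of the sieve functions. -/
lemma con_Lm {Q : Finset ℕ} (hC : S_COA) (hQ : ∀ l ∈ Q, l.Prime) (P : ℕ → Finset ℕ) (b : ℕ → ℕ)
    (N m : ℕ) (hP : SS P N ⊆ Q) (A : Finset ℕ) :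
    1 ≤ LV P b N ∧ Con Q (LV P b N) (fun c => Lm P b N m A c) := by
  unfold Lm LV
  refine con_prod hC hQ (range N) _ (fun j c => FF (b j) (om (P j) m A c)) ?_ ?_
  · intro j _
    exact one_le_pow₀ (one_le_blk (P j))
  · intro j hj
    refine con_FF hC hQ (P j) ?_ (b j) m A
    intro l hl
    exact hP (Finset.mem_biUnion.2 ⟨j, hj, hl⟩)

end CNYx

open CNYx IPP.GLEVx in
theorem t_CNY : M_CNY := by
  intro hC P b N m Q' S D y B hpr hB hy
  obtain ⟨hconst, hmul, -, hmono, hsum⟩ := hC (SS P N ∪ Q') hpr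
  have hLV : 1 ≤ LV P b N := (con_Lm hC hpr P b N m subset_union_left ∅).1
  have hexp : 1 ≤ Real.exp B := Real.one_le_exp hB
  have hD : 1 ≤ Real.exp B * LV P b N := one_le_mul_of_one_le_of_one_le hexp hLV
  have key : ∀ α ∈ (univ : Finset ({l // l ∈ Q'} → Option {k // k ∈ S})),
      Con (SS P N ∪ Q') (Real.exp B * LV P b N)
        (fun c => y α * (Lm P b N m ((act α).map (Function.Embedding.subtype _) ∪ D) c *
          vl (fun (i : {l // l ∈ Q'}) (k : {k // k ∈ S}) (c : ℕ) => xx m i k c) α c)) := by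
    intro α _
    by_cases h0 : y α = 0
    · rw [h0]
      simp only [zero_mul]
      exact hconst _ _ hD
    · have h1 := hconst 1 (y α) le_rfl
      have h2 := (con_Lm hC hpr P b N m subset_union_left
        ((act α).map (Function.Embedding.subtype _) ∪ D)).2
      have h3 : Con (SS P N ∪ Q') (Real.exp B)
          (fun c => vl (fun (i : {l // l ∈ Q'}) (k : {k // k ∈ S}) (c : ℕ) => xx m i k c)
            α c) := by
        refine Con.base (EE α) _ ((EE_sub α).trans subset_union_right) ?_ ?_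
        · intro n
          simp only [vl_eq]
          exact prod_per (EE α) (fl m α) (fun l _ c => fl_per m α l c) n
        · have h4 : (pr (EE α) : ℝ) = ∏ l ∈ EE α, (l : ℝ) := by
            unfold pr
            push_cast
            rfl
          rw [h4, level_eq (fun l hl => (hpr l (mem_union_right _ hl)).pos) α]
          exact Real.exp_le_exp.2 (hy α h0)
      have h5 := hmul _ _ _ _ le_rfl (one_le_mul_of_one_le_of_one_le hLV hexp) h1
        (hmul _ _ _ _ hLV hexp h2 h3)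
      have h6 : 1 * (LV P b N * Real.exp B) = Real.exp B * LV P b N := by ring
      rw [h6] at h5
      exact h5
  exact hsum _ univ _ _ hD key

end

end Pool.Agent.CRE
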