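import Pool.Agent.CRE.Stmts

set_option autoImplicit false
set_option linter.unusedSectionVars false

/-!
# Project CRE (MP_e1dc24_nt), module CRT: the law of the pattern
-/

namespace Pool.Agent.CRE

open Finset Pool.Agent.Lib_helper9.LG Pool.Agent.IPP

noncomputable section

namespace CRTAux

variable {Q : Finset ℕ} {κ : Type} {ρ : ℕ → κ → ℕ}

lemma pat_some (hH : Hits Q ρ) (n : ℕ) (l : {l // l ∈ Q}) (k : κ) :
    pat Q ρ n l = some k ↔ n % (l : ℕ) = ρ l k := by
  unfold pat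
  constructor
  · intro h
    split at h
    · rename_i h'
      have h1 := h'.choose_spec
      have h2 : h'.choose = k := Option.some.inj h
      rw [h2] at h1
      exact h1
    · cases h
  · intro h
    have h' : ∃ k, n % (l : ℕ) = ρ l k := ⟨k, h⟩
    rw [dif_pos h']
    have h1 := h'.choose_spec
    have h2 : h'.choose = k := hH.inj l l.2 (by rw [← h1, h])
    rw [h2]

lemma pat_none (n : ℕ) (l : {l // l ∈ Q}) :
    pat Q ρ n l = none ↔ ∀ k, n % (l : ℕ) ≠ ρ l k := by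
  unfold pat
  constructor
  · intro h k hk
    rw [dif_pos ⟨k, hk⟩] at h
    cases h
  · intro h
    rw [dif_neg]
    rintro ⟨k, hk⟩
    exact h k hk

lemma pat_per (n : ℕ) (l : {l // l ∈ Q}) : pat Q ρ (n + l) l = pat Q ρ n l := by
  unfold pat
  rw [Nat.add_mod_right]

lemma pat_surj (hH : Hits Q ρ) (θ : {l // l ∈ Q} → Option κ) : ∃ n, pat Q ρ n = θ := by
  classical
  let a : {l // l ∈ Q} → ℕ := fun l => (θ l).elim 0 (fun k => ρ l k)
  have hpp : Set.Pairwise (↑(univ : Finset {l // l ∈ Q}) : Set {l // l ∈ Q})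
      (Function.onFun Nat.Coprime (fun l : {l // l ∈ Q} => (l : ℕ))) := by
    intro x _ y _ hxy
    exact (Nat.coprime_primes (hH.prime x x.2) (hH.prime y y.2)).2
      (fun h => hxy (Subtype.ext h))
  obtain ⟨n, hn⟩ := Nat.chineseRemainderOfFinset a (fun l : {l // l ∈ Q} => (l : ℕ)) univ
    (fun l _ => (hH.prime l l.2).ne_zero) hpp
  refine ⟨n, ?_⟩
  funext l
  have h1 : n % (l : ℕ) = a l % (l : ℕ) := hn l (mem_univ _)
  cases hθ : θ l with
  | none =>
    rw [pat_none]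
    intro k hk
    have h2 : a l = 0 := by
      change (θ l).elim 0 (fun k => ρ l k) = 0
      rw [hθ]
      rfl
    rw [h2, Nat.zero_mod] at h1
    have h3 := hH.pos l l.2 k
    omega
  | some k =>
    rw [pat_some hH]
    have h2 : a l = ρ l k := by
      change (θ l).elim 0 (fun k => ρ l k) = ρ l k
      rw [hθ]
      rfl
    rw [h1, h2, Nat.mod_eq_of_lt (hH.lt l l.2 k)]

variable [Fintype κ] [DecidableEq κ]

/-- the local sums -/
lemma loc_some (hH : Hits Q ρ) (l : {l // l ∈ Q}) (k : κ) :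
    ∑ y ∈ range (l : ℕ), (if pat Q ρ y l = some k then (1 : ℝ) else 0) = 1 := by
  have h1 : ∀ y ∈ range (l : ℕ), (if pat Q ρ y l = some k then (1 : ℝ) else 0) =
      if y = ρ l k then 1 else 0 := by
    intro y hy
    have h2 : pat Q ρ y l = some k ↔ y = ρ l k := by
      rw [pat_some hH, Nat.mod_eq_of_lt (mem_range.1 hy)]
    by_cases h3 : y = ρ l k
    · rw [if_pos h3, if_pos (h2.2 h3)]
    · rw [if_neg h3, if_neg (fun h => h3 (h2.1 h))]
  rw [Finset.sum_congr rfl h1, Finset.sum_ite_eq', if_pos]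
  exact mem_range.2 (hH.lt l l.2 k)

lemma loc_none (hH : Hits Q ρ) (l : {l // l ∈ Q}) :
    ∑ y ∈ range (l : ℕ), (if pat Q ρ y l = none then (1 : ℝ) else 0) =
      (l : ℕ) - (Fintype.card κ : ℝ) := by
  have h1 : ∀ y ∈ range (l : ℕ), (if pat Q ρ y l = none then (1 : ℝ) else 0) =
      1 - ∑ k : κ, if pat Q ρ y l = some k then (1 : ℝ) else 0 := by
    intro y _
    have h2 : ∑ o : Option κ, (if pat Q ρ y l = o then (1 : ℝ) else 0) = 1 := by
      rw [Finset.sum_ite_eq, if_pos (mem_univ _)]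
    rw [Fintype.sum_option] at h2
    linarith
  rw [Finset.sum_congr rfl h1, Finset.sum_sub_distrib, Finset.sum_comm,
    Finset.sum_congr rfl (fun k _ => loc_some hH l k)]
  simp

lemma loc (hH : Hits Q ρ) (l : {l // l ∈ Q}) (o : Option κ) :
    (∑ y ∈ range (l : ℕ), (if pat Q ρ y l = o then (1 : ℝ) else 0)) / (l : ℕ) =
      law (Fintype.card κ) (1 / ((l : ℕ) : ℝ)) o := by
  have hl : ((l : ℕ) : ℝ) ≠ 0 := Nat.cast_ne_zero.2 (hH.prime l l.2).ne_zero
  cases o with
  | none =>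
    rw [loc_none hH]
    unfold law
    field_simp
  | some k =>
    rw [loc_some hH]
    unfold law
    rfl

/-- the number of `n` with a given pattern -/
lemma cnt_pat (hH : Hits Q ρ) (θ : {l // l ∈ Q} → Option κ) :
    (∑ n ∈ range (pr Q), (if pat Q ρ n = θ then (1 : ℝ) else 0)) / (pr Q : ℕ) =
      ∏ l : {l // l ∈ Q}, law (Fintype.card κ) (1 / ((l : ℕ) : ℝ)) (θ l) := by
  classical
  let G : ℕ → ℕ → ℝ := fun l n => if hl : l ∈ Q then
    (if pat Q ρ n ⟨l, hl⟩ = θ ⟨l, hl⟩ then 1 else 0) else 1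
  have hG : ∀ (l : {l // l ∈ Q}) (n : ℕ), G l n = if pat Q ρ n l = θ l then 1 else 0 := by
    intro l n
    change (if hl : (l : ℕ) ∈ Q then
      (if pat Q ρ n ⟨l, hl⟩ = θ ⟨l, hl⟩ then (1 : ℝ) else 0) else 1) = _
    rw [dif_pos l.2]
  have hGp : ∀ l ∈ Q, ∀ c, G l (c + l) = G l c := by
    intro l hl c
    have h1 := hG ⟨l, hl⟩ (c + l)
    have h2 := hG ⟨l, hl⟩ c
    have h3 : pat Q ρ (c + l) ⟨l, hl⟩ = pat Q ρ c ⟨l, hl⟩ := pat_per c ⟨l, hl⟩
    rw [h3] at h1
    exact h1.trans h2.symm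
  have hprod : ∀ n, (if pat Q ρ n = θ then (1 : ℝ) else 0) = ∏ l ∈ Q, G l n := by
    intro n
    rw [← Finset.prod_coe_sort Q (fun l => G l n)]
    by_cases h : pat Q ρ n = θ
    · rw [if_pos h]
      symm
      refine Finset.prod_eq_one fun l _ => ?_
      rw [hG l n, h, if_pos rfl]
    · rw [if_neg h]
      symm
      obtain ⟨l, hl⟩ := Function.ne_iff.1 h
      refine Finset.prod_eq_zero (mem_univ l) ?_
      rw [hG l n, if_neg hl]
  have hfull := Avg.full_sum (P := Q) (F := G) (b := 0) (W := 1)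
    (fun l hl => ⟨hH.prime l hl, fun h => (hH.prime l hl).one_lt.ne' (Nat.dvd_one.1 h)⟩) hGp
  have h1 : ∑ n ∈ range (pr Q), (if pat Q ρ n = θ then (1 : ℝ) else 0) =
      ∏ l ∈ Q, ∑ y ∈ range l, G l y := by
    rw [← hfull]
    refine Finset.sum_congr rfl fun n _ => ?_
    rw [hprod n]
    refine Finset.prod_congr rfl fun l _ => ?_
    rw [zero_add, one_mul]
  have h2 : ((pr Q : ℕ) : ℝ) = ∏ l ∈ Q, (l : ℝ) := by
    unfold pr
    push_cast
    rfl
  rw [h1, h2, ← Finset.prod_div_distrib,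
    ← Finset.prod_coe_sort Q (fun l => (∑ y ∈ range l, G l y) / (l : ℝ))]
  refine Finset.prod_congr rfl fun l _ => ?_
  rw [← loc hH l (θ l)]
  congr 1
  exact Finset.sum_congr rfl fun y _ => hG l y

end CRTAux

open CRTAux in
/-- CRT -/
theorem t_CRT : S_CRT := by
  intro Q κ _ _ ρ hH
  refine ⟨fun n l k => pat_some hH n l k, fun n l => pat_none n l, pat_surj hH, fun h => ?_⟩
  classical
  unfold mean ew
  have h1 : ∀ n, h (pat Q ρ n) = ∑ θ, h θ * (if pat Q ρ n = θ then (1 : ℝ) else 0) := by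
    intro n
    simp
  rw [Finset.sum_congr rfl (fun n _ => h1 n), Finset.sum_comm, Finset.sum_div]
  refine Finset.sum_congr rfl fun θ _ => ?_
  rw [← Finset.mul_sum, mul_div_assoc, cnt_pat hH θ]

end

end Pool.Agent.CRE
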