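import Pool.Agent.CRE.Stmts

/-!
# CRE: the coefficients of a nonnegative function (MP_e1dc24_nt, module DDB, helper67)
-/

set_option autoImplicit false

namespace Pool.Agent.CRE

open Finset Pool.Agent.Lib_helper9.LG Pool.Agent.IPP

noncomputable section

namespace DDBAux

variable {ι κ : Type} [Fintype ι] [DecidableEq ι] [Fintype κ] [DecidableEq κ]

lemma law_nonneg {K p : ℝ} (hp : 0 < p) (hK : K * p ≤ 1 / 2) (o : Option κ) : 0 ≤ law K p o := by
  cases o with
  | none => simp only [law]; linarith
  | some k => simp only [law]; exact hp.le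

/-- one coordinate outside the support -/
lemma abs_none {K p : ℝ} (hp : 0 < p) (hK : K * p ≤ 1 / 2) (o : Option κ) :
    |dco K p (none : Option κ) o| = law K p o := by
  simp only [dco]
  exact abs_of_nonneg (law_nonneg hp hK o)

/-- one coordinate in the support -/
lemma abs_some {K p : ℝ} (hp : 0 < p) (hK : K * p ≤ 1 / 2) (k : κ) (o : Option κ) :
    |dco K p (some k) o| ≤ ((if o = some k then 1 / p else 0) + 2) * law K p o := by
  cases o with
  | none =>
    simp only [dco, law, abs_neg, abs_one, reduceCtorEq, if_false]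
    linarith
  | some j =>
    simp only [dco, law]
    by_cases h : k = j
    · subst h
      rw [if_pos rfl, if_pos rfl, abs_one]
      have h1 : 1 / p * p = 1 := by field_simp
      have h2 : (1 / p + 2) * p = 1 + 2 * p := by rw [add_mul, h1]
      rw [h2]
      linarith
    · have h' : ¬ (some j = some k) := fun h2 => h (Option.some.inj h2).symm
      rw [if_neg h, if_neg h', abs_zero]
      positivity

/-- the restriction of `η` to `T` -/
def res (η : ι → Option κ) (T : Finset ι) : ι → Option κ := fun i => if i ∈ T then η i else none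

lemma spp_res {η : ι → Option κ} {T : Finset ι} (hT : T ⊆ spp η) : spp (res η T) = T := by
  ext i
  have h1 : i ∈ spp (res η T) ↔ res η T i ≠ none := by
    unfold spp
    simp
  rw [h1]
  unfold res
  constructor
  · intro h
    by_contra h2
    rw [if_neg h2] at h
    exact h rfl
  · intro h
    rw [if_pos h]
    have h3 := hT h
    unfold spp at h3
    simpa using h3

lemma rs_res {η : ι → Option κ} {T : Finset ι} (hT : T ⊆ spp η) (f : (ι → Option κ) → ℝ)
    (θ : ι → Option κ) :
    rs (res η T) f θ = f θ * ∏ i ∈ T, (if θ i = η i then (1 : ℝ) else 0) := by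
  have hiff : (∀ i, res η T i ≠ none → θ i = res η T i) ↔ ∀ i ∈ T, θ i = η i := by
    constructor
    · intro h i hi
      have h1 : res η T i = η i := by
        unfold res
        rw [if_pos hi]
      have h2 : i ∈ spp (res η T) := by
        rw [spp_res hT]
        exact hi
      have h3 : res η T i ≠ none := by
        unfold spp at h2
        simpa using h2
      rw [← h1]
      exact h i h3
    · intro h i hi
      by_cases h2 : i ∈ T
      · unfold res
        rw [if_pos h2]
        exact h i h2
      · exfalso
        apply hi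
        unfold res
        rw [if_neg h2]
  unfold rs
  rw [Finset.prod_ite_zero]
  by_cases h : ∀ i ∈ T, θ i = η i
  · rw [if_pos (hiff.mpr h), if_pos h]
    simp
  · rw [if_neg (fun h2 => h (hiff.mp h2)), if_neg h]
    simp

end DDBAux

open DDBAux

theorem t_DDB : S_DDB := by
  intro ι κ _ _ _ _ p f M C hp hK hf hM hC hη η
  set K : ℝ := (Fintype.card κ : ℝ) with hKd
  have hlaw : ∀ (i : ι) (o : Option κ), 0 ≤ law K (p i) o := fun i o => law_nonneg (hp i) (hK i) o
  -- one pattern
  have h1 : ∀ θ : ι → Option κ, |∏ i, dco K (p i) (η i) (θ i)| ≤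
      (∏ i ∈ spp η, ((if θ i = η i then 1 / p i else 0) + 2)) * ∏ i, law K (p i) (θ i) := by
    intro θ
    rw [Finset.abs_prod]
    have h2 : (∏ i ∈ spp η, ((if θ i = η i then 1 / p i else 0) + 2 : ℝ)) =
        ∏ i, (if i ∈ spp η then ((if θ i = η i then 1 / p i else 0) + 2 : ℝ) else 1) := by
      rw [Finset.prod_ite_mem, Finset.univ_inter]
    rw [h2, ← Finset.prod_mul_distrib]
    refine Finset.prod_le_prod (fun i _ => abs_nonneg _) fun i _ => ?_
    by_cases hi : i ∈ spp η
    · rw [if_pos hi]
      have h3 : η i ≠ none := by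
        unfold spp at hi
        simpa using hi
      obtain ⟨k, hk⟩ := Option.ne_none_iff_exists'.mp h3
      rw [hk]
      exact abs_some (hp i) (hK i) k (θ i)
    · rw [if_neg hi, one_mul]
      have h3 : η i = none := by
        by_contra h4
        apply hi
        unfold spp
        simpa using h4
      rw [h3]
      exact (abs_none (hp i) (hK i) (θ i)).le
  -- the expansion of the product
  have h2 : ∀ θ : ι → Option κ,
      (∏ i ∈ spp η, ((if θ i = η i then 1 / p i else 0) + 2 : ℝ)) =
      ∑ T ∈ (spp η).powerset, ((∏ i ∈ T, 1 / p i) * 2 ^ (spp η \ T).card) *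
        ∏ i ∈ T, (if θ i = η i then (1 : ℝ) else 0) := by
    intro θ
    rw [Finset.prod_add]
    refine Finset.sum_congr rfl fun T _ => ?_
    rw [Finset.prod_const]
    have h3 : (∏ i ∈ T, (if θ i = η i then 1 / p i else 0 : ℝ)) =
        (∏ i ∈ T, 1 / p i) * ∏ i ∈ T, (if θ i = η i then (1 : ℝ) else 0) := by
      rw [← Finset.prod_mul_distrib]
      refine Finset.prod_congr rfl fun i _ => ?_
      split_ifs <;> simp
    rw [h3]
    ring
  calc |cf p f η| ≤ ∑ θ, f θ * |∏ i, dco K (p i) (η i) (θ i)| := by
        unfold cf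
        refine (Finset.abs_sum_le_sum_abs _ _).trans (Finset.sum_le_sum fun θ _ => ?_)
        rw [abs_mul, abs_of_nonneg (hf θ)]
    _ ≤ ∑ θ, f θ * ((∏ i ∈ spp η, ((if θ i = η i then 1 / p i else 0) + 2)) *
          ∏ i, law K (p i) (θ i)) :=
        Finset.sum_le_sum fun θ _ => mul_le_mul_of_nonneg_left (h1 θ) (hf θ)
    _ = ∑ T ∈ (spp η).powerset, ((∏ i ∈ T, 1 / p i) * 2 ^ (spp η \ T).card) *
          ew p (rs (res η T) f) := by
        have h4 : ∀ T ∈ (spp η).powerset, ((∏ i ∈ T, 1 / p i) * 2 ^ (spp η \ T).card) *
            ew p (rs (res η T) f) = ∑ θ, ((∏ i ∈ T, 1 / p i) * 2 ^ (spp η \ T).card) *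
              ((f θ * ∏ i ∈ T, (if θ i = η i then (1 : ℝ) else 0)) *
                ∏ i, law K (p i) (θ i)) := by
          intro T hT
          unfold ew
          rw [Finset.mul_sum]
          refine Finset.sum_congr rfl fun θ _ => ?_
          rw [rs_res (Finset.mem_powerset.mp hT)]
        rw [Finset.sum_congr rfl h4, Finset.sum_comm]
        refine Finset.sum_congr rfl fun θ _ => ?_
        rw [h2 θ, Finset.sum_mul, Finset.mul_sum]
        refine Finset.sum_congr rfl fun T _ => ?_
        ring
    _ ≤ ∑ T ∈ (spp η).powerset, M * (C ^ T.card * 2 ^ (spp η \ T).card) := by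
        refine Finset.sum_le_sum fun T hT => ?_
        have h5 := hη (res η T)
        rw [spp_res (Finset.mem_powerset.mp hT)] at h5
        have h6 : 0 ≤ (∏ i ∈ T, 1 / p i) * (2 : ℝ) ^ (spp η \ T).card := by
          refine mul_nonneg (Finset.prod_nonneg fun i _ => ?_) (by positivity)
          exact one_div_nonneg.mpr (hp i).le
        refine (mul_le_mul_of_nonneg_left h5 h6).trans (le_of_eq ?_)
        have h7 : (∏ i ∈ T, 1 / p i) * ∏ i ∈ T, (C * p i) = C ^ T.card := by
          rw [← Finset.prod_mul_distrib, ← Finset.prod_const]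
          refine Finset.prod_congr rfl fun i _ => ?_
          have := (hp i).ne'
          field_simp
        linear_combination M * (2 : ℝ) ^ (spp η \ T).card * h7
    _ = M * (C + 2) ^ (spp η).card := by
        rw [← Finset.mul_sum]
        congr 1
        rw [← Finset.prod_const (C + 2), Finset.prod_add]
        refine Finset.sum_congr rfl fun T _ => ?_
        rw [Finset.prod_const, Finset.prod_const]

end

end Pool.Agent.CRE
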