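import Pool.Agent.CRE.Stmts

set_option autoImplicit false

/-!
# CRE, module EXN: the expansion
-/

namespace Pool.Agent.CRE

open Finset Pool.Agent.Lib_helper9.LG Pool.Agent.IPP

noncomputable section

namespace EXN

variable {ι κ : Type} [Fintype ι] [DecidableEq ι] [Fintype κ] [DecidableEq κ]

/-- the local identity -/
lemma local_id (p : ℝ) (o θ : Option κ) :
    ∑ x : Option κ, dco (Fintype.card κ) p x θ * bas p x o = if o = θ then 1 else 0 := by
  rw [Fintype.sum_option]
  cases θ with
  | none =>
    have h1 : ∀ k : κ, dco (Fintype.card κ : ℝ) p (some k) none * bas p (some k) o =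
        p - (if o = some k then 1 else 0) := by
      intro k
      simp only [dco, bas]
      ring
    rw [Finset.sum_congr rfl fun k _ => h1 k, Finset.sum_sub_distrib]
    simp only [dco, law, bas, mul_one, Finset.sum_const, Finset.card_univ, nsmul_eq_mul]
    cases o with
    | none => simp
    | some j =>
      simp only [Option.some.injEq, reduceCtorEq, if_false]
      rw [Finset.sum_ite_eq]
      simp
  | some j =>
    have h1 : ∀ k : κ, dco (Fintype.card κ : ℝ) p (some k) (some j) * bas p (some k) o =
        if k = j then ((if o = some j then 1 else 0) - p) else 0 := by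
      intro k
      simp only [dco, bas]
      by_cases h : k = j
      · subst h
        simp
      · simp [h]
    rw [Finset.sum_congr rfl fun k _ => h1 k, Finset.sum_ite_eq']
    simp [dco, law, bas]

/-- the sum of a local coefficient function -/
lemma dco_sum (K p : ℝ) (k : κ) : ∑ o : Option κ, dco K p (some k) o = 0 := by
  rw [Fintype.sum_option]
  simp only [dco]
  rw [Finset.sum_ite_eq]
  simp

lemma expand (p : ι → ℝ) (f : (ι → Option κ) → ℝ) (ω : ι → Option κ) :
    f ω = ∑ η, cf p f η * ∏ i, bas (p i) (η i) (ω i) := by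
  have h1 : ∀ θ : ι → Option κ,
      ∑ η : ι → Option κ, ∏ i, (dco (Fintype.card κ) (p i) (η i) (θ i) * bas (p i) (η i) (ω i)) =
        if ω = θ then 1 else 0 := by
    intro θ
    have h2 := Finset.prod_univ_sum (fun _ : ι => (univ : Finset (Option κ)))
      (fun i x => dco (Fintype.card κ) (p i) x (θ i) * bas (p i) x (ω i))
    rw [Fintype.piFinset_univ] at h2
    rw [← h2, Finset.prod_congr rfl fun i _ => local_id (p i) (ω i) (θ i),
      Finset.prod_ite_zero]
    simp only [mem_univ, true_implies, prod_const_one]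
    congr 1
    exact propext funext_iff.symm
  have h3 : ∑ η, cf p f η * ∏ i, bas (p i) (η i) (ω i) =
      ∑ θ, f θ * ∑ η : ι → Option κ,
        ∏ i, (dco (Fintype.card κ) (p i) (η i) (θ i) * bas (p i) (η i) (ω i)) := by
    unfold cf
    simp only [Finset.sum_mul, Finset.mul_sum]
    rw [Finset.sum_comm]
    refine Finset.sum_congr rfl fun θ _ => Finset.sum_congr rfl fun η _ => ?_
    rw [Finset.prod_mul_distrib, mul_assoc]
  rw [h3]
  simp only [h1]
  simp

lemma vanish (p : ι → ℝ) (f : (ι → Option κ) → ℝ) (E : Finset ι)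
    (hf : ∀ θ θ' : ι → Option κ, (∀ i ∈ E, θ i = θ' i) → f θ = f θ') (η : ι → Option κ)
    (i : ι) (hi : i ∉ E) (k : κ) (hk : η i = some k) : cf p f η = 0 := by
  unfold cf
  rw [← (Equiv.funSplitAt i (Option κ)).symm.sum_comp, Fintype.sum_prod_type_right]
  refine Finset.sum_eq_zero fun y _ => ?_
  have hx : ∀ (o : Option κ) (j : ι), j ≠ i →
      (Equiv.funSplitAt i (Option κ)).symm (o, y) j =
        (Equiv.funSplitAt i (Option κ)).symm (none, y) j := by
    intro o j hj
    simp [hj]
  have hxi : ∀ o : Option κ, (Equiv.funSplitAt i (Option κ)).symm (o, y) i = o := by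
    intro o
    simp
  have h1 : ∀ o : Option κ,
      f ((Equiv.funSplitAt i (Option κ)).symm (o, y)) *
        ∏ j, dco (Fintype.card κ) (p j) (η j) ((Equiv.funSplitAt i (Option κ)).symm (o, y) j) =
      (f ((Equiv.funSplitAt i (Option κ)).symm (none, y)) * ∏ j ∈ univ.erase i,
        dco (Fintype.card κ) (p j) (η j) ((Equiv.funSplitAt i (Option κ)).symm (none, y) j)) *
        dco (Fintype.card κ) (p i) (some k) o := by
    intro o
    have h2 : f ((Equiv.funSplitAt i (Option κ)).symm (o, y)) =
        f ((Equiv.funSplitAt i (Option κ)).symm (none, y)) :=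
      hf _ _ fun j hj => hx o j fun h => hi (h ▸ hj)
    rw [h2, ← Finset.mul_prod_erase univ _ (mem_univ i), hxi, hk]
    have h3 : ∏ j ∈ univ.erase i, dco (Fintype.card κ) (p j) (η j)
        ((Equiv.funSplitAt i (Option κ)).symm (o, y) j) = ∏ j ∈ univ.erase i,
        dco (Fintype.card κ) (p j) (η j) ((Equiv.funSplitAt i (Option κ)).symm (none, y) j) :=
      Finset.prod_congr rfl fun j hj => by rw [hx o j (Finset.ne_of_mem_erase hj)]
    rw [h3]
    ring
  rw [Finset.sum_congr rfl fun o _ => h1 o, ← Finset.mul_sum, dco_sum, mul_zero]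

end EXN

theorem t_EXN : S_EXN := by
  intro ι κ _ _ _ _ p f
  refine ⟨fun ω => EXN.expand p f ω, rfl, fun E hE η hη => ?_, fun g η => ?_⟩
  · rw [Finset.not_subset] at hη
    obtain ⟨i, hi, hiE⟩ := hη
    have hi' : η i ≠ none := by
      simpa [spp] using hi
    obtain ⟨k, hk⟩ := Option.ne_none_iff_exists'.1 hi'
    exact EXN.vanish p f E hE η i hiE k hk
  · unfold cf
    rw [← Finset.sum_add_distrib]
    exact Finset.sum_congr rfl fun θ _ => by rw [add_mul]

end

end Pool.Agent.CRE
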