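import Pool.Agent.CRE.Stmts
import Pool.Agent.IPP.FAC

set_option autoImplicit false

/-!
# CRE, module FCY: the function `Gy` depends only on the hits
-/

namespace Pool.Agent.CRE

open Finset Pool.Agent.Lib_helper9.LG Pool.Agent.IPP

open Pool.Agent.IPP.FACx in
theorem t_FCY : S_FCY := by
  intro P b N m k₁ Q' S D y hD hQ hS hk₁
  refine ⟨(fac P b N m k₁ Q' S 0 0 0 hQ hS hk₁).1, ?_⟩
  intro n n' h
  have hpr1 : 1 ≤ pr (SS P N ∪ Q') := by
    unfold pr
    exact Finset.prod_pos fun l hl => (hQ l hl).1.pos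
  have hiff : ∀ l ∈ SS P N ∪ Q', ∀ k ∈ S,
      (l ∣ (n + k₁ * m * (pr (SS P N ∪ Q') - 1)) + k * m ↔
        l ∣ (n' + k₁ * m * (pr (SS P N ∪ Q') - 1)) + k * m) := by
    intro l hl k hk
    have hlp : l ∣ pr (SS P N ∪ Q') := Finset.dvd_prod_of_mem _ hl
    rw [dvd_iff (hQ l hl).1.pos hlp hpr1, dvd_iff (hQ l hl).1.pos hlp hpr1]
    exact h l hl ⟨k, hk⟩
  show Gy P b N m Q' S D y _ = Gy P b N m Q' S D y _
  unfold Gy
  refine Finset.sum_congr rfl fun α _ => ?_
  congr 1
  congr 1
  · unfold Lm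
    refine Finset.prod_congr rfl fun j hj => ?_
    congr 1
    unfold om
    congr 1
    refine Finset.filter_congr fun l hl => ?_
    have hlS : l ∈ SS P N ∪ Q' := by
      refine Finset.mem_union_left _ ?_
      unfold SS
      exact Finset.mem_biUnion.2 ⟨j, hj, hl⟩
    refine exists_congr fun k => and_congr_right fun hk => ?_
    rcases Finset.mem_union.1 hk with hk1 | hk1
    · obtain ⟨k0, -, rfl⟩ := Finset.mem_map.1 hk1
      exact hiff l hlS _ k0.2
    · exact hiff l hlS k (hD hk1)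
  · unfold vl
    refine Finset.prod_congr rfl fun i _ => ?_
    cases α i with
    | none => rfl
    | some k =>
      simp only [Option.elim]
      unfold xx
      have := hiff i (Finset.mem_union_right _ i.2) k k.2
      by_cases hd : (i : ℕ) ∣ (n + k₁ * m * (pr (SS P N ∪ Q') - 1)) + k * m
      · rw [if_pos hd, if_pos (this.1 hd)]
      · rw [if_neg hd, if_neg (fun h => hd (this.2 h))]

end Pool.Agent.CRE
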