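import Pool.Agent.CRE.Stmts

set_option autoImplicit false
set_option linter.unusedSectionVars false

/-!
# LCQ: the sum over the pairs of configurations
-/

namespace Pool.Agent.CRE

open Finset Pool.Agent.Lib_helper9.LG Pool.Agent.IPP

namespace LCQ

section local_

variable {κ : Type} [Fintype κ] [DecidableEq κ]

lemma cc_nonneg {q : ℝ} (hq : 0 < q) (k : κ) (o : Option κ) : 0 ≤ cc q k o := by
  cases o with
  | none => simp [cc]
  | some j =>
    simp only [cc]
    split_ifs
    · exact zero_le_one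
    · positivity

lemma sum_cc {q : ℝ} (hq : 0 < q) (h : (Fintype.card κ : ℝ) - 1 ≤ q) (k : κ) :
    ∑ o, cc q k o ≤ 3 := by
  rw [Fintype.sum_option]
  have h1 : ∑ j : κ, cc q k (some j) = ∑ j : κ, (1 / q + if j = k then 1 - 1 / q else 0) := by
    apply Finset.sum_congr rfl
    intro j _
    simp only [cc]
    split_ifs <;> ring
  rw [h1, Finset.sum_add_distrib, Finset.sum_const, Finset.sum_ite_eq']
  simp only [cc, Finset.mem_univ, if_true, nsmul_eq_mul, Finset.card_univ]
  have h2 : (1 : ℝ) + ((Fintype.card κ : ℝ) * (1 / q) + (1 - 1 / q)) =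
      2 + ((Fintype.card κ : ℝ) - 1) / q := by ring
  have h3 : ((Fintype.card κ : ℝ) - 1) / q ≤ 1 := (div_le_one hq).2 h
  linarith

lemma sum_cc_nonneg {q : ℝ} (hq : 0 < q) (k : κ) : 0 ≤ ∑ o, cc q k o :=
  Finset.sum_nonneg fun o _ => cc_nonneg hq k o

omit [Fintype κ] in
lemma gl_symm (q : ℝ) (a b : Option κ) : gl q a b = gl q b a := by
  cases a with
  | none => cases b <;> rfl
  | some i =>
    cases b with
    | none => rfl
    | some j =>
      simp only [gl]
      by_cases h : i = j
      · simp [h]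
      · simp [h, Ne.symm h]

end local_

section glob

variable {ι κ : Type} [Fintype ι] [DecidableEq ι] [Fintype κ] [DecidableEq κ]

/-- forget the values on `E` -/
def res (E : Finset ι) (α : ι → Option κ) : ι → Option κ := fun i => if i ∈ E then none else α i

/-- the factor of a pair -/
noncomputable def gg (q : ι → ℝ) (E : Finset ι) (k : ι → κ) (α β : ι → Option κ) : ℝ :=
  (∏ i ∈ E, cc (q i) (k i) (α i) * cc (q i) (k i) (β i)) * ∏ i ∈ Eᶜ, |gl (q i) (α i) (β i)|

lemma gg_nonneg {q : ι → ℝ} (hq : ∀ i, 0 < q i) (E : Finset ι) (k : ι → κ)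
    (α β : ι → Option κ) : 0 ≤ gg q E k α β := by
  unfold gg
  apply mul_nonneg
  · exact Finset.prod_nonneg fun i _ => mul_nonneg (cc_nonneg (hq i) _ _) (cc_nonneg (hq i) _ _)
  · exact Finset.prod_nonneg fun i _ => abs_nonneg _

omit [Fintype κ] in
lemma gg_symm (q : ι → ℝ) (E : Finset ι) (k : ι → κ) (α β : ι → Option κ) :
    gg q E k α β = gg q E k β α := by
  unfold gg
  congr 1
  · exact Finset.prod_congr rfl fun i _ => mul_comm _ _
  · exact Finset.prod_congr rfl fun i _ => by rw [gl_symm]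

lemma prod_split (E : Finset ι) (f g : ι → ℝ) :
    ∏ i, (if i ∈ E then f i else g i) = (∏ i ∈ E, f i) * ∏ i ∈ Eᶜ, g i := by
  rw [← Finset.prod_mul_prod_compl E]
  congr 1
  · exact Finset.prod_congr rfl fun i hi => by rw [if_pos hi]
  · exact Finset.prod_congr rfl fun i hi => by rw [if_neg (Finset.mem_compl.1 hi)]

lemma sum_prod (h : ι → Option κ → ℝ) :
    ∑ β : ι → Option κ, ∏ i, h i (β i) = ∏ i, ∑ o, h i o := by
  rw [Finset.prod_univ_sum]
  simp

lemma sum_gg (q : ι → ℝ) (E : Finset ι) (k : ι → κ) (α : ι → Option κ) :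
    ∑ β, gg q E k α β = (∏ i ∈ E, cc (q i) (k i) (α i) * ∑ o, cc (q i) (k i) o) *
      ∏ i ∈ Eᶜ, ∑ o, |gl (q i) (α i) o| := by
  have h1 : ∀ β : ι → Option κ, gg q E k α β =
      ∏ i, (if i ∈ E then cc (q i) (k i) (α i) * cc (q i) (k i) (β i) else
        |gl (q i) (α i) (β i)|) := by
    intro β
    rw [prod_split]
    rfl
  simp only [h1]
  rw [sum_prod (fun i o => if i ∈ E then cc (q i) (k i) (α i) * cc (q i) (k i) o else
        |gl (q i) (α i) o|)]
  rw [← prod_split]
  apply Finset.prod_congr rfl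
  intro i _
  split_ifs
  · rw [← Finset.mul_sum]
  · rfl

lemma spp_res (E : Finset ι) (α : ι → Option κ) : spp (res E α) = spp α \ E := by
  ext i
  simp only [spp, res, Finset.mem_filter, Finset.mem_univ, true_and, Finset.mem_sdiff]
  by_cases h : i ∈ E
  · simp [h]
  · simp [h]

lemma act_res (E : Finset ι) (α : ι → Option κ) : act (res E α) ⊆ act α := by
  intro k hk
  rw [mem_act] at hk ⊢
  obtain ⟨i, hi⟩ := Finset.nonempty_iff_ne_empty.2 hk
  apply Finset.nonempty_iff_ne_empty.1
  refine ⟨i, ?_⟩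
  simp only [Pool.Agent.Lib_helper9.LG.blk, res, Finset.mem_filter, Finset.mem_univ, true_and] at hi ⊢
  by_cases h : i ∈ E
  · simp [h] at hi
  · simpa [h] using hi

/-- the product over the complement -/
lemma prod_compl {q : ι → ℝ} (hq : ∀ i, 0 < q i) (hK : 1 ≤ Fintype.card κ) (E : Finset ι)
    (α : ι → Option κ)
    (h2 : ∏ i ∈ spp α, (1 + ((Fintype.card κ : ℝ) - 1) / q i) ≤ 2) :
    ∏ i ∈ Eᶜ, ∑ o : Option κ, |gl (q i) (α i) o| ≤ 2 / ph q (spp (res E α)) := by
  have hK' : (0 : ℝ) ≤ (Fintype.card κ : ℝ) - 1 := by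
    have : (1 : ℝ) ≤ (Fintype.card κ : ℝ) := by exact_mod_cast hK
    linarith
  have hf : ∀ i, 1 ≤ 1 + ((Fintype.card κ : ℝ) - 1) / q i := fun i => by
    have := div_nonneg hK' (hq i).le
    linarith
  have h1 : ∏ i ∈ Eᶜ, ∑ o : Option κ, |gl (q i) (α i) o| =
      ∏ i ∈ spp (res E α), ((1 / q i) * (1 + ((Fintype.card κ : ℝ) - 1) / q i)) := by
    rw [spp_res]
    have h3 : spp α \ E = Eᶜ.filter (fun i => α i ≠ none) := by
      ext i
      simp only [spp, Finset.mem_sdiff, Finset.mem_filter, Finset.mem_univ, true_and,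
        Finset.mem_compl]
      tauto
    rw [h3, Finset.prod_filter]
    apply Finset.prod_congr rfl
    intro i _
    cases h : α i with
    | none =>
      rw [if_neg (by simp)]
      exact sum_abs_gl_none (q i)
    | some k =>
      rw [if_pos (by simp)]
      exact sum_abs_gl_some (hq i) k
  rw [h1, Finset.prod_mul_distrib]
  have h4 : ∏ i ∈ spp (res E α), (1 / q i) = 1 / ph q (spp (res E α)) := by
    simp only [ph, one_div, Finset.prod_inv_distrib]
  have h5 : ∏ i ∈ spp (res E α), (1 + ((Fintype.card κ : ℝ) - 1) / q i) ≤ 2 := by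
    refine le_trans ?_ h2
    refine Finset.prod_le_prod_of_subset_of_one_le (by rw [spp_res]; exact Finset.sdiff_subset)
      (fun i _ => zero_le_one.trans (hf i)) (fun i _ _ => hf i)
  have h6 : 0 < ph q (spp (res E α)) := Finset.prod_pos fun i _ => hq i
  rw [h4]
  calc 1 / ph q (spp (res E α)) * ∏ i ∈ spp (res E α), (1 + ((Fintype.card κ : ℝ) - 1) / q i)
      ≤ 1 / ph q (spp (res E α)) * 2 := mul_le_mul_of_nonneg_left h5 (by positivity)
    _ = _ := by ring

/-- the fibres of `res` -/
lemma fibre {q : ι → ℝ} (hq : ∀ i, 0 < q i) (hK : ∀ i, (Fintype.card κ : ℝ) - 1 ≤ q i)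
    (E : Finset ι) (k : ι → κ) (β : ι → Option κ) :
    ∑ α ∈ univ.filter (fun α => res E α = β), ∏ i ∈ E, cc (q i) (k i) (α i) ≤ 3 ^ E.card := by
  classical
  have h0 : ∀ α : ι → Option κ, 0 ≤ ∏ i, (if i ∈ E then cc (q i) (k i) (α i) else
      if α i = β i then (1 : ℝ) else 0) := by
    intro α
    apply Finset.prod_nonneg
    intro i _
    split_ifs
    · exact cc_nonneg (hq i) _ _
    · exact zero_le_one
    · exact le_rfl
  calc ∑ α ∈ univ.filter (fun α => res E α = β), ∏ i ∈ E, cc (q i) (k i) (α i)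
      = ∑ α ∈ univ.filter (fun α => res E α = β), ∏ i, (if i ∈ E then cc (q i) (k i) (α i) else
      if α i = β i then (1 : ℝ) else 0) := by
        apply Finset.sum_congr rfl
        intro α hα
        rw [Finset.mem_filter] at hα
        rw [prod_split]
        have : ∏ i ∈ Eᶜ, (if α i = β i then (1 : ℝ) else 0) = 1 := by
          apply Finset.prod_eq_one
          intro i hi
          rw [if_pos]
          rw [← hα.2, res, if_neg (Finset.mem_compl.1 hi)]
        rw [this, mul_one]
    _ ≤ ∑ α : ι → Option κ, ∏ i, (if i ∈ E then cc (q i) (k i) (α i) else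
      if α i = β i then (1 : ℝ) else 0) :=
        Finset.sum_le_sum_of_subset_of_nonneg (Finset.filter_subset _ _) fun α _ _ => h0 α
    _ = ∏ i, ∑ o, (if i ∈ E then cc (q i) (k i) o else if o = β i then (1 : ℝ) else 0) :=
        sum_prod (fun i o => if i ∈ E then cc (q i) (k i) o else
          if o = β i then (1 : ℝ) else 0)
    _ = ∏ i, (if i ∈ E then ∑ o, cc (q i) (k i) o else 1) := by
        apply Finset.prod_congr rfl
        intro i _
        by_cases h : i ∈ E
        · simp [h]
        · simp [h]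
    _ = ∏ i ∈ E, ∑ o, cc (q i) (k i) o := by
        rw [prod_split]
        simp
    _ ≤ ∏ i ∈ E, (3 : ℝ) := Finset.prod_le_prod (fun i _ => sum_cc_nonneg (hq i) _)
        fun i _ => sum_cc (hq i) (hK i) _
    _ = 3 ^ E.card := by simp

end glob

end LCQ

open LCQ in
theorem t_LCQ : S_LCQ := by
  intro ι κ _ _ _ _ q E k y v w hq hK hKq hv hvm hw hmono h2
  classical
  set F : (ι → Option κ) → ℝ := fun α => y α ^ 2 * v (act α) with hF
  have hF0 : ∀ α, 0 ≤ F α := fun α => mul_nonneg (sq_nonneg _) (hv _)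
  have hKq' : ∀ i, (Fintype.card κ : ℝ) - 1 ≤ q i := hKq
  -- step 1
  have s1 : ∑ α, ∑ β, |y α| * |y β| * w (act α) (act β) *
      ((∏ i ∈ E, cc (q i) (k i) (α i) * cc (q i) (k i) (β i)) *
        ∏ i ∈ Eᶜ, |gl (q i) (α i) (β i)|) ≤ ∑ α, F α * ∑ β, gg q E k α β := by
    have t1 : ∀ α β, |y α| * |y β| * w (act α) (act β) *
        ((∏ i ∈ E, cc (q i) (k i) (α i) * cc (q i) (k i) (β i)) *
        ∏ i ∈ Eᶜ, |gl (q i) (α i) (β i)|) ≤ (F α + F β) / 2 * gg q E k α β := by
      intro α β
      refine mul_le_mul_of_nonneg_right ?_ (gg_nonneg hq E k α β)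
      obtain ⟨w0, w1, w2⟩ := hw (act α) (act β)
      have e1 : |y α| * |y β| ≤ (y α ^ 2 + y β ^ 2) / 2 := by
        have := sq_nonneg (|y α| - |y β|)
        nlinarith [sq_abs (y α), sq_abs (y β)]
      calc |y α| * |y β| * w (act α) (act β) ≤ (y α ^ 2 + y β ^ 2) / 2 * w (act α) (act β) :=
            mul_le_mul_of_nonneg_right e1 w0
        _ = (y α ^ 2 * w (act α) (act β) + y β ^ 2 * w (act α) (act β)) / 2 := by ring
        _ ≤ (F α + F β) / 2 := by
            have a1 := mul_le_mul_of_nonneg_left w1 (sq_nonneg (y α))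
            have a2 := mul_le_mul_of_nonneg_left w2 (sq_nonneg (y β))
            simp only [hF]
            linarith
    calc _ ≤ ∑ α, ∑ β, (F α + F β) / 2 * gg q E k α β :=
          Finset.sum_le_sum fun α _ => Finset.sum_le_sum fun β _ => t1 α β
      _ = (∑ α, ∑ β, F α * gg q E k α β + ∑ α, ∑ β, F β * gg q E k α β) / 2 := by
          rw [← Finset.sum_add_distrib, Finset.sum_div]
          apply Finset.sum_congr rfl
          intro α _
          rw [← Finset.sum_add_distrib, Finset.sum_div]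
          apply Finset.sum_congr rfl
          intro β _
          ring
      _ = ∑ α, F α * ∑ β, gg q E k α β := by
          have e2 : ∑ α, ∑ β, F β * gg q E k α β = ∑ α, ∑ β, F α * gg q E k α β := by
            rw [Finset.sum_comm]
            apply Finset.sum_congr rfl
            intro α _
            apply Finset.sum_congr rfl
            intro β _
            rw [gg_symm]
          rw [e2]
          simp only [Finset.mul_sum]
          ring
  -- step 2
  have s2 : ∀ α, F α * ∑ β, gg q E k α β ≤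
      2 * 3 ^ E.card * (F (res E α) / ph q (spp (res E α)) * ∏ i ∈ E, cc (q i) (k i) (α i)) := by
    intro α
    have hph : 0 < ph q (spp (res E α)) := Finset.prod_pos fun i _ => hq i
    have hcc : 0 ≤ ∏ i ∈ E, cc (q i) (k i) (α i) :=
      Finset.prod_nonneg fun i _ => cc_nonneg (hq i) _ _
    by_cases hy : y α = 0
    · have : F α = 0 := by simp [hF, hy]
      rw [this, zero_mul]
      have := hF0 (res E α)
      positivity
    · rw [sum_gg]
      have a1 : ∏ i ∈ E, cc (q i) (k i) (α i) * ∑ o, cc (q i) (k i) o ≤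
          3 ^ E.card * ∏ i ∈ E, cc (q i) (k i) (α i) := by
        rw [Finset.prod_mul_distrib, mul_comm]
        apply mul_le_mul_of_nonneg_right _ hcc
        calc ∏ i ∈ E, ∑ o, cc (q i) (k i) o ≤ ∏ i ∈ E, (3 : ℝ) :=
              Finset.prod_le_prod (fun i _ => sum_cc_nonneg (hq i) _)
                fun i _ => sum_cc (hq i) (hKq i) _
          _ = 3 ^ E.card := by simp
      have a2 := prod_compl hq hK E α (h2 α hy)
      have a3 : F α ≤ F (res E α) := by
        simp only [hF]
        apply mul_le_mul _ (hvm _ _ (act_res E α)) (hv _) (sq_nonneg _)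
        rw [← sq_abs (y α), ← sq_abs (y (res E α))]
        apply pow_le_pow_left₀ (abs_nonneg _)
        apply hmono
        intro i
        by_cases h : i ∈ E
        · right; simp [res, h]
        · left; simp [res, h]
      have a4 : 0 ≤ ∏ i ∈ Eᶜ, ∑ o : Option κ, |gl (q i) (α i) o| :=
        Finset.prod_nonneg fun i _ => Finset.sum_nonneg fun o _ => abs_nonneg _
      calc F α * ((∏ i ∈ E, cc (q i) (k i) (α i) * ∑ o, cc (q i) (k i) o) *
            ∏ i ∈ Eᶜ, ∑ o, |gl (q i) (α i) o|)
          ≤ F (res E α) * ((3 ^ E.card * ∏ i ∈ E, cc (q i) (k i) (α i)) *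
            (2 / ph q (spp (res E α)))) := by
            apply mul_le_mul a3 _ _ (hF0 _)
            · exact mul_le_mul a1 a2 a4 (by positivity)
            · apply mul_nonneg _ a4
              exact Finset.prod_nonneg fun i _ =>
                mul_nonneg (cc_nonneg (hq i) _ _) (sum_cc_nonneg (hq i) _)
        _ = _ := by ring
  -- step 3
  have s3 : ∑ α, F (res E α) / ph q (spp (res E α)) * ∏ i ∈ E, cc (q i) (k i) (α i) ≤
      3 ^ E.card * ∑ β, F β / ph q (spp β) := by
    rw [← Finset.sum_fiberwise_of_maps_to (s := univ) (t := univ) (g := res E)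
      (fun _ _ => Finset.mem_univ _), Finset.mul_sum]
    apply Finset.sum_le_sum
    intro β _
    have b1 : ∑ α ∈ univ.filter (fun α => res E α = β),
        F (res E α) / ph q (spp (res E α)) * ∏ i ∈ E, cc (q i) (k i) (α i) =
        F β / ph q (spp β) * ∑ α ∈ univ.filter (fun α => res E α = β),
          ∏ i ∈ E, cc (q i) (k i) (α i) := by
      rw [Finset.mul_sum]
      apply Finset.sum_congr rfl
      intro α hα
      rw [(Finset.mem_filter.1 hα).2]
    rw [b1, mul_comm (3 ^ E.card : ℝ)]
    apply mul_le_mul_of_nonneg_left (fibre hq hKq' E k β)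
    exact div_nonneg (hF0 β) (Finset.prod_nonneg fun i _ => (hq i).le)
  calc _ ≤ ∑ α, F α * ∑ β, gg q E k α β := s1
    _ ≤ ∑ α, 2 * 3 ^ E.card *
        (F (res E α) / ph q (spp (res E α)) * ∏ i ∈ E, cc (q i) (k i) (α i)) :=
        Finset.sum_le_sum fun α _ => s2 α
    _ = 2 * 3 ^ E.card *
        ∑ α, F (res E α) / ph q (spp (res E α)) * ∏ i ∈ E, cc (q i) (k i) (α i) := by
        rw [Finset.mul_sum]
    _ ≤ 2 * 3 ^ E.card * (3 ^ E.card * ∑ β, F β / ph q (spp β)) :=
        mul_le_mul_of_nonneg_left s3 (by positivity)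
    _ = 2 * 9 ^ E.card * ∑ α, y α ^ 2 * v (act α) / ph q (spp α) := by
        have : (9 : ℝ) ^ E.card = 3 ^ E.card * 3 ^ E.card := by
          rw [← mul_pow]
          norm_num
        rw [this]
        simp only [hF]
        ring

end Pool.Agent.CRE
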