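import Pool.Agent.CRE.Stmts
import Pool.Agent.Lib_helper9.LG.Avg
import Pool.Agent.Lib_helper9.LG.NNd

set_option autoImplicit false

/-!
# CRE, module LCS: the sieve functions with forced hits
-/

namespace Pool.Agent.CRE

open Finset Pool.Agent.Lib_helper9.LG Pool.Agent.IPP

namespace LCSAux

noncomputable section

open Classical in
/-- `a` if `l` hits a site of `B`, else `b`. -/
def ht (m : ℕ) (B : Finset ℕ) (a b : ℝ) (l c : ℕ) : ℝ :=
  if ∃ x ∈ B, l ∣ c + x * m then a else b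

lemma ht_per (m : ℕ) (B : Finset ℕ) (a b : ℝ) (l c : ℕ) :
    ht m B a b l (c + l) = ht m B a b l c := by
  unfold ht
  have h : (∃ x ∈ B, l ∣ c + l + x * m) ↔ (∃ x ∈ B, l ∣ c + x * m) := by
    have h1 : ∀ x, (l ∣ c + l + x * m ↔ l ∣ c + x * m) := by
      intro x
      have h2 : c + l + x * m = l + (c + x * m) := by ring
      rw [h2]
      exact Nat.dvd_add_right (dvd_refl l)
    simp only [h1]
  simp only [h]

lemma ht_le (m : ℕ) (B : Finset ℕ) (a b M : ℝ) (ha : a ≤ M) (hb : b ≤ M) (l c : ℕ) :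
    ht m B a b l c ≤ M := by
  unfold ht
  split_ifs <;> assumption

lemma ht_nn (m : ℕ) (B : Finset ℕ) (a b : ℝ) (ha : 0 ≤ a) (hb : 0 ≤ b) (l c : ℕ) :
    0 ≤ ht m B a b l c := by
  unfold ht
  split_ifs <;> assumption

open Classical in
lemma count {l m : ℕ} (hl : l.Prime) (hm : ¬ l ∣ m) {B : Finset ℕ} (hB : ∀ x ∈ B, x < l) :
    ((range l).filter (fun y => ∃ x ∈ B, l ∣ y + x * m)).card = B.card := by
  have key : ∀ x : ℕ, (l - 1) * (x * m) + x * m = l * (x * m) := by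
    intro x
    obtain ⟨t, rfl⟩ : ∃ t, l = t + 1 := ⟨l - 1, by have := hl.pos; omega⟩
    rw [Nat.add_sub_cancel]
    ring
  have h : (range l).filter (fun y => ∃ x ∈ B, l ∣ y + x * m) =
      B.image (fun x => ((l - 1) * (x * m)) % l) := by
    ext y
    simp only [mem_filter, mem_range, mem_image]
    constructor
    · rintro ⟨hy, x, hx, hd⟩
      refine ⟨x, hx, ?_⟩
      have h1 : y + x * m ≡ (l - 1) * (x * m) + x * m [MOD l] := by
        rw [key x]
        exact (Nat.modEq_zero_iff_dvd.2 hd).trans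
          (Nat.modEq_zero_iff_dvd.2 (dvd_mul_right _ _)).symm
      have h3 : y ≡ (l - 1) * (x * m) [MOD l] := Nat.ModEq.add_right_cancel' _ h1
      have h4 : y % l = ((l - 1) * (x * m)) % l := h3
      rw [← h4, Nat.mod_eq_of_lt hy]
    · rintro ⟨x, hx, rfl⟩
      refine ⟨Nat.mod_lt _ hl.pos, x, hx, ?_⟩
      have h1 : (l - 1) * (x * m) % l + x * m ≡ (l - 1) * (x * m) + x * m [MOD l] :=
        Nat.ModEq.add_right _ (Nat.mod_modEq _ _)
      rw [key x] at h1
      exact Nat.modEq_zero_iff_dvd.1 (h1.trans (Nat.modEq_zero_iff_dvd.2 (dvd_mul_right _ _)))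
  rw [h, card_image_of_injOn]
  intro x hx x' hx' hxx
  have hx1 : x < l := hB x hx
  have hx2 : x' < l := hB x' hx'
  have h1 : (l - 1) * (x * m) ≡ (l - 1) * (x' * m) [MOD l] := hxx
  have h2 : (l - 1) * (x * m) + x * m ≡ (l - 1) * (x' * m) + x' * m [MOD l] := by
    rw [key x, key x']
    exact (Nat.modEq_zero_iff_dvd.2 (dvd_mul_right _ _)).trans
      (Nat.modEq_zero_iff_dvd.2 (dvd_mul_right _ _)).symm
  have h3 : x * m ≡ x' * m [MOD l] := Nat.ModEq.add_left_cancel h1 h2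
  have h4 : x ≡ x' [MOD l] := by
    refine Nat.ModEq.cancel_right_of_coprime ?_ h3
    have := (Nat.Prime.coprime_iff_not_dvd hl).2 hm
    exact this
  exact Nat.ModEq.eq_of_lt_of_lt h4 hx1 hx2

lemma ht_sum {l m : ℕ} (hl : l.Prime) (hm : ¬ l ∣ m) {B : Finset ℕ} (hB : ∀ x ∈ B, x < l)
    (a b : ℝ) : ∑ y ∈ range l, ht m B a b l y = B.card * a + ((l : ℝ) - B.card) * b := by
  classical
  unfold ht
  rw [sum_ite, sum_const, sum_const, nsmul_eq_mul, nsmul_eq_mul]
  have h1 := count hl hm hB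
  have h2 := card_filter_add_card_filter_not (s := range l) (fun y => ∃ x ∈ B, l ∣ y + x * m)
  rw [card_range] at h2
  have h3 : (((range l).filter (fun y => ∃ x ∈ B, l ∣ y + x * m)).card : ℝ) = B.card := by
    exact_mod_cast h1
  have h4 : (((range l).filter (fun y => ∃ x ∈ B, l ∣ y + x * m)).card : ℝ) +
      (((range l).filter (fun y => ¬ ∃ x ∈ B, l ∣ y + x * m)).card : ℝ) = l := by
    exact_mod_cast h2
  rw [h3] at h4
  rw [h3]
  have h5 : (((range l).filter (fun y => ¬ ∃ x ∈ B, l ∣ y + x * m)).card : ℝ) = l - B.card := by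
    linarith
  rw [h5]

/-! ### means -/

lemma mean_le {q : ℕ} {f g : ℕ → ℝ} (h : ∀ c, f c ≤ g c) : mean q f ≤ mean q g := by
  unfold mean
  exact div_le_div_of_nonneg_right (sum_le_sum fun c _ => h c) (Nat.cast_nonneg _)

lemma mean_lin (q : ℕ) (f g : ℕ → ℝ) (a : ℝ) :
    mean q (fun c => f c + a * g c) = mean q f + a * mean q g := by
  unfold mean
  rw [sum_add_distrib, ← mul_sum]
  ring

lemma mean_prod {Q : Finset ℕ} {F : ℕ → ℕ → ℝ} (hQ : ∀ l ∈ Q, l.Prime)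
    (hF : ∀ l ∈ Q, ∀ c, F l (c + l) = F l c) :
    mean (pr Q) (fun c => ∏ l ∈ Q, F l c) = ∏ l ∈ Q, ((∑ y ∈ range l, F l y) / l) := by
  unfold mean pr
  have h := Avg.full_sum (b := 0) (W := 1) (P := Q) (F := F)
    (fun l hl => ⟨hQ l hl, fun h => (hQ l hl).one_lt.ne' (Nat.dvd_one.1 h)⟩) hF
  simp only [zero_add, one_mul] at h
  rw [h, prod_div_distrib]
  push_cast
  rfl

lemma pr_pos {Q : Finset ℕ} (hQ : ∀ l ∈ Q, l.Prime) : 0 < pr Q :=
  prod_pos fun l hl => (hQ l hl).pos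

lemma SS_succ (P : ℕ → Finset ℕ) (N : ℕ) : SS P (N + 1) = SS P N ∪ P N := by
  unfold SS
  rw [range_add_one, biUnion_insert, union_comm]

lemma SS_disj {P : ℕ → Finset ℕ} {N : ℕ}
    (hd : ∀ i < N + 1, ∀ j < N + 1, i ≠ j → Disjoint (P i) (P j)) : Disjoint (SS P N) (P N) := by
  unfold SS
  rw [disjoint_biUnion_left]
  intro i hi
  have hi' := mem_range.1 hi
  exact hd i (by omega) N (by omega) (by omega)

lemma mean_blocks {P : ℕ → Finset ℕ} {G : ℕ → ℕ → ℝ} : ∀ N : ℕ,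
    (∀ i < N, ∀ j < N, i ≠ j → Disjoint (P i) (P j)) → (∀ l ∈ SS P N, l.Prime) →
    (∀ j < N, ∀ c, G j (c + pr (P j)) = G j c) →
    mean (pr (SS P N)) (fun c => ∏ j ∈ range N, G j c) =
      ∏ j ∈ range N, mean (pr (P j)) (G j) := by
  intro N
  induction N with
  | zero =>
    intro _ _ _
    simp [SS, pr, mean]
  | succ N ih =>
    intro hd hp hG
    have hdis := SS_disj hd
    have hpS : ∀ l ∈ SS P N, l.Prime := fun l hl => hp l (by rw [SS_succ]; exact mem_union_left _ hl)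
    have hpN : ∀ l ∈ P N, l.Prime := fun l hl => hp l (by rw [SS_succ]; exact mem_union_right _ hl)
    have hpr : pr (SS P (N + 1)) = pr (SS P N) * pr (P N) := by
      unfold pr
      rw [SS_succ, prod_union hdis]
    have hcop : (pr (P N)).Coprime (pr (SS P N)) := by
      unfold pr
      refine Nat.Coprime.prod_left fun l hl => Nat.Coprime.prod_right fun l' hl' => ?_
      refine (Nat.coprime_primes (hpN l hl) (hpS l' hl')).2 fun h => ?_
      subst h
      exact (disjoint_left.1 hdis hl') hl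
    have hper : ∀ c, (∏ j ∈ range N, G j (c + pr (SS P N))) = ∏ j ∈ range N, G j c := by
      intro c
      refine prod_congr rfl fun j hj => ?_
      have hj' := mem_range.1 hj
      have h1 : pr (P j) ∣ pr (SS P N) := by
        unfold pr
        refine prod_dvd_prod_of_subset _ _ _ ?_
        intro l hl
        unfold SS
        exact mem_biUnion.2 ⟨j, hj, hl⟩
      obtain ⟨t, ht⟩ := h1
      rw [ht]
      exact Avg.per_mul (hG j (by omega)) t c
    have h2 := Avg.sum_prod (g := fun c => ∏ j ∈ range N, G j c) (h := G N)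
      (pr_pos hpS) (pr_pos hpN) hper (hG N (by omega)) hcop
    have ih' := ih (fun i hi j hj => hd i (by omega) j (by omega)) hpS
      (fun j hj => hG j (by omega))
    rw [prod_range_succ, ← ih', hpr]
    unfold mean
    simp only [prod_range_succ]
    rw [h2]
    push_cast
    have h3 : ((pr (SS P N) : ℕ) : ℝ) ≠ 0 := by
      exact_mod_cast (pr_pos hpS).ne'
    have h4 : ((pr (P N) : ℕ) : ℝ) ≠ 0 := by
      exact_mod_cast (pr_pos hpN).ne'
    field_simp

/-! ### the pointwise bound -/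

lemma om_mono {P : Finset ℕ} {m : ℕ} {A B : Finset ℕ} (h : A ⊆ B) (c : ℕ) :
    om P m A c ≤ om P m B c := by
  unfold om
  refine card_le_card ?_
  intro l hl
  rw [mem_filter] at hl ⊢
  obtain ⟨h1, k, hk, h2⟩ := hl
  exact ⟨h1, k, h hk, h2⟩

lemma om_union (P : Finset ℕ) (m : ℕ) (A A' : Finset ℕ) (c : ℕ) :
    om P m (A ∪ A') c ≤ om P m A c + om P m A' c := by
  classical
  unfold om
  refine le_trans (card_le_card ?_) (card_union_le _ _)
  intro l hl
  rw [mem_filter] at hl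
  obtain ⟨h1, k, hk, h2⟩ := hl
  rw [mem_union, mem_filter, mem_filter]
  rcases mem_union.1 hk with hk | hk
  · exact Or.inl ⟨h1, k, hk, h2⟩
  · exact Or.inr ⟨h1, k, hk, h2⟩

lemma four_pow {B T : ℕ} (hT : 2 * B ≤ T) : (4 : ℝ) ^ T ≤ (1 / 8) ^ (2 * B) * 32 ^ T := by
  have h1 : (4 : ℝ) ^ T = (1 / 8) ^ T * 32 ^ T := by
    rw [← mul_pow]
    norm_num
  rw [h1]
  refine mul_le_mul_of_nonneg_right ?_ (by positivity)
  exact pow_le_pow_of_le_one (by norm_num) (by norm_num) hT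

lemma FF_pair (B n n' T : ℕ) (h1 : n ≤ T) (h2 : n' ≤ T) (h3 : T ≤ n + n') :
    FF B n * FF B n' ≤ (if T = 0 then 1 else 0) + (1 / 8) ^ (2 * B) * 32 ^ T := by
  have hp : (0 : ℝ) ≤ (1 / 8) ^ (2 * B) * 32 ^ T := by positivity
  rcases Nat.eq_zero_or_pos T with hT | hT
  · have hn : n = 0 := by omega
    have hn' : n' = 0 := by omega
    rw [if_pos hT, hn, hn', NNd.FF_zero]
    linarith
  · rw [if_neg (by omega), zero_add]
    by_cases hz : FF B n * FF B n' = 0
    · rw [hz]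
      exact hp
    · have hz1 : FF B n ≠ 0 := left_ne_zero_of_mul hz
      have hz2 : FF B n' ≠ 0 := right_ne_zero_of_mul hz
      have hT2 : 2 * B ≤ T := by
        by_contra hcon
        have h4 : n = 0 ∨ 2 * B < n := by
          by_contra h5
          exact hz1 (NNd.FF_vanish B n (by omega) (by omega))
        have h6 : n' = 0 ∨ 2 * B < n' := by
          by_contra h5
          exact hz2 (NNd.FF_vanish B n' (by omega) (by omega))
        omega
      calc FF B n * FF B n' ≤ 2 ^ n * 2 ^ n' :=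
            mul_le_mul (NNd.FF_le B n) (NNd.FF_le B n') (NNd.FF_nonneg B n') (by positivity)
        _ ≤ 2 ^ T * 2 ^ T := by
            gcongr <;> norm_num
        _ = 4 ^ T := by
            rw [← mul_pow]
            norm_num
        _ ≤ _ := four_pow hT2

lemma prod_ht_zero (Q : Finset ℕ) (m : ℕ) (B : Finset ℕ) (c : ℕ) :
    ∏ l ∈ Q, ht m B 0 1 l c = if om Q m B c = 0 then 1 else 0 := by
  classical
  unfold ht om
  by_cases h : (Q.filter (fun l => ∃ k ∈ B, l ∣ c + k * m)).card = 0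
  · rw [if_pos h]
    refine prod_eq_one fun l hl => ?_
    rw [card_eq_zero, filter_eq_empty_iff] at h
    rw [if_neg (h hl)]
  · rw [if_neg h]
    rw [card_eq_zero, filter_eq_empty_iff] at h
    push_neg at h
    obtain ⟨l, hl, hx⟩ := h
    refine prod_eq_zero hl ?_
    rw [if_pos hx]

lemma prod_ht_pow (Q : Finset ℕ) (m : ℕ) (B : Finset ℕ) (c : ℕ) :
    ∏ l ∈ Q, ht m B 32 1 l c = 32 ^ om Q m B c := by
  classical
  unfold ht om
  rw [prod_ite, prod_const, prod_const_one, mul_one]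

/-! ### numbers -/

lemma exp_two {x : ℝ} (h0 : 0 ≤ x) (h1 : x ≤ 1 / 2) : 1 ≤ (1 - x) * Real.exp (2 * x) := by
  have h2 := Real.add_one_le_exp (2 * x)
  have h3 : (1 - x) * (2 * x + 1) ≤ (1 - x) * Real.exp (2 * x) :=
    mul_le_mul_of_nonneg_left h2 (by linarith)
  nlinarith

lemma exp_big {x : ℝ} (h0 : 0 ≤ x) (h1 : x ≤ 1 / 2) :
    1 + 31 * x ≤ (1 - x) * Real.exp (33 * x) := by
  have h2 := exp_two h0 h1
  have h3 : Real.exp (33 * x) = Real.exp (2 * x) * Real.exp (31 * x) := by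
    rw [← Real.exp_add]
    congr 1
    ring
  have h4 := Real.add_one_le_exp (31 * x)
  have h5 : 0 < Real.exp (31 * x) := Real.exp_pos _
  rw [h3, ← mul_assoc]
  calc 1 + 31 * x ≤ 1 * Real.exp (31 * x) := by linarith
    _ ≤ _ := mul_le_mul_of_nonneg_right h2 h5.le

lemma q_small {U J B j : ℕ} (hU : U ≤ 2 * J + 2) (hB : 700 * (J + 1) + j ≤ B) :
    (1 / 8 : ℝ) ^ (2 * B) * Real.exp (33 * U) ≤ 1 / 4 * (1 / 2) ^ j := by
  have h1 : Real.exp (33 * U) ≤ 8 ^ (66 * (J + 1)) := by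
    have h2 : (33 * (U : ℝ)) ≤ ((66 * (J + 1) : ℕ) : ℝ) := by
      have : 33 * U ≤ 66 * (J + 1) := by omega
      exact_mod_cast this
    refine (Real.exp_le_exp.2 h2).trans ?_
    have h3 : Real.exp (((66 * (J + 1) : ℕ) : ℝ)) = (Real.exp 1) ^ (66 * (J + 1)) := by
      rw [← Real.exp_nat_mul]
      congr 1
      ring
    rw [h3]
    refine pow_le_pow_left₀ (Real.exp_pos 1).le ?_ _
    have := Real.exp_one_lt_d9
    linarith
  have h4 : 2 * B = 66 * (J + 1) + (2 * B - 66 * (J + 1)) := by omega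
  calc (1 / 8 : ℝ) ^ (2 * B) * Real.exp (33 * U) ≤ (1 / 8 : ℝ) ^ (2 * B) * 8 ^ (66 * (J + 1)) := by
        gcongr
    _ = (1 / 8 : ℝ) ^ (2 * B - 66 * (J + 1)) * ((1 / 8) ^ (66 * (J + 1)) * 8 ^ (66 * (J + 1))) := by
        rw [h4, pow_add, Nat.add_sub_cancel_left]
        ring
    _ = (1 / 8 : ℝ) ^ (2 * B - 66 * (J + 1)) := by
        rw [← mul_pow]
        norm_num
    _ ≤ (1 / 8 : ℝ) ^ (j + 1) := pow_le_pow_of_le_one (by norm_num) (by norm_num) (by omega)
    _ ≤ _ := by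
        rw [pow_succ, mul_comm]
        have h5 : (1 / 8 : ℝ) ^ j ≤ (1 / 2) ^ j :=
          pow_le_pow_left₀ (by norm_num) (by norm_num) j
        have h6 : (0 : ℝ) ≤ (1 / 2) ^ j := by positivity
        nlinarith

lemma prod_small (N : ℕ) (δ : ℕ → ℝ) (h0 : ∀ j < N, 0 ≤ δ j)
    (h : ∀ j < N, δ j ≤ 1 / 4 * (1 / 2) ^ j) : ∏ j ∈ range N, (1 + δ j) ≤ 2 := by
  have h1 : ∏ j ∈ range N, (1 + δ j) ≤ ∏ j ∈ range N, Real.exp (δ j) := by
    refine prod_le_prod (fun j hj => ?_) fun j hj => ?_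
    · have := h0 j (mem_range.1 hj)
      linarith
    · have := Real.add_one_le_exp (δ j)
      linarith
  refine h1.trans ?_
  rw [← Real.exp_sum]
  have h2 : ∑ j ∈ range N, δ j ≤ 1 / 2 := by
    calc ∑ j ∈ range N, δ j ≤ ∑ j ∈ range N, 1 / 4 * (1 / 2 : ℝ) ^ j :=
          sum_le_sum fun j hj => h j (mem_range.1 hj)
      _ = 1 / 4 * ∑ j ∈ range N, (1 / 2 : ℝ) ^ j := by rw [← mul_sum]
      _ ≤ 1 / 4 * 2 := by
          have := sum_geometric_two_le N
          linarith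
      _ = 1 / 2 := by norm_num
  refine (Real.exp_le_exp.2 h2).trans ?_
  have h7 : Real.exp (1 / 2) * Real.exp (1 / 2) = Real.exp 1 := by
    rw [← Real.exp_add]
    norm_num
  have h8 := Real.exp_one_lt_d9
  have h9 := Real.exp_pos (1 / 2)
  nlinarith

/-! ### local means -/

/-- The indicator of the forced hit. -/
def ep (m : ℕ) (E : Finset ℕ) (k : ℕ → ℕ) (l c : ℕ) : ℝ :=
  if l ∈ E then ht m {k l} 1 0 l c else 1

lemma ep_per (m : ℕ) (E : Finset ℕ) (k : ℕ → ℕ) (l c : ℕ) :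
    ep m E k l (c + l) = ep m E k l c := by
  unfold ep
  rw [ht_per]

lemma ep_nn (m : ℕ) (E : Finset ℕ) (k : ℕ → ℕ) (l c : ℕ) : 0 ≤ ep m E k l c := by
  unfold ep
  split_ifs
  · exact ht_nn _ _ _ _ (by norm_num) le_rfl _ _
  · norm_num

lemma ep_one {m : ℕ} {E : Finset ℕ} {k : ℕ → ℕ} {c : ℕ} (h : ∀ l ∈ E, l ∣ c + k l * m) (l : ℕ) :
    ep m E k l c = 1 := by
  unfold ep ht
  split_ifs with h1 h2 h2
  · rfl
  · exact absurd ⟨k l, mem_singleton_self _, h l h1⟩ h2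
  · rfl

lemma local_E {l m : ℕ} (hl : l.Prime) (hm : ¬ l ∣ m) {E : Finset ℕ} {k : ℕ → ℕ} (hlE : l ∈ E)
    (hk : k l < l) {φ : ℕ → ℝ} {M : ℝ} (hφ : ∀ y, φ y ≤ M) :
    (∑ y ∈ range l, ep m E k l y * φ y) / l ≤ M / l := by
  refine div_le_div_of_nonneg_right ?_ (Nat.cast_nonneg _)
  calc ∑ y ∈ range l, ep m E k l y * φ y ≤ ∑ y ∈ range l, ep m E k l y * M :=
        sum_le_sum fun y _ => mul_le_mul_of_nonneg_left (hφ y) (ep_nn _ _ _ _ _)
    _ = (∑ y ∈ range l, ht m {k l} 1 0 l y) * M := by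
        rw [← sum_mul]
        unfold ep
        simp only [if_pos hlE]
    _ = M := by
        rw [ht_sum hl hm (B := {k l}) (by
          intro x hx
          rw [mem_singleton.1 hx]
          exact hk), card_singleton]
        push_cast
        ring

lemma local_not {l m : ℕ} (hl : l.Prime) (hm : ¬ l ∣ m) {E : Finset ℕ} {k : ℕ → ℕ}
    (hlE : l ∉ E) {B : Finset ℕ} (hB : ∀ x ∈ B, x < l) (a : ℝ) :
    (∑ y ∈ range l, ep m E k l y * ht m B a 1 l y) / l = 1 + (a - 1) * ((B.card : ℝ) / l) := by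
  have h1 : ∀ y, ep m E k l y * ht m B a 1 l y = ht m B a 1 l y := by
    intro y
    unfold ep
    rw [if_neg hlE, one_mul]
  simp only [h1]
  rw [ht_sum hl hm hB]
  have h2 : (l : ℝ) ≠ 0 := by
    exact_mod_cast hl.pos.ne'
  field_simp
  ring

/-- The weight of a prime. -/
def wE (E : Finset ℕ) (l : ℕ) : ℝ := if l ∈ E then 32 / (l : ℝ) else 1

lemma wE_nn (E : Finset ℕ) (l : ℕ) : 0 ≤ wE E l := by
  unfold wE
  split_ifs <;> positivity

lemma loc_zero {l m : ℕ} (hl : l.Prime) (hm : ¬ l ∣ m) {E : Finset ℕ} {k : ℕ → ℕ}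
    (hk : ∀ l ∈ E, k l < l) {B : Finset ℕ} (hB : ∀ x ∈ B, x < l)
    (hx : (B.card : ℝ) / l ≤ 1 / 8) :
    (∑ y ∈ range l, ep m E k l y * ht m B 0 1 l y) / l ≤ wE E l * (1 - (B.card : ℝ) / l) := by
  have hl0 : (0 : ℝ) < l := by exact_mod_cast hl.pos
  by_cases hlE : l ∈ E
  · refine (local_E hl hm hlE (hk l hlE) (M := 1)
      (fun y => ht_le _ _ _ _ _ (by norm_num) le_rfl _ _)).trans ?_
    unfold wE
    rw [if_pos hlE]
    have h1 : 1 / (l : ℝ) = 32 / l * (1 / 32) := by ring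
    rw [h1]
    exact mul_le_mul_of_nonneg_left (by linarith) (by positivity)
  · rw [local_not hl hm hlE hB]
    unfold wE
    rw [if_neg hlE]
    linarith

lemma loc_one {l m : ℕ} (hl : l.Prime) (hm : ¬ l ∣ m) {E : Finset ℕ} {k : ℕ → ℕ}
    (hk : ∀ l ∈ E, k l < l) {B : Finset ℕ} (hB : ∀ x ∈ B, x < l)
    (hx : (B.card : ℝ) / l ≤ 1 / 8) :
    (∑ y ∈ range l, ep m E k l y * ht m B 32 1 l y) / l ≤
      wE E l * (1 - (B.card : ℝ) / l) * Real.exp (33 * ((B.card : ℝ) / l)) := by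
  have hl0 : (0 : ℝ) < l := by exact_mod_cast hl.pos
  have hx0 : (0 : ℝ) ≤ (B.card : ℝ) / l := by positivity
  have hb := exp_big hx0 (by linarith)
  rw [mul_assoc]
  by_cases hlE : l ∈ E
  · refine (local_E hl hm hlE (hk l hlE) (M := 32)
      (fun y => ht_le _ _ _ _ _ le_rfl (by norm_num) _ _)).trans ?_
    unfold wE
    rw [if_pos hlE]
    calc 32 / (l : ℝ) = 32 / l * 1 := by ring
      _ ≤ _ := mul_le_mul_of_nonneg_left (by linarith) (by positivity)
  · rw [local_not hl hm hlE hB]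
    unfold wE
    rw [if_neg hlE, one_mul]
    linarith

/-- The function of a block. -/
def GG (m : ℕ) (B E : Finset ℕ) (k : ℕ → ℕ) (Q : Finset ℕ) (q : ℝ) (c : ℕ) : ℝ :=
  ∏ l ∈ Q, (ep m E k l c * ht m B 0 1 l c) + q * ∏ l ∈ Q, (ep m E k l c * ht m B 32 1 l c)

lemma GG_nn (m : ℕ) (B E : Finset ℕ) (k : ℕ → ℕ) (Q : Finset ℕ) {q : ℝ} (hq : 0 ≤ q) (c : ℕ) :
    0 ≤ GG m B E k Q q c := by
  unfold GG
  have h1 : 0 ≤ ∏ l ∈ Q, (ep m E k l c * ht m B 0 1 l c) :=
    prod_nonneg fun l _ => mul_nonneg (ep_nn _ _ _ _ _) (ht_nn _ _ _ _ le_rfl (by norm_num) _ _)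
  have h2 : 0 ≤ ∏ l ∈ Q, (ep m E k l c * ht m B 32 1 l c) :=
    prod_nonneg fun l _ =>
      mul_nonneg (ep_nn _ _ _ _ _) (ht_nn _ _ _ _ (by norm_num) (by norm_num) _ _)
  have := mul_nonneg hq h2
  linarith

lemma per_of {F : ℕ → ℕ → ℝ} {Q : Finset ℕ} (hF : ∀ l ∈ Q, ∀ c, F l (c + l) = F l c) (c : ℕ) :
    ∏ l ∈ Q, F l (c + pr Q) = ∏ l ∈ Q, F l c := by
  refine prod_congr rfl fun l hl => ?_
  have h1 : l ∣ pr Q := dvd_prod_of_mem (fun l => l) hl
  obtain ⟨t, ht⟩ := h1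
  rw [ht]
  exact Avg.per_mul (hF l hl) t c

lemma GG_per (m : ℕ) (B E : Finset ℕ) (k : ℕ → ℕ) (Q : Finset ℕ) (q : ℝ) (c : ℕ) :
    GG m B E k Q q (c + pr Q) = GG m B E k Q q c := by
  unfold GG
  rw [per_of (F := fun l c => ep m E k l c * ht m B 0 1 l c)
      (fun l _ c => by simp only [ep_per, ht_per]),
    per_of (F := fun l c => ep m E k l c * ht m B 32 1 l c)
      (fun l _ c => by simp only [ep_per, ht_per])]

lemma GG_mean {m : ℕ} {B E : Finset ℕ} {k : ℕ → ℕ} {Q : Finset ℕ} {q : ℝ} (hq : 0 ≤ q)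
    (hQ : ∀ l ∈ Q, l.Prime ∧ ¬ l ∣ m) (hk : ∀ l ∈ E, k l < l) (hB : ∀ x ∈ B, ∀ l ∈ Q, x < l)
    (hx : ∀ l ∈ Q, (B.card : ℝ) / l ≤ 1 / 8) (hs : ∑ l ∈ Q, (1 : ℝ) / l ≤ 1) :
    mean (pr Q) (GG m B E k Q q) ≤
      (∏ l ∈ Q, wE E l * (1 - (B.card : ℝ) / l)) * (1 + q * Real.exp (33 * B.card)) := by
  have h0 : mean (pr Q) (GG m B E k Q q) =
      ∏ l ∈ Q, ((∑ y ∈ range l, ep m E k l y * ht m B 0 1 l y) / l) +
      q * ∏ l ∈ Q, ((∑ y ∈ range l, ep m E k l y * ht m B 32 1 l y) / l) := by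
    unfold GG
    rw [mean_lin, mean_prod (F := fun l c => ep m E k l c * ht m B 0 1 l c)
      (fun l hl => (hQ l hl).1) (fun l _ c => by simp only [ep_per, ht_per]),
      mean_prod (F := fun l c => ep m E k l c * ht m B 32 1 l c)
      (fun l hl => (hQ l hl).1) (fun l _ c => by simp only [ep_per, ht_per])]
  have nn0 : ∀ l, 0 ≤ (∑ y ∈ range l, ep m E k l y * ht m B 0 1 l y) / (l : ℝ) := fun l =>
    div_nonneg (sum_nonneg fun y _ =>
      mul_nonneg (ep_nn _ _ _ _ _) (ht_nn _ _ _ _ le_rfl (by norm_num) _ _)) (Nat.cast_nonneg _)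
  have nn1 : ∀ l, 0 ≤ (∑ y ∈ range l, ep m E k l y * ht m B 32 1 l y) / (l : ℝ) := fun l =>
    div_nonneg (sum_nonneg fun y _ =>
      mul_nonneg (ep_nn _ _ _ _ _) (ht_nn _ _ _ _ (by norm_num) (by norm_num) _ _))
      (Nat.cast_nonneg _)
  set Wj : ℝ := ∏ l ∈ Q, wE E l * (1 - (B.card : ℝ) / l) with hWj
  have hW0 : 0 ≤ Wj := prod_nonneg fun l hl => mul_nonneg (wE_nn _ _) (by
    have := hx l hl
    linarith)
  have h1 : ∏ l ∈ Q, ((∑ y ∈ range l, ep m E k l y * ht m B 0 1 l y) / l) ≤ Wj :=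
    prod_le_prod (fun l _ => nn0 l) fun l hl =>
      loc_zero (hQ l hl).1 (hQ l hl).2 hk (fun x hx' => hB x hx' l hl) (hx l hl)
  have h2 : ∏ l ∈ Q, ((∑ y ∈ range l, ep m E k l y * ht m B 32 1 l y) / l) ≤
      Wj * Real.exp (33 * B.card) := by
    calc ∏ l ∈ Q, ((∑ y ∈ range l, ep m E k l y * ht m B 32 1 l y) / l) ≤
        ∏ l ∈ Q, (wE E l * (1 - (B.card : ℝ) / l) * Real.exp (33 * ((B.card : ℝ) / l))) :=
          prod_le_prod (fun l _ => nn1 l) fun l hl =>
            loc_one (hQ l hl).1 (hQ l hl).2 hk (fun x hx' => hB x hx' l hl) (hx l hl)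
      _ = Wj * Real.exp (∑ l ∈ Q, 33 * ((B.card : ℝ) / l)) := by
          rw [prod_mul_distrib, ← Real.exp_sum]
      _ ≤ Wj * Real.exp (33 * B.card) := by
          refine mul_le_mul_of_nonneg_left (Real.exp_le_exp.2 ?_) hW0
          have h3 : ∑ l ∈ Q, 33 * ((B.card : ℝ) / l) = 33 * B.card * ∑ l ∈ Q, (1 : ℝ) / l := by
            rw [mul_sum]
            refine sum_congr rfl fun l _ => ?_
            ring
          rw [h3]
          have h4 : (0 : ℝ) ≤ 33 * B.card := by positivity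
          nlinarith
  rw [h0]
  have h5 := mul_le_mul_of_nonneg_left h2 hq
  have h6 : Wj * (1 + q * Real.exp (33 * B.card)) = Wj + q * (Wj * Real.exp (33 * B.card)) := by
    ring
  rw [h6]
  linarith

lemma point {P : ℕ → Finset ℕ} {b : ℕ → ℕ} {N m : ℕ} {A A' E : Finset ℕ} {k : ℕ → ℕ} (c : ℕ)
    [Decidable (∀ l ∈ E, l ∣ c + k l * m)] :
    (if ∀ l ∈ E, l ∣ c + k l * m then Lm P b N m A c * Lm P b N m A' c else 0) ≤
      ∏ j ∈ range N, GG m (A ∪ A') E k (P j) ((1 / 8) ^ (2 * b j)) c := by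
  split_ifs with h
  · unfold Lm
    rw [← prod_mul_distrib]
    refine prod_le_prod (fun j _ => mul_nonneg (NNd.FF_nonneg _ _) (NNd.FF_nonneg _ _)) ?_
    intro j _
    refine (FF_pair (b j) _ _ (om (P j) m (A ∪ A') c) (om_mono subset_union_left c)
      (om_mono subset_union_right c) (om_union _ _ _ _ _)).trans (le_of_eq ?_)
    unfold GG
    simp only [ep_one h, one_mul]
    rw [prod_ht_zero, prod_ht_pow]
  · exact prod_nonneg fun j _ => GG_nn _ _ _ _ _ (by positivity) _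

end

end LCSAux

open LCSAux in
theorem t_LCS : S_LCS := by
  intro P b N m J A A' E k hd hS hlt hk hU hE hbl hb
  classical
  set B : Finset ℕ := A ∪ A' with hBdef
  have hx : ∀ l ∈ SS P N, (B.card : ℝ) / l ≤ 1 / 8 := by
    intro l hl
    have h1 := (hS l hl).2.2
    have hl0 : (0 : ℝ) < l := by
      have : 0 < l := by omega
      exact_mod_cast this
    rw [div_le_iff₀ hl0]
    have h2 : 8 * B.card ≤ l := by omega
    have h3 : (8 : ℝ) * B.card ≤ l := by exact_mod_cast h2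
    linarith
  have hsub : ∀ j < N, ∀ l ∈ P j, l ∈ SS P N := fun j hj l hl => by
    unfold SS
    exact mem_biUnion.2 ⟨j, mem_range.2 hj, hl⟩
  have hstep : mean (pr (SS P N)) (fun c => if ∀ l ∈ E, l ∣ c + k l * m then
      Lm P b N m A c * Lm P b N m A' c else 0) ≤
      ∏ j ∈ range N, mean (pr (P j)) (GG m B E k (P j) ((1 / 8) ^ (2 * b j))) := by
    rw [← mean_blocks (G := fun j => GG m B E k (P j) ((1 / 8) ^ (2 * b j))) N hd
      (fun l hl => (hS l hl).1) (fun j _ c => GG_per _ _ _ _ _ _ _)]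
    exact mean_le fun c => point c
  refine hstep.trans ?_
  have hmnn : ∀ j, 0 ≤ mean (pr (P j)) (GG m B E k (P j) ((1 / 8) ^ (2 * b j))) := by
    intro j
    unfold mean
    exact div_nonneg (sum_nonneg fun c _ => GG_nn _ _ _ _ _ (by positivity) _)
      (Nat.cast_nonneg _)
  have h1 : ∏ j ∈ range N, mean (pr (P j)) (GG m B E k (P j) ((1 / 8) ^ (2 * b j))) ≤
      ∏ j ∈ range N, ((∏ l ∈ P j, wE E l * (1 - (B.card : ℝ) / l)) *
        (1 + (1 / 8) ^ (2 * b j) * Real.exp (33 * B.card))) := by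
    refine prod_le_prod (fun j _ => hmnn j) fun j hj => ?_
    have hj' := mem_range.1 hj
    exact GG_mean (by positivity)
      (fun l hl => ⟨(hS l (hsub j hj' l hl)).1, (hS l (hsub j hj' l hl)).2.1⟩) hk
      (fun x hx' l hl => hlt x hx' l (hsub j hj' l hl)) (fun l hl => hx l (hsub j hj' l hl))
      (hbl j hj')
  refine h1.trans ?_
  rw [prod_mul_distrib]
  have h2 : ∏ j ∈ range N, ∏ l ∈ P j, wE E l * (1 - (B.card : ℝ) / l) =
      VS (SS P N) B.card * ∏ l ∈ E, (32 / (l : ℝ)) := by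
    have h3 : ∏ l ∈ SS P N, wE E l * (1 - (B.card : ℝ) / l) =
        ∏ j ∈ range N, ∏ l ∈ P j, wE E l * (1 - (B.card : ℝ) / l) := by
      unfold SS
      rw [prod_biUnion]
      intro i hi j hj hij
      exact hd i (mem_range.1 hi) j (mem_range.1 hj) hij
    rw [← h3, prod_mul_distrib, mul_comm]
    congr 1
    unfold wE
    rw [prod_ite_mem, inter_eq_right.2 hE]
  rw [h2]
  have hV : 0 ≤ VS (SS P N) B.card * ∏ l ∈ E, (32 / (l : ℝ)) := by
    refine mul_nonneg ?_ (prod_nonneg fun l _ => by positivity)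
    unfold VS
    refine prod_nonneg fun l hl => ?_
    have := hx l hl
    linarith
  have h4 : ∏ j ∈ range N, (1 + (1 / 8 : ℝ) ^ (2 * b j) * Real.exp (33 * B.card)) ≤ 2 :=
    prod_small N _ (fun j _ => by positivity) fun j hj => q_small hU (hb j hj)
  refine (mul_le_mul_of_nonneg_left h4 hV).trans (le_of_eq ?_)
  ring

end Pool.Agent.CRE
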