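import Pool.Agent.CRE.Stmts
import Pool.Agent.Lib_helper9.LG.Loc
import Pool.Agent.Lib_helper9.LG.NNd
import Pool.Agent.Lib_helper9.LG.Avg

/-!
# The mass of forced hits (module CRE_LOC)
-/

set_option autoImplicit false

namespace Pool.Agent.CRE

open Finset Pool.Agent.Lib_helper9.LG Pool.Agent.IPP

noncomputable section

namespace LOCx

/-- means of products of local functions -/
lemma mean_prod {Q : Finset ℕ} (hQ : ∀ l ∈ Q, l.Prime) (φ : {l // l ∈ Q} → ℕ → ℝ)
    (hφ : ∀ (i : {l // l ∈ Q}) (c : ℕ), φ i (c + i) = φ i c) :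
    mean (pr Q) (fun c => ∏ i, φ i c) =
      ∏ i : {l // l ∈ Q}, ((∑ y ∈ range i, φ i y) / ((i : ℕ) : ℝ)) := by
  obtain ⟨F, hF⟩ : ∃ F : ℕ → ℕ → ℝ, F = fun l c => if h : l ∈ Q then φ ⟨l, h⟩ c else 1 :=
    ⟨_, rfl⟩
  have hFi : ∀ (i : {l // l ∈ Q}) (c : ℕ), F i c = φ i c := by
    intro i c
    rw [hF]
    exact dif_pos i.2
  have h1 := Avg.full_sum (P := Q) (F := F) (b := 0) (W := 1)
    (fun l hl => ⟨hQ l hl, fun h => (hQ l hl).one_lt.ne' (Nat.dvd_one.1 h)⟩) (fun l hl c => by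
      have h3 := hφ ⟨l, hl⟩ c
      rw [← hFi, ← hFi] at h3
      exact h3)
  have h2 : ∀ c, ∏ i, φ i c = ∏ l ∈ Q, F l (0 + 1 * c) := by
    intro c
    rw [zero_add, one_mul, ← Finset.prod_coe_sort Q (fun l => F l c)]
    exact Finset.prod_congr rfl fun i _ => (hFi i c).symm
  have h3 : ∏ l ∈ Q, ∑ y ∈ range l, F l y = ∏ i : {l // l ∈ Q}, ∑ y ∈ range i, φ i y := by
    rw [← Finset.prod_coe_sort Q (fun l => ∑ y ∈ range l, F l y)]
    exact Finset.prod_congr rfl fun i _ => Finset.sum_congr rfl fun y _ => hFi i y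
  have h4 : ((∏ l ∈ Q, l : ℕ) : ℝ) = ∏ i : {l // l ∈ Q}, ((i : ℕ) : ℝ) := by
    rw [Nat.cast_prod, ← Finset.prod_coe_sort Q (fun l => (l : ℝ))]
  unfold mean pr
  rw [Finset.sum_congr rfl fun c _ => h2 c, h1, h3, h4, ← Finset.prod_div_distrib]

lemma pr_pos {Q : Finset ℕ} (hQ : ∀ l ∈ Q, l.Prime) : 0 < pr Q :=
  Finset.prod_pos fun l hl => (hQ l hl).pos

lemma mean_mul {a d : ℕ} {g h : ℕ → ℝ} (ha : 0 < a) (hd : 0 < d) (hg : ∀ c, g (c + a) = g c)
    (hh : ∀ c, h (c + d) = h c) (hc : d.Coprime a) :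
    mean (a * d) (fun c => g c * h c) = mean a g * mean d h := by
  unfold mean
  rw [Avg.sum_prod ha hd hg hh hc, Nat.cast_mul, mul_div_mul_comm]

lemma dvd_shift {l q c x : ℕ} (h : l ∣ q) : l ∣ c + q + x ↔ l ∣ c + x := by
  have e : c + q + x = (c + x) + q := by ring
  rw [e]
  exact (Nat.dvd_add_iff_left h).symm

lemma dvd_pr {Q : Finset ℕ} {l : ℕ} (h : l ∈ Q) : l ∣ pr Q :=
  Finset.dvd_prod_of_mem (fun l => l) h

lemma Lm_per (P : ℕ → Finset ℕ) (b : ℕ → ℕ) (N m : ℕ) (A : Finset ℕ) (c : ℕ) :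
    Lm P b N m A (c + pr (SS P N)) = Lm P b N m A c := by
  unfold Lm
  refine Finset.prod_congr rfl fun j hj => ?_
  congr 1
  unfold om
  congr 1
  refine Finset.filter_congr fun l hl => ?_
  have h : l ∣ pr (SS P N) := dvd_pr (by
    unfold SS
    exact mem_biUnion.2 ⟨j, hj, hl⟩)
  constructor
  · rintro ⟨k, hk, hd⟩
    exact ⟨k, hk, (dvd_shift h).1 hd⟩
  · rintro ⟨k, hk, hd⟩
    exact ⟨k, hk, (dvd_shift h).2 hd⟩

lemma xx_per {m l k : ℕ} (c : ℕ) : xx m l k (c + l) = xx m l k c := by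
  unfold xx
  rw [if_congr (dvd_shift (dvd_refl l)) rfl rfl]

lemma VS_nonneg {Q : Finset ℕ} {j : ℕ} (h : ∀ l ∈ Q, j ≤ l) : 0 ≤ VS Q j := by
  unfold VS
  refine Finset.prod_nonneg fun l hl => ?_
  have h1 : (j : ℝ) ≤ l := by exact_mod_cast h l hl
  have h2 : (j : ℝ) / l ≤ 1 := div_le_one_of_le₀ h1 (Nat.cast_nonneg _)
  linarith

lemma VS_anti {Q : Finset ℕ} {i j : ℕ} (hij : i ≤ j) (h : ∀ l ∈ Q, j ≤ l) :
    VS Q j ≤ VS Q i := by
  unfold VS
  refine Finset.prod_le_prod (fun l hl => ?_) fun l hl => ?_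
  · have h1 : (j : ℝ) ≤ l := by exact_mod_cast h l hl
    have h2 : (j : ℝ) / l ≤ 1 := div_le_one_of_le₀ h1 (Nat.cast_nonneg _)
    linarith
  · have h1 : (i : ℝ) ≤ j := by exact_mod_cast hij
    have h2 : (i : ℝ) / l ≤ (j : ℝ) / l := div_le_div_of_nonneg_right h1 (Nat.cast_nonneg _)
    linarith

/-- the local mean with a forced hit -/
lemma loc_hit {m l : ℕ} {S : Finset ℕ} (hl : l.Prime) (hm : ¬ l ∣ m) (hS : ∀ k ∈ S, k < l)
    (k : {k // k ∈ S}) (β β' : Option {k // k ∈ S}) :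
    |(∑ y ∈ range l, (if l ∣ y + k * m then (1 : ℝ) else 0) *
      ((β.elim 1 (fun k => xx m l k y)) * (β'.elim 1 (fun k => xx m l k y)))) / l| =
      1 / (l : ℝ) * (cc ((l : ℝ) - 1) k β * cc ((l : ℝ) - 1) k β') := by
  have hl0 : (0 : ℝ) < l := by exact_mod_cast hl.pos
  have hl1 : (0 : ℝ) < (l : ℝ) - 1 := by
    have : (1 : ℝ) < l := by exact_mod_cast hl.one_lt
    linarith
  obtain ⟨y₀, h0, h1⟩ := loc_unique hl.pos ((k : ℕ) * m)
  have hy : l ∣ y₀ + (k : ℕ) * m := (h1 y₀ h0).2 rfl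
  have hx : ∀ γ : Option {k // k ∈ S}, |γ.elim 1 (fun k => xx m l k y₀)| =
      cc ((l : ℝ) - 1) k γ := by
    intro γ
    cases γ with
    | none => simp [cc]
    | some j =>
      simp only [Option.elim, cc, xx]
      by_cases hj : j = k
      · rw [if_pos hj, hj, if_pos hy, abs_neg, abs_one]
      · rw [if_neg hj, if_neg, abs_of_pos (by positivity)]
        intro h2
        apply hj
        have h3 : y₀ + (j : ℕ) * m ≡ y₀ + (k : ℕ) * m [MOD l] :=
          (Nat.modEq_zero_iff_dvd.2 h2).trans (Nat.modEq_zero_iff_dvd.2 hy).symm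
        have h4 : (j : ℕ) * m ≡ (k : ℕ) * m [MOD l] := Nat.ModEq.add_left_cancel' y₀ h3
        have h5 : (j : ℕ) ≡ k [MOD l] :=
          Nat.ModEq.cancel_right_of_coprime ((Nat.Prime.coprime_iff_not_dvd hl).2 hm) h4
        exact Subtype.ext (h5.eq_of_lt_of_lt (hS j j.2) (hS k k.2))
  have hsum : ∑ y ∈ range l, (if l ∣ y + (k : ℕ) * m then (1 : ℝ) else 0) *
      ((β.elim 1 (fun k => xx m l k y)) * (β'.elim 1 (fun k => xx m l k y))) =
      (β.elim 1 (fun k => xx m l k y₀)) * (β'.elim 1 (fun k => xx m l k y₀)) := by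
    rw [Finset.sum_eq_single y₀]
    · rw [if_pos hy, one_mul]
    · intro y hy1 hne
      rw [if_neg, zero_mul]
      rw [h1 y (Finset.mem_range.1 hy1)]
      exact hne
    · intro h
      exact absurd (Finset.mem_range.2 h0) h
  rw [hsum, abs_div, abs_mul, hx, hx, abs_of_pos hl0]
  ring

/-- a product over a subtype -/
lemma prod_sub {Q E : Finset ℕ} (f : ℕ → ℝ) :
    ∏ i ∈ univ.filter (fun i : {l // l ∈ Q} => (i : ℕ) ∈ E), f i =
      ∏ l ∈ E.filter (fun l => l ∈ Q), f l := by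
  rw [Finset.prod_filter, Finset.prod_coe_sort Q (fun l => if l ∈ E then f l else 1),
    ← Finset.prod_filter]
  congr 1
  ext l
  rw [mem_filter, mem_filter]
  exact and_comm

end LOCx

open LOCx in
theorem t_LOC : M_LOC := by
  intro hLCS hLCQ P b N m J Q' S D y hC E k hE hk
  obtain ⟨k0, hk0⟩ := hC.ne
  have hκ : Fintype.card {k // k ∈ S} = S.card := Fintype.card_coe S
  have hQp : ∀ l ∈ Q', l.Prime := fun l hl => (hC.pQ l hl).1
  have hSp : ∀ l ∈ SS P N, l.Prime := fun l hl => (hC.pS l hl).1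
  have hdisj : Disjoint (SS P N) Q' := by
    rw [Finset.disjoint_right]
    exact fun l hl => (hC.pQ l hl).2.2
  have hprp : pr (SS P N ∪ Q') = pr (SS P N) * pr Q' := by
    unfold pr
    exact Finset.prod_union hdisj
  have hcop : (pr Q').Coprime (pr (SS P N)) := by
    unfold pr
    refine Nat.Coprime.prod_left fun l hl => Nat.Coprime.prod_right fun l' hl' => ?_
    refine (Nat.coprime_primes (hQp l hl) (hSp l' hl')).2 fun h => ?_
    exact (hC.pQ l hl).2.2 (h ▸ hl')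
  have hbig : ∀ l ∈ SS P N, 2 * J + 2 ≤ l := by
    intro l hl
    have := (hC.pS l hl).2.2
    omega
  obtain ⟨q, hq⟩ : ∃ q : {l // l ∈ Q'} → ℝ,
    q = fun i : {l // l ∈ Q'} => ((i : ℕ) : ℝ) - 1 := ⟨_, rfl⟩
  have hq0 : ∀ i, 0 < q i := by
    intro i
    have : (1 : ℝ) < ((i : ℕ) : ℝ) := by exact_mod_cast (hQp i i.2).one_lt
    rw [hq]
    show 0 < ((i : ℕ) : ℝ) - 1
    linarith
  obtain ⟨AA, hAA⟩ : ∃ AA : Finset {k // k ∈ S} → Finset ℕ,
    AA = fun B => B.map (Function.Embedding.subtype _) ∪ D := ⟨_, rfl⟩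
  have hAAS : ∀ B, AA B ⊆ S := by
    intro B
    rw [hAA]
    refine Finset.union_subset ?_ hC.DS
    intro x hx
    obtain ⟨z, -, rfl⟩ := Finset.mem_map.1 hx
    exact z.2
  have hAAm : ∀ B B', B ⊆ B' → AA B ⊆ AA B' := by
    intro B B' h
    rw [hAA]
    exact Finset.union_subset_union (Finset.map_subset_map.2 h) (Finset.Subset.refl _)
  obtain ⟨v, hv⟩ : ∃ v : Finset {k // k ∈ S} → ℝ,
    v = fun B => if (AA B).card ≤ 2 * J + 2 then VS (SS P N) (AA B).card else 0 := ⟨_, rfl⟩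
  obtain ⟨w, hw⟩ : ∃ w : Finset {k // k ∈ S} → Finset {k // k ∈ S} → ℝ,
    w = fun B B' => if (AA B ∪ AA B').card ≤ 2 * J + 2 then VS (SS P N) (AA B ∪ AA B').card
      else 0 := ⟨_, rfl⟩
  have hVn : ∀ j, j ≤ 2 * J + 2 → 0 ≤ VS (SS P N) j := fun j hj =>
    VS_nonneg fun l hl => hj.trans (hbig l hl)
  have hv0 : ∀ B, 0 ≤ v B := by
    intro B
    rw [hv]
    show 0 ≤ (if (AA B).card ≤ 2 * J + 2 then VS (SS P N) (AA B).card else 0)
    split_ifs with h
    · exact hVn _ h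
    · exact le_rfl
  have hvm : ∀ B B', B ⊆ B' → v B' ≤ v B := by
    intro B B' h
    have h1 := Finset.card_le_card (hAAm B B' h)
    have h2 := hv0 B
    rw [hv] at h2 ⊢
    show (if (AA B').card ≤ 2 * J + 2 then VS (SS P N) (AA B').card else 0) ≤
      (if (AA B).card ≤ 2 * J + 2 then VS (SS P N) (AA B).card else 0)
    by_cases h3 : (AA B').card ≤ 2 * J + 2
    · rw [if_pos h3, if_pos (h1.trans h3)]
      exact VS_anti h1 fun l hl => h3.trans (hbig l hl)
    · rw [if_neg h3]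
      exact h2
  have hwv : ∀ B B', 0 ≤ w B B' ∧ w B B' ≤ v B ∧ w B B' ≤ v B' := by
    intro B B'
    have h1 := Finset.card_le_card (Finset.subset_union_left (s₁ := AA B) (s₂ := AA B'))
    have h2 := Finset.card_le_card (Finset.subset_union_right (s₁ := AA B) (s₂ := AA B'))
    have h4 := hv0 B
    have h5 := hv0 B'
    rw [hv] at h4 h5 ⊢
    rw [hw]
    show 0 ≤ (if (AA B ∪ AA B').card ≤ 2 * J + 2 then VS (SS P N) (AA B ∪ AA B').card
      else 0) ∧ (if (AA B ∪ AA B').card ≤ 2 * J + 2 then VS (SS P N) (AA B ∪ AA B').card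
      else 0) ≤ (if (AA B).card ≤ 2 * J + 2 then VS (SS P N) (AA B).card else 0) ∧
      (if (AA B ∪ AA B').card ≤ 2 * J + 2 then VS (SS P N) (AA B ∪ AA B').card
      else 0) ≤ (if (AA B').card ≤ 2 * J + 2 then VS (SS P N) (AA B').card else 0)
    by_cases h3 : (AA B ∪ AA B').card ≤ 2 * J + 2
    · rw [if_pos h3, if_pos (h1.trans h3), if_pos (h2.trans h3)]
      exact ⟨hVn _ h3, VS_anti h1 fun l hl => h3.trans (hbig l hl),
        VS_anti h2 fun l hl => h3.trans (hbig l hl)⟩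
    · rw [if_neg h3]
      exact ⟨le_rfl, h4, h5⟩
  -- the forced sites
  obtain ⟨kk, hkk⟩ : ∃ kk : {l // l ∈ Q'} → {k // k ∈ S},
    kk = fun i : {l // l ∈ Q'} => if h : (i : ℕ) ∈ E then (⟨k i, hk _ h⟩ : {k // k ∈ S})
      else ⟨k0, hk0⟩ := ⟨_, rfl⟩
  have hkkE : ∀ i : {l // l ∈ Q'}, (i : ℕ) ∈ E → ((kk i : ℕ)) = k i := by
    intro i hi
    rw [hkk]
    show (((if h : (i : ℕ) ∈ E then (⟨k i, hk _ h⟩ : {k // k ∈ S}) else ⟨k0, hk0⟩) :
      {k // k ∈ S}) : ℕ) = k i
    rw [dif_pos hi]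
  obtain ⟨E', hE'⟩ : ∃ E' : Finset {l // l ∈ Q'},
    E' = univ.filter (fun i : {l // l ∈ Q'} => (i : ℕ) ∈ E) := ⟨_, rfl⟩
  obtain ⟨E₁, hE₁⟩ : ∃ E₁ : Finset ℕ, E₁ = E.filter (fun l => l ∈ SS P N) := ⟨_, rfl⟩
  have hmE' : ∀ i : {l // l ∈ Q'}, i ∈ E' ↔ (i : ℕ) ∈ E := by
    intro i
    rw [hE', mem_filter]
    exact ⟨fun h => h.2, fun h => ⟨mem_univ _, h⟩⟩
  -- the two factors
  obtain ⟨gf, hgf⟩ : ∃ gf : ({l // l ∈ Q'} → Option {k // k ∈ S}) →
      ({l // l ∈ Q'} → Option {k // k ∈ S}) → ℕ → ℝ,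
    gf = fun (α β : {l // l ∈ Q'} → Option {k // k ∈ S}) (c : ℕ) => if ∀ l ∈ E₁, l ∣ c + k l * m then
      Lm P b N m (AA (act α)) c * Lm P b N m (AA (act β)) c else 0 := ⟨_, rfl⟩
  obtain ⟨φ, hφ⟩ : ∃ φ : ({l // l ∈ Q'} → Option {k // k ∈ S}) →
      ({l // l ∈ Q'} → Option {k // k ∈ S}) → {l // l ∈ Q'} → ℕ → ℝ,
    φ = fun (α β : {l // l ∈ Q'} → Option {k // k ∈ S}) (i : {l // l ∈ Q'}) (c : ℕ) =>
      (if (i : ℕ) ∈ E then (if (i : ℕ) ∣ c + k i * m then (1 : ℝ) else 0)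
      else 1) * (((α i).elim 1 (fun j => xx m i j c)) * ((β i).elim 1 (fun j => xx m i j c))) :=
    ⟨_, rfl⟩
  have hφper : ∀ α β (i : {l // l ∈ Q'}) (c : ℕ), φ α β i (c + i) = φ α β i c := by
    intro α β i c
    rw [hφ]
    have h1 : ∀ γ : Option {k // k ∈ S}, γ.elim (1 : ℝ) (fun j => xx m i j (c + i)) =
        γ.elim 1 (fun j => xx m i j c) := by
      intro γ
      cases γ with
      | none => rfl
      | some j => exact xx_per c
    show (if (i : ℕ) ∈ E then (if (i : ℕ) ∣ c + i + k i * m then (1 : ℝ) else 0)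
      else 1) * (((α i).elim 1 (fun j => xx m i j (c + i))) *
        ((β i).elim 1 (fun j => xx m i j (c + i)))) = (if (i : ℕ) ∈ E then
        (if (i : ℕ) ∣ c + k i * m then (1 : ℝ) else 0)
      else 1) * (((α i).elim 1 (fun j => xx m i j c)) * ((β i).elim 1 (fun j => xx m i j c)))
    rw [h1, h1, if_congr (dvd_shift (dvd_refl (i : ℕ))) rfl rfl]
  have hgper : ∀ α β (c : ℕ), gf α β (c + pr (SS P N)) = gf α β c := by
    intro α β c
    rw [hgf]
    show (if ∀ l ∈ E₁, l ∣ c + pr (SS P N) + k l * m then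
      Lm P b N m (AA (act α)) (c + pr (SS P N)) * Lm P b N m (AA (act β)) (c + pr (SS P N))
      else 0) = (if ∀ l ∈ E₁, l ∣ c + k l * m then
      Lm P b N m (AA (act α)) c * Lm P b N m (AA (act β)) c else 0)
    rw [Lm_per, Lm_per]
    refine if_congr ?_ rfl rfl
    refine forall₂_congr fun l hl => dvd_shift (dvd_pr ?_)
    rw [hE₁] at hl
    exact (mem_filter.1 hl).2
  -- pointwise
  have hpt : ∀ c, (if ∀ l ∈ E, l ∣ c + k l * m then Gy P b N m Q' S D y c ^ 2 else 0) =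
      ∑ α, ∑ β, y α * y β * (gf α β c * ∏ i, φ α β i c) := by
    intro c
    by_cases hall : ∀ l ∈ E, l ∣ c + k l * m
    · rw [if_pos hall]
      have h1 : ∀ α β, gf α β c * ∏ i, φ α β i c =
          (Lm P b N m (AA (act α)) c *
            vl (fun (i : {l // l ∈ Q'}) (k : {k // k ∈ S}) (c : ℕ) => xx m i k c) α c) *
          (Lm P b N m (AA (act β)) c *
            vl (fun (i : {l // l ∈ Q'}) (k : {k // k ∈ S}) (c : ℕ) => xx m i k c) β c) := by
        intro α β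
        have h2 : gf α β c = Lm P b N m (AA (act α)) c * Lm P b N m (AA (act β)) c := by
          rw [hgf]
          refine if_pos fun l hl => hall l ?_
          rw [hE₁] at hl
          exact (mem_filter.1 hl).1
        have h3 : ∏ i, φ α β i c =
            vl (fun (i : {l // l ∈ Q'}) (k : {k // k ∈ S}) (c : ℕ) => xx m i k c) α c *
            vl (fun (i : {l // l ∈ Q'}) (k : {k // k ∈ S}) (c : ℕ) => xx m i k c) β c := by
          unfold vl
          rw [← Finset.prod_mul_distrib]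
          refine Finset.prod_congr rfl fun i _ => ?_
          rw [hφ]
          show (if (i : ℕ) ∈ E then (if (i : ℕ) ∣ c + k i * m then (1 : ℝ) else 0)
            else 1) * (((α i).elim 1 (fun j => xx m i j c)) *
              ((β i).elim 1 (fun j => xx m i j c))) = _
          by_cases hi : (i : ℕ) ∈ E
          · rw [if_pos hi, if_pos (hall _ hi), one_mul]
          · rw [if_neg hi, one_mul]
        rw [h2, h3]
        ring
      have h4 : Gy P b N m Q' S D y c = ∑ α, y α * (Lm P b N m (AA (act α)) c *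
            vl (fun (i : {l // l ∈ Q'}) (k : {k // k ∈ S}) (c : ℕ) => xx m i k c) α c) := by
        rw [hAA]
        rfl
      rw [h4, sq, Finset.sum_mul_sum]
      refine Finset.sum_congr rfl fun α _ => Finset.sum_congr rfl fun β _ => ?_
      rw [h1]
      ring
    · rw [if_neg hall]
      symm
      refine Finset.sum_eq_zero fun α _ => Finset.sum_eq_zero fun β _ => ?_
      have hex : ∃ l ∈ E, ¬ l ∣ c + k l * m := by
        by_contra hno
        exact hall fun l hl => by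
          by_contra h2
          exact hno ⟨l, hl, h2⟩
      obtain ⟨l, hl, hnd⟩ := hex
      rcases Finset.mem_union.1 (hE hl) with h1 | h1
      · have h2 : gf α β c = 0 := by
          rw [hgf]
          refine if_neg fun h3 => hnd (h3 l ?_)
          rw [hE₁]
          exact mem_filter.2 ⟨hl, h1⟩
        rw [h2, zero_mul, mul_zero]
      · have h2 : ∏ i, φ α β i c = 0 := by
          refine Finset.prod_eq_zero (mem_univ (⟨l, h1⟩ : {l // l ∈ Q'})) ?_
          rw [hφ]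
          show (if l ∈ E then (if l ∣ c + k l * m then (1 : ℝ) else 0) else 1) * _ = 0
          rw [if_pos hl, if_neg hnd, zero_mul]
        rw [h2, mul_zero, mul_zero]
  -- the mean
  have hmean : mean (pr (SS P N ∪ Q')) (fun c => if ∀ l ∈ E, l ∣ c + k l * m then
      Gy P b N m Q' S D y c ^ 2 else 0) = ∑ α, ∑ β, y α * y β * (mean (pr (SS P N)) (gf α β) *
        ∏ i : {l // l ∈ Q'}, ((∑ z ∈ range i, φ α β i z) / ((i : ℕ) : ℝ))) := by
    have h1 : ∀ α β, mean (pr (SS P N)) (gf α β) *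
        ∏ i : {l // l ∈ Q'}, ((∑ z ∈ range i, φ α β i z) / ((i : ℕ) : ℝ)) =
        mean (pr (SS P N ∪ Q')) (fun c => gf α β c * ∏ i, φ α β i c) := by
      intro α β
      rw [← mean_prod hQp (φ α β) (hφper α β), hprp]
      refine (mean_mul (pr_pos hSp) (pr_pos hQp) (hgper α β) ?_ hcop).symm
      intro c
      refine Finset.prod_congr rfl fun i _ => ?_
      obtain ⟨t, ht⟩ : (i : ℕ) ∣ pr Q' := dvd_pr i.2
      show φ α β i (c + pr Q') = φ α β i c
      rw [ht, Avg.per_mul (hφper α β i)]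
    have h2 : ∀ α β, y α * y β * (mean (pr (SS P N)) (gf α β) *
        ∏ i : {l // l ∈ Q'}, ((∑ z ∈ range i, φ α β i z) / ((i : ℕ) : ℝ))) =
        mean (pr (SS P N ∪ Q')) (fun c => y α * y β * (gf α β c * ∏ i, φ α β i c)) := by
      intro α β
      rw [h1]
      unfold mean
      rw [← Finset.mul_sum, mul_div_assoc]
    rw [Finset.sum_congr rfl fun α _ => Finset.sum_congr rfl fun β _ => h2 α β]
    unfold mean
    rw [Finset.sum_congr rfl fun c _ => hpt c, Finset.sum_comm, Finset.sum_div]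
    refine Finset.sum_congr rfl fun α _ => ?_
    rw [Finset.sum_comm, Finset.sum_div]
  -- local means
  have hlocal : ∀ α β, ∏ i : {l // l ∈ Q'}, |(∑ z ∈ range i, φ α β i z) / ((i : ℕ) : ℝ)| =
      (∏ i ∈ E', 1 / ((i : ℕ) : ℝ)) *
        ((∏ i ∈ E', cc (q i) (kk i) (α i) * cc (q i) (kk i) (β i)) *
          ∏ i ∈ E'ᶜ, |gl (q i) (α i) (β i)|) := by
    intro α β
    rw [← mul_assoc, ← Finset.prod_mul_distrib, ← Finset.prod_mul_prod_compl E'
      (fun i : {l // l ∈ Q'} => |(∑ z ∈ range i, φ α β i z) / ((i : ℕ) : ℝ)|)]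
    have hlt : ∀ i : {l // l ∈ Q'}, ∀ k ∈ S, k < (i : ℕ) := fun i k hk =>
      hC.lt k hk i (Finset.mem_union_right _ i.2)
    congr 1
    · refine Finset.prod_congr rfl fun i hi => ?_
      have hi' := (hmE' i).1 hi
      have h1 := loc_hit (hQp i i.2) (hC.pQ i i.2).2.1 (hlt i) (kk i) (α i) (β i)
      rw [hkkE i hi'] at h1
      rw [hq, ← h1, hφ]
      congr 2
      refine Finset.sum_congr rfl fun z _ => ?_
      show (if (i : ℕ) ∈ E then (if (i : ℕ) ∣ z + k i * m then (1 : ℝ) else 0)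
        else 1) * _ = _
      rw [if_pos hi']
    · refine Finset.prod_congr rfl fun i hi => ?_
      have hi' : (i : ℕ) ∉ E := fun h => Finset.mem_compl.1 hi ((hmE' i).2 h)
      have h1 := loc m i S (α i) (β i) (hQp i i.2) (hC.pQ i i.2).2.1 (hlt i)
      rw [hq, ← h1, hφ]
      congr 2
      refine Finset.sum_congr rfl fun z _ => ?_
      show (if (i : ℕ) ∈ E then (if (i : ℕ) ∣ z + k i * m then (1 : ℝ) else 0)
        else 1) * _ = _
      rw [if_neg hi', one_mul]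
  -- the sieve part
  have hsieve : ∀ α β, y α ≠ 0 → y β ≠ 0 → |mean (pr (SS P N)) (gf α β)| ≤
      2 * w (act α) (act β) * ∏ l ∈ E₁, (32 / (l : ℝ)) := by
    intro α β hα hβ
    have c1 : (AA (act α)).card ≤ J + 1 := by
      have := hC.card α hα
      rw [hAA]
      exact this
    have c2 : (AA (act β)).card ≤ J + 1 := by
      have := hC.card β hβ
      rw [hAA]
      exact this
    have c3 : (AA (act α) ∪ AA (act β)).card ≤ 2 * J + 2 := by
      have := Finset.card_union_le (AA (act α)) (AA (act β))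
      omega
    have h1 := hLCS P b N m J (AA (act α)) (AA (act β)) E₁ k hC.disj hC.pS (by
        intro x hx l hl
        refine hC.lt x ?_ l (Finset.mem_union_left _ hl)
        rcases Finset.mem_union.1 hx with h | h
        · exact hAAS _ h
        · exact hAAS _ h) (by
        intro l hl
        rw [hE₁] at hl
        have hlE := (mem_filter.1 hl).1
        exact hC.lt _ (hk l hlE) l (hE hlE)) c3 (by
        rw [hE₁]
        intro l hl
        exact (mem_filter.1 hl).2) hC.blk hC.bb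
    have h2 : 0 ≤ mean (pr (SS P N)) (gf α β) := by
      unfold mean
      refine div_nonneg (Finset.sum_nonneg fun c _ => ?_) (Nat.cast_nonneg _)
      rw [hgf]
      show 0 ≤ (if ∀ l ∈ E₁, l ∣ c + k l * m then
        Lm P b N m (AA (act α)) c * Lm P b N m (AA (act β)) c else 0)
      split_ifs
      · exact mul_nonneg (NNd.nn.2.2.2.2.1 _ _ _ _ _ _) (NNd.nn.2.2.2.2.1 _ _ _ _ _ _)
      · exact le_rfl
    have h3 : w (act α) (act β) = VS (SS P N) (AA (act α) ∪ AA (act β)).card := by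
      rw [hw]
      exact if_pos c3
    rw [abs_of_nonneg h2, h3, hgf]
    exact h1
  -- sums
  have hq1 := hLCQ {l // l ∈ Q'} {k // k ∈ S} q E' kk y v w hq0
    (by rw [hκ]; exact Finset.card_pos.2 ⟨k0, hk0⟩)
    (by
      intro i
      rw [hκ, hq]
      show (S.card : ℝ) - 1 ≤ ((i : ℕ) : ℝ) - 1
      have h1 : S ⊆ range (i : ℕ) := fun x hx =>
        Finset.mem_range.2 (hC.lt x hx i (Finset.mem_union_right _ i.2))
      have h2 := Finset.card_le_card h1
      rw [Finset.card_range] at h2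
      have h3 : (S.card : ℝ) ≤ ((i : ℕ) : ℝ) := by exact_mod_cast h2
      linarith) hv0 hvm hwv hC.mono
    (by
      intro α hα
      have := hC.eps α hα
      rw [hκ, hq]
      exact this)
  have hZ : ∑ α, y α ^ 2 * v (act α) / ph q (spp α) = Zy P N Q' S D y := by
    unfold Zy
    refine Finset.sum_congr rfl fun α _ => ?_
    by_cases hα : y α = 0
    · rw [hα]
      simp
    · have c1 := hC.card α hα
      have h1 : v (act α) = VS (SS P N) (AA (act α)).card := by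
        rw [hv]
        refine if_pos ?_
        rw [hAA]
        show ((act α).map (Function.Embedding.subtype _) ∪ D).card ≤ 2 * J + 2
        omega
      rw [h1, hAA, hq]
  rw [hZ] at hq1
  have hZ0 : 0 ≤ Zy P N Q' S D y := by
    rw [← hZ]
    refine Finset.sum_nonneg fun α _ => div_nonneg (mul_nonneg (sq_nonneg _) (hv0 _)) ?_
    exact Finset.prod_nonneg fun i _ => (hq0 i).le
  obtain ⟨R₁, hR₁⟩ : ∃ R₁ : ℝ, R₁ = ∏ l ∈ E₁, (32 / (l : ℝ)) := ⟨_, rfl⟩
  obtain ⟨R₂, hR₂⟩ : ∃ R₂ : ℝ, R₂ = ∏ i ∈ E', 1 / ((i : ℕ) : ℝ) := ⟨_, rfl⟩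
  have hR1 : 0 ≤ R₁ := by
    rw [hR₁]
    exact Finset.prod_nonneg fun l _ => by positivity
  have hR2 : 0 ≤ R₂ := by
    rw [hR₂]
    exact Finset.prod_nonneg fun l _ => by positivity
  have hmain : mean (pr (SS P N ∪ Q')) (fun c => if ∀ l ∈ E, l ∣ c + k l * m then
      Gy P b N m Q' S D y c ^ 2 else 0) ≤ 2 * R₁ * R₂ * (∑ α, ∑ β, |y α| * |y β| *
        w (act α) (act β) * ((∏ i ∈ E', cc (q i) (kk i) (α i) * cc (q i) (kk i) (β i)) *
        ∏ i ∈ E'ᶜ, |gl (q i) (α i) (β i)|)) := by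
    rw [hmean, Finset.mul_sum]
    refine Finset.sum_le_sum fun α _ => ?_
    rw [Finset.mul_sum]
    refine Finset.sum_le_sum fun β _ => ?_
    by_cases hα : y α = 0
    · rw [hα]
      simp
    by_cases hβ : y β = 0
    · rw [hβ]
      simp
    refine (le_abs_self _).trans ?_
    rw [abs_mul, abs_mul, abs_mul, Finset.abs_prod, hlocal, ← hR₂]
    have h1 := hsieve α β hα hβ
    rw [← hR₁] at h1
    have h2 : 0 ≤ (∏ i ∈ E', cc (q i) (kk i) (α i) * cc (q i) (kk i) (β i)) *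
        ∏ i ∈ E'ᶜ, |gl (q i) (α i) (β i)| := by
      have hcc : ∀ (i : {l // l ∈ Q'}) (γ : Option {k // k ∈ S}), 0 ≤ cc (q i) (kk i) γ := by
        intro i γ
        cases γ with
        | none => exact zero_le_one
        | some j =>
          show 0 ≤ (if j = kk i then (1 : ℝ) else 1 / q i)
          split_ifs
          · exact zero_le_one
          · exact (one_div_pos.2 (hq0 i)).le
      exact mul_nonneg (Finset.prod_nonneg fun i _ => mul_nonneg (hcc i _) (hcc i _))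
        (Finset.prod_nonneg fun i _ => abs_nonneg _)
    obtain ⟨X, hX⟩ : ∃ X : ℝ, X = (∏ i ∈ E', cc (q i) (kk i) (α i) * cc (q i) (kk i) (β i)) *
        ∏ i ∈ E'ᶜ, |gl (q i) (α i) (β i)| := ⟨_, rfl⟩
    rw [← hX] at h2 ⊢
    calc |y α| * |y β| * (|mean (pr (SS P N)) (gf α β)| * (R₂ * X))
        ≤ |y α| * |y β| * ((2 * w (act α) (act β) * R₁) * (R₂ * X)) := by
          refine mul_le_mul_of_nonneg_left (mul_le_mul_of_nonneg_right h1
            (mul_nonneg hR2 h2)) (mul_nonneg (abs_nonneg _) (abs_nonneg _))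
      _ = 2 * R₁ * R₂ * (|y α| * |y β| * w (act α) (act β) * X) := by ring
  refine hmain.trans ?_
  have h1 : 2 * R₁ * R₂ * (∑ α, ∑ β, |y α| * |y β| *
        w (act α) (act β) * ((∏ i ∈ E', cc (q i) (kk i) (α i) * cc (q i) (kk i) (β i)) *
        ∏ i ∈ E'ᶜ, |gl (q i) (α i) (β i)|)) ≤
      2 * R₁ * R₂ * (2 * 9 ^ E'.card * Zy P N Q' S D y) :=
    mul_le_mul_of_nonneg_left hq1 (by positivity)
  refine h1.trans ?_
  have h2 : 2 * R₁ * R₂ * (2 * 9 ^ E'.card * Zy P N Q' S D y) =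
      4 * Zy P N Q' S D y * (R₁ * ∏ i ∈ E', (9 / ((i : ℕ) : ℝ))) := by
    have h3 : ∏ i ∈ E', (9 / ((i : ℕ) : ℝ)) = 9 ^ E'.card * R₂ := by
      rw [hR₂, ← Finset.prod_const, ← Finset.prod_mul_distrib]
      exact Finset.prod_congr rfl fun i _ => by ring
    rw [h3]
    ring
  rw [h2]
  refine mul_le_mul_of_nonneg_left ?_ (by positivity)
  have h3 : ∏ i ∈ E', (9 / ((i : ℕ) : ℝ)) = ∏ l ∈ E.filter (fun l => l ∈ Q'), (9 / (l : ℝ)) := by
    rw [hE']
    exact prod_sub (fun l => 9 / (l : ℝ))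
  have h4 : ∏ l ∈ E.filter (fun l => l ∈ Q'), (9 / (l : ℝ)) ≤
      ∏ l ∈ E.filter (fun l => l ∈ Q'), (32 / (l : ℝ)) :=
    Finset.prod_le_prod (fun l _ => by positivity) fun l _ =>
      div_le_div_of_nonneg_right (by norm_num) (Nat.cast_nonneg _)
  have h5 : E = E₁ ∪ E.filter (fun l => l ∈ Q') := by
    rw [hE₁]
    ext l
    rw [mem_union, mem_filter, mem_filter]
    constructor
    · intro hl
      rcases Finset.mem_union.1 (hE hl) with h | h
      · exact Or.inl ⟨hl, h⟩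
      · exact Or.inr ⟨hl, h⟩
    · rintro (h | h)
      · exact h.1
      · exact h.1
  have h6 : Disjoint E₁ (E.filter (fun l => l ∈ Q')) := by
    rw [hE₁, Finset.disjoint_left]
    intro l hl hl'
    exact (hC.pQ l (mem_filter.1 hl').2).2.2 (mem_filter.1 hl).2
  have h7 : ∏ l ∈ E, (32 / (l : ℝ)) = R₁ * ∏ l ∈ E.filter (fun l => l ∈ Q'), (32 / (l : ℝ)) := by
    rw [hR₁, ← Finset.prod_union h6, ← h5]
  rw [h7, h3]
  exact mul_le_mul_of_nonneg_left h4 hR1

end

end Pool.Agent.CRE
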