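import Pool.Agent.CRE.Stmts

set_option autoImplicit false

/-!
# CRE, module LPA: functions of hits are equidistributed over primes
-/

namespace Pool.Agent.CRE

open Finset Pool.Agent.Lib_helper9.LG Pool.Agent.IPP

namespace LPA

/-- the modulus of a support -/
def mdl {Q : Finset ℕ} (E : Finset {l // l ∈ Q}) : ℕ := ∏ l ∈ E, (l : ℕ)

theorem dvd_mdl {Q : Finset ℕ} (hQ : ∀ l ∈ Q, l.Prime) (E : Finset {l // l ∈ Q})
    (i : {l // l ∈ Q}) : (i : ℕ) ∣ mdl E ↔ i ∈ E := by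
  constructor
  · intro h
    obtain ⟨j, hj, h1⟩ := ((hQ i i.2).prime.dvd_finsetProd_iff _).1 h
    have h2 : i = j := Subtype.ext ((Nat.prime_dvd_prime_iff_eq (hQ i i.2) (hQ j j.2)).1 h1)
    rw [h2]
    exact hj
  · intro h
    exact dvd_prod_of_mem (fun l : {l // l ∈ Q} => (l : ℕ)) h

theorem mdl_pos {Q : Finset ℕ} (hQ : ∀ l ∈ Q, l.Prime) (E : Finset {l // l ∈ Q}) : 0 < mdl E :=
  prod_pos fun i _ => (hQ i i.2).pos

theorem mdl_sqf {Q : Finset ℕ} (hQ : ∀ l ∈ Q, l.Prime) (E : Finset {l // l ∈ Q}) :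
    Squarefree (mdl E) := by
  classical
  induction E using Finset.induction_on with
  | empty => simp [mdl]
  | insert i E hi ih =>
    have h1 : mdl (insert i E) = (i : ℕ) * mdl E := prod_insert hi
    have h2 : Nat.Coprime (i : ℕ) (mdl E) := by
      rw [(hQ i i.2).coprime_iff_not_dvd, dvd_mdl hQ]
      exact hi
    rw [h1, Nat.squarefree_mul h2]
    exact ⟨(hQ i i.2).squarefree, ih⟩

theorem mdl_cop {Q : Finset ℕ} (hQ : ∀ l ∈ Q, l.Prime) {W : ℕ} (hW : ∀ l ∈ Q, ¬ l ∣ W)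
    (E : Finset {l // l ∈ Q}) : (mdl E).Coprime W :=
  Nat.Coprime.prod_left fun i _ => ((hQ i i.2).coprime_iff_not_dvd).2 (hW i i.2)

/-- the constant -/
noncomputable def C0 : ℝ :=
  (2 : ℝ) ^ (11 / 24 : ℝ) * (1 - (2 : ℝ) ^ (-(1 / 24) : ℝ))⁻¹

theorem q_lt : (2 : ℝ) ^ (-(1 / 24) : ℝ) < 1 :=
  Real.rpow_lt_one_of_one_lt_of_neg (by norm_num) (by norm_num)

theorem C0_pos : 0 < C0 := by
  have h1 := q_lt
  have h2 : (0 : ℝ) < 1 - (2 : ℝ) ^ (-(1 / 24) : ℝ) := by linarith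
  unfold C0
  positivity

theorem geo (N : ℕ) : ∑ j ∈ range N, ((2 : ℝ) ^ (-(1 / 24) : ℝ)) ^ j ≤
    (1 - (2 : ℝ) ^ (-(1 / 24) : ℝ))⁻¹ := by
  have h0 : (0 : ℝ) ≤ (2 : ℝ) ^ (-(1 / 24) : ℝ) := by positivity
  rw [← tsum_geometric_of_lt_one h0 q_lt]
  exact (summable_geometric_of_lt_one h0 q_lt).sum_le_tsum _ fun i _ => by positivity

theorem pw {z : ℝ} (hz : 0 ≤ z) (j : ℕ) (h : z ≤ 2 * 2 ^ j) :
    (2 * (2 : ℝ) ^ j) ^ (1 / 8 : ℝ) * z ^ (1 / 3 : ℝ) ≤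
      (2 : ℝ) ^ (11 / 24 : ℝ) * ((2 : ℝ) ^ (-(1 / 24) : ℝ)) ^ j * Real.sqrt (2 ^ j) := by
  have h0 : (0 : ℝ) < 2 ^ j := by positivity
  have h1 : (0 : ℝ) < 2 * 2 ^ j := by positivity
  have h2 : z ^ (1 / 3 : ℝ) ≤ (2 * (2 : ℝ) ^ j) ^ (1 / 3 : ℝ) :=
    Real.rpow_le_rpow hz h (by norm_num)
  have h3 : (2 * (2 : ℝ) ^ j) ^ (1 / 8 : ℝ) * (2 * (2 : ℝ) ^ j) ^ (1 / 3 : ℝ) =
      (2 * (2 : ℝ) ^ j) ^ (11 / 24 : ℝ) := by
    rw [← Real.rpow_add h1]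
    norm_num
  have h4 : (2 * (2 : ℝ) ^ j) ^ (11 / 24 : ℝ) =
      (2 : ℝ) ^ (11 / 24 : ℝ) * ((2 : ℝ) ^ j) ^ (11 / 24 : ℝ) :=
    Real.mul_rpow (by norm_num) h0.le
  have h5 : ((2 : ℝ) ^ (-(1 / 24) : ℝ)) ^ j = ((2 : ℝ) ^ j) ^ (-(1 / 24) : ℝ) := by
    rw [← Real.rpow_natCast, ← Real.rpow_natCast, ← Real.rpow_mul (by norm_num),
      ← Real.rpow_mul (by norm_num), mul_comm]
  have h6 : ((2 : ℝ) ^ j) ^ (-(1 / 24) : ℝ) * Real.sqrt (2 ^ j) =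
      ((2 : ℝ) ^ j) ^ (11 / 24 : ℝ) := by
    rw [Real.sqrt_eq_rpow, ← Real.rpow_add h0]
    norm_num
  calc (2 * (2 : ℝ) ^ j) ^ (1 / 8 : ℝ) * z ^ (1 / 3 : ℝ)
      ≤ (2 * (2 : ℝ) ^ j) ^ (1 / 8 : ℝ) * (2 * (2 : ℝ) ^ j) ^ (1 / 3 : ℝ) :=
        mul_le_mul_of_nonneg_left h2 (by positivity)
    _ = _ := by rw [h3, h4, h5, mul_assoc, h6]

/-- the dyadic sum -/
theorem dyadic {Y₀ : ℕ} (hBVP : ∀ X Y f U : ℕ, Y₀ ≤ Y → X ≤ Y → 1 ≤ f → 1 ≤ U → f ^ 40 ≤ Y →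
      U ^ 40 ≤ Y → ∀ (P : Finset ℕ) (c : ℕ → ℕ) (r : ℕ → ℤ), IPR.Fam P U f c r →
      ∑ u ∈ P, |IPR.dsp f (c u) u (r u) X Y| ≤ (Y : ℝ) * Real.log Y ^ 4 / (f * Real.sqrt U))
    (T : Finset ℕ) (R : ℕ → ℤ) (W s X₁ X₂ : ℕ) (z D : ℝ) (hz : 1 ≤ z) (hY : Y₀ ≤ X₂)
    (hX : X₁ ≤ X₂) (hW : 1 ≤ W) (hs : s.Coprime W) (hD : D ^ 40 ≤ X₂)
    (hW40 : (W : ℝ) ^ 40 ≤ X₂)
    (hT : ∀ u ∈ T, Squarefree u ∧ 1 < u ∧ z ≤ u ∧ (u : ℝ) ≤ D ∧ u.Coprime W ∧
      IPR.UnitM (R u) u) :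
    ∑ u ∈ T, (u : ℝ) ^ (1 / 8 : ℝ) * |IPR.dsp W s u (R u) X₁ X₂| ≤
      C0 * (X₂ * Real.log X₂ ^ 4 / (W * z ^ (1 / 3 : ℝ))) := by
  classical
  have hz0 : (0 : ℝ) < z := by linarith
  have hW0 : (0 : ℝ) < W := by exact_mod_cast hW
  have hzr : 0 < z ^ (1 / 3 : ℝ) := Real.rpow_pos_of_pos hz0 _
  have hB : 0 ≤ (X₂ : ℝ) * Real.log X₂ ^ 4 := by positivity
  have hN : ∀ u ∈ T, Nat.log 2 u ∈ range (T.sup (Nat.log 2) + 1) := fun u hu =>
    mem_range.2 (Nat.lt_succ_of_le (le_sup (f := Nat.log 2) hu))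
  rw [← sum_fiberwise_of_maps_to hN]
  have key : ∀ j ∈ range (T.sup (Nat.log 2) + 1),
      ∑ u ∈ T.filter (fun u => Nat.log 2 u = j),
        (u : ℝ) ^ (1 / 8 : ℝ) * |IPR.dsp W s u (R u) X₁ X₂| ≤
      (2 : ℝ) ^ (11 / 24 : ℝ) * ((2 : ℝ) ^ (-(1 / 24) : ℝ)) ^ j *
        (X₂ * Real.log X₂ ^ 4 / (W * z ^ (1 / 3 : ℝ))) := by
    intro j _
    rcases (T.filter (fun u => Nat.log 2 u = j)).eq_empty_or_nonempty with h0 | ⟨u₀, hu₀⟩
    · rw [h0, sum_empty]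
      positivity
    · rw [mem_filter] at hu₀
      obtain ⟨h1, h2, h3, h4, -, -⟩ := hT u₀ hu₀.1
      have hlog : ∀ u, 1 < u → Nat.log 2 u = j → 2 ^ j ≤ u ∧ u < 2 * 2 ^ j := by
        intro u hu hj
        have h5 := Nat.pow_log_le_self 2 (x := u) (by omega)
        have h6 := Nat.lt_pow_succ_log_self (b := 2) (by norm_num) u
        rw [hj] at h5 h6
        refine ⟨h5, ?_⟩
        rw [pow_succ] at h6
        omega
      obtain ⟨h5, h6⟩ := hlog u₀ h2 hu₀.2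
      have h5R : (2 : ℝ) ^ j ≤ u₀ := by exact_mod_cast h5
      have h6R : (u₀ : ℝ) ≤ 2 * 2 ^ j := by exact_mod_cast h6.le
      have hU40 : (2 ^ j) ^ 40 ≤ X₂ := by
        have h7 : ((2 : ℝ) ^ j) ^ 40 ≤ X₂ :=
          (pow_le_pow_left₀ (by positivity) (h5R.trans h4) 40).trans hD
        exact_mod_cast h7
      have hW40' : W ^ 40 ≤ X₂ := by exact_mod_cast hW40
      have h7 := hBVP X₁ X₂ W (2 ^ j) hY hX hW Nat.one_le_two_pow hW40' hU40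
        (T.filter (fun u => Nat.log 2 u = j)) (fun _ => s) R (by
          intro u hu
          rw [mem_filter] at hu
          obtain ⟨g1, g2, g3, g4, g5, g6⟩ := hT u hu.1
          obtain ⟨g7, g8⟩ := hlog u g2 hu.2
          exact ⟨g1, g2, g7, g8.le, g5, hs, g6⟩)
      have h8 : ∑ u ∈ T.filter (fun u => Nat.log 2 u = j),
          (u : ℝ) ^ (1 / 8 : ℝ) * |IPR.dsp W s u (R u) X₁ X₂| ≤
          (2 * (2 : ℝ) ^ j) ^ (1 / 8 : ℝ) * ∑ u ∈ T.filter (fun u => Nat.log 2 u = j),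
            |IPR.dsp W s u (R u) X₁ X₂| := by
        rw [mul_sum]
        refine sum_le_sum fun u hu => mul_le_mul_of_nonneg_right ?_ (abs_nonneg _)
        rw [mem_filter] at hu
        have g7 := (hlog u (hT u hu.1).2.1 hu.2).2
        refine Real.rpow_le_rpow (by positivity) ?_ (by norm_num)
        exact_mod_cast g7.le
      have h9 : (0 : ℝ) < Real.sqrt (2 ^ j) := Real.sqrt_pos.2 (by positivity)
      have h10 := pw hz0.le j (h3.trans h6R)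
      refine h8.trans ?_
      calc (2 * (2 : ℝ) ^ j) ^ (1 / 8 : ℝ) * ∑ u ∈ T.filter (fun u => Nat.log 2 u = j),
            |IPR.dsp W s u (R u) X₁ X₂|
          ≤ (2 * (2 : ℝ) ^ j) ^ (1 / 8 : ℝ) *
              ((X₂ : ℝ) * Real.log X₂ ^ 4 / (W * Real.sqrt (2 ^ j))) := by
            refine mul_le_mul_of_nonneg_left ?_ (by positivity)
            have h11 : Real.sqrt ((2 ^ j : ℕ) : ℝ) = Real.sqrt (2 ^ j) := by push_cast; rfl
            rw [h11] at h7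
            exact h7
        _ = ((2 * (2 : ℝ) ^ j) ^ (1 / 8 : ℝ) * z ^ (1 / 3 : ℝ)) * ((X₂ : ℝ) * Real.log X₂ ^ 4) /
              (W * Real.sqrt (2 ^ j) * z ^ (1 / 3 : ℝ)) := by
            field_simp
        _ ≤ ((2 : ℝ) ^ (11 / 24 : ℝ) * ((2 : ℝ) ^ (-(1 / 24) : ℝ)) ^ j * Real.sqrt (2 ^ j)) *
              ((X₂ : ℝ) * Real.log X₂ ^ 4) / (W * Real.sqrt (2 ^ j) * z ^ (1 / 3 : ℝ)) := by
            gcongr
        _ = _ := by
            field_simp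
  refine (sum_le_sum key).trans ?_
  rw [← sum_mul, ← mul_sum]
  refine mul_le_mul_of_nonneg_right ?_ (by positivity)
  unfold C0
  exact mul_le_mul_of_nonneg_left (geo _) (by positivity)

/-- the functions with a given support -/
theorem fib {ι κ : Type} [Fintype ι] [DecidableEq ι] [Fintype κ] [DecidableEq κ]
    (E : Finset ι) (S : Finset (ι → Option κ)) (hS : ∀ η ∈ S, spp η = E) (C : ℝ) (hC : 0 ≤ C) :
    ∑ η ∈ S, C ^ (spp η).card ≤ (C * Fintype.card κ) ^ E.card := by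
  have h1 : S ⊆ Fintype.piFinset (fun i => if i ∈ E then (univ : Finset κ).image some
      else {none}) := by
    intro η hη
    rw [Fintype.mem_piFinset]
    intro i
    have h2 : i ∈ spp η ↔ i ∈ E := by rw [hS η hη]
    have h3 : i ∈ spp η ↔ η i ≠ none := by simp [spp]
    by_cases h4 : i ∈ E
    · rw [if_pos h4]
      obtain ⟨k, hk⟩ := Option.ne_none_iff_exists'.1 (h3.1 (h2.2 h4))
      rw [hk]
      exact mem_image_of_mem _ (mem_univ _)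
    · rw [if_neg h4, mem_singleton]
      by_contra h5
      exact h4 (h2.1 (h3.2 h5))
  have h2 : S.card ≤ Fintype.card κ ^ E.card := by
    refine (card_le_card h1).trans ?_
    rw [Fintype.card_piFinset]
    have h3 : ∀ i : ι, (if i ∈ E then (univ : Finset κ).image some else {none}).card =
        if i ∈ E then Fintype.card κ else 1 := by
      intro i
      split_ifs
      · rw [card_image_of_injective _ (Option.some_injective κ), card_univ]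
      · simp
    rw [prod_congr rfl fun i _ => h3 i, prod_ite_mem, univ_inter, prod_const]
  calc ∑ η ∈ S, C ^ (spp η).card = ∑ η ∈ S, C ^ E.card :=
        sum_congr rfl fun η hη => by rw [hS η hη]
    _ = S.card * C ^ E.card := by rw [sum_const, nsmul_eq_mul]
    _ ≤ (Fintype.card κ ^ E.card : ℕ) * C ^ E.card :=
        mul_le_mul_of_nonneg_right (by exact_mod_cast h2) (by positivity)
    _ = _ := by
        push_cast
        rw [mul_pow, mul_comm]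

theorem mdl_ge {Q : Finset ℕ} (E : Finset {l // l ∈ Q}) {A z : ℝ} (hA : 0 ≤ A) (hAz : A ^ 8 ≤ z)
    (hQ : ∀ l ∈ Q, z ≤ l) : A ^ E.card ≤ (mdl E : ℝ) ^ (1 / 8 : ℝ) := by
  have h1 : (A ^ E.card) ^ 8 ≤ (mdl E : ℝ) := by
    rw [← pow_mul, mul_comm, pow_mul, ← prod_const]
    unfold mdl
    push_cast
    exact prod_le_prod (fun _ _ => by positivity) fun i _ => hAz.trans (hQ i i.2)
  have h2 : ((A ^ E.card) ^ 8) ^ (1 / 8 : ℝ) ≤ (mdl E : ℝ) ^ (1 / 8 : ℝ) :=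
    Real.rpow_le_rpow (by positivity) h1 (by norm_num)
  have h3 : ((A ^ E.card) ^ 8) ^ (1 / 8 : ℝ) = A ^ E.card := by
    rw [← Real.rpow_natCast (A ^ E.card) 8, ← Real.rpow_mul (by positivity)]
    norm_num
  rwa [h3] at h2

end LPA

open LPA

open Classical in
theorem t_LPA (hLPE : S_LPE) (hBVP : IPR.S_BVP) : S_LPA := by
  obtain ⟨Y₀, hBVP⟩ := hBVP
  refine ⟨Y₀ + 1 + 2 * C0, by have := C0_pos; positivity, ?_⟩
  intro Q κ _ _ _ ρ F z D M C W s X₁ X₂ hH hFac hCon hF hQ hC hz hW hs hC1 hX hD1 hD hW40 hM hE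
  obtain ⟨c, r, hc1, hc2, hr, hmain⟩ := hLPE Q κ ρ F z D M C W s X₁ X₂ hH hFac hCon hF hQ hC hz
    hX hM hE
  have hK : (0 : ℝ) ≤ Fintype.card κ := Nat.cast_nonneg _
  have hz1 : 1 ≤ z := by
    refine le_trans ?_ hz
    refine one_le_pow₀ ?_
    nlinarith
  have hA8 : (4 * C * Fintype.card κ) ^ 8 ≤ z := by
    refine le_trans (pow_le_pow_left₀ (by positivity) ?_ 8) hz
    nlinarith
  have hY : Y₀ ≤ X₂ := by
    have h1 := C0_pos
    have h2 : (Y₀ : ℝ) ≤ X₂ := by linarith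
    exact_mod_cast h2
  have hP := hH.prime
  set S : Finset ({l // l ∈ Q} → Option κ) := univ.filter (fun η => spp η ≠ ∅ ∧ c η ≠ 0) with hSd
  set T : Finset ℕ := S.image (fun η => mdl (spp η)) with hTd
  have hS1 : ∑ η ∈ univ.filter (fun η : {l // l ∈ Q} → Option κ => spp η ≠ ∅), c η *
        IPR.dsp W s (∏ l ∈ spp η, (l : ℕ)) (r η) X₁ X₂ =
      ∑ η ∈ S, c η * IPR.dsp W s (mdl (spp η)) (r η) X₁ X₂ := by
    symm
    refine sum_subset ?_ ?_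
    · intro η hη
      rw [hSd, mem_filter] at hη
      rw [mem_filter]
      exact ⟨mem_univ _, hη.2.1⟩
    · intro η hη hη2
      rw [mem_filter] at hη
      have h1 : c η = 0 := by
        by_contra h2
        exact hη2 (by rw [hSd, mem_filter]; exact ⟨mem_univ _, hη.2, h2⟩)
      rw [h1, zero_mul]
  have hR : ∀ e ∈ T, ∃ R : ℤ, IPR.UnitM R e ∧ ∀ η ∈ S, mdl (spp η) = e →
      |IPR.dsp W s e (r η) X₁ X₂| ≤ |IPR.dsp W s e R X₁ X₂| := by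
    intro e he
    obtain ⟨η₀, hη₀, he₀⟩ := mem_image.1 he
    obtain ⟨η₁, h1, h2⟩ := exists_max_image (S.filter fun η => mdl (spp η) = e)
      (fun η => |IPR.dsp W s e (r η) X₁ X₂|) ⟨η₀, mem_filter.2 ⟨hη₀, he₀⟩⟩
    rw [mem_filter] at h1
    refine ⟨r η₁, ?_, fun η h3 h4 => h2 η (mem_filter.2 ⟨h3, h4⟩)⟩
    have h5 := hr η₁
    have h6 : (∏ l ∈ spp η₁, (l : ℕ)) = e := h1.2
    rwa [h6] at h5
  choose! R hR1 hR2 using hR
  have hT : ∀ u ∈ T, Squarefree u ∧ 1 < u ∧ z ≤ u ∧ (u : ℝ) ≤ D ∧ u.Coprime W ∧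
      IPR.UnitM (R u) u := by
    intro u hu
    obtain ⟨η, hη, he⟩ := mem_image.1 hu
    have h0 := hR1 u hu
    rw [hSd, mem_filter] at hη
    obtain ⟨-, hη1, hη2⟩ := hη
    obtain ⟨i, hi⟩ := nonempty_iff_ne_empty.2 hη1
    have h1 : (i : ℕ) ∣ u := by
      rw [← he]
      exact (dvd_mdl hP _ _).2 hi
    have hu0 : 0 < u := by
      rw [← he]
      exact mdl_pos hP _
    have h2 : (i : ℕ) ≤ u := Nat.le_of_dvd hu0 h1
    have h3 : 2 ≤ (i : ℕ) := (hP i i.2).two_le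
    refine ⟨?_, by omega, (hQ i i.2).1.trans (by exact_mod_cast h2), ?_, ?_, h0⟩
    · rw [← he]
      exact mdl_sqf hP _
    · by_contra h4
      rw [not_le] at h4
      refine hη2 (hc2 η ?_)
      rw [← he] at h4
      unfold mdl at h4
      push_cast at h4
      exact h4
    · rw [← he]
      exact mdl_cop hP (fun l hl => (hQ l hl).2.1) _
  have hdy := dyadic hBVP T R W s X₁ X₂ z D hz1 hY hX hW hs hD hW40 hT
  have hfib : ∀ e ∈ T, ∑ η ∈ S.filter (fun η => mdl (spp η) = e), (4 * C) ^ (spp η).card ≤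
      (e : ℝ) ^ (1 / 8 : ℝ) := by
    intro e he
    obtain ⟨η₀, hη₀, he₀⟩ := mem_image.1 he
    have h1 : ∀ η ∈ S.filter (fun η => mdl (spp η) = e), spp η = spp η₀ := by
      intro η hη
      rw [mem_filter] at hη
      ext i
      rw [← dvd_mdl hP, ← dvd_mdl hP (spp η₀), hη.2, he₀]
    refine (fib (spp η₀) _ h1 (4 * C) (by positivity)).trans ?_
    rw [← he₀]
    exact mdl_ge (spp η₀) (by positivity) hA8 fun l hl => (hQ l hl).1
  have hsum : |∑ η ∈ S, c η * IPR.dsp W s (mdl (spp η)) (r η) X₁ X₂| ≤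
      2 * M * (C0 * (X₂ * Real.log X₂ ^ 4 / (W * z ^ (1 / 3 : ℝ)))) := by
    calc |∑ η ∈ S, c η * IPR.dsp W s (mdl (spp η)) (r η) X₁ X₂|
        ≤ ∑ η ∈ S, |c η * IPR.dsp W s (mdl (spp η)) (r η) X₁ X₂| := abs_sum_le_sum_abs _ _
      _ ≤ ∑ η ∈ S, (2 * M * (4 * C) ^ (spp η).card) *
            |IPR.dsp W s (mdl (spp η)) (R (mdl (spp η))) X₁ X₂| := by
          refine sum_le_sum fun η hη => ?_
          rw [abs_mul]
          exact mul_le_mul (hc1 η) (hR2 _ (mem_image_of_mem _ hη) η hη rfl) (abs_nonneg _)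
            (by positivity)
      _ = ∑ e ∈ T, ∑ η ∈ S.filter (fun η => mdl (spp η) = e),
            (2 * M * (4 * C) ^ (spp η).card) *
            |IPR.dsp W s (mdl (spp η)) (R (mdl (spp η))) X₁ X₂| :=
          (sum_fiberwise_of_maps_to (fun η hη => mem_image_of_mem _ hη) _).symm
      _ = ∑ e ∈ T, 2 * M * ((∑ η ∈ S.filter (fun η => mdl (spp η) = e),
            (4 * C) ^ (spp η).card) * |IPR.dsp W s e (R e) X₁ X₂|) := by
          refine sum_congr rfl fun e _ => ?_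
          rw [sum_mul, mul_sum]
          refine sum_congr rfl fun η hη => ?_
          rw [(mem_filter.1 hη).2]
          ring
      _ ≤ ∑ e ∈ T, 2 * M * ((e : ℝ) ^ (1 / 8 : ℝ) * |IPR.dsp W s e (R e) X₁ X₂|) := by
          refine sum_le_sum fun e he => mul_le_mul_of_nonneg_left ?_ (by positivity)
          exact mul_le_mul_of_nonneg_right (hfib e he) (abs_nonneg _)
      _ = 2 * M * ∑ e ∈ T, (e : ℝ) ^ (1 / 8 : ℝ) * |IPR.dsp W s e (R e) X₁ X₂| := by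
          rw [mul_sum]
      _ ≤ _ := mul_le_mul_of_nonneg_left hdy (by positivity)
  rw [hS1] at hmain
  have hB : 0 ≤ (X₂ : ℝ) * Real.log X₂ ^ 4 / (W * z ^ (1 / 3 : ℝ)) := by positivity
  have hfin : |∑ n ∈ Prs W s X₁ X₂, Real.log n * (F n - mean (pr Q) F)| ≤
      2 * M * (C0 * (X₂ * Real.log X₂ ^ 4 / (W * z ^ (1 / 3 : ℝ)))) +
        M / Real.sqrt z * ∑ n ∈ Prs W s X₁ X₂, Real.log n := by
    have h1 := abs_sub_abs_le_abs_sub
      (∑ n ∈ Prs W s X₁ X₂, Real.log n * (F n - mean (pr Q) F))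
      (∑ η ∈ S, c η * IPR.dsp W s (mdl (spp η)) (r η) X₁ X₂)
    linarith
  refine hfin.trans ?_
  have h1 : M * (Y₀ + 1 : ℝ) * ((X₂ : ℝ) * Real.log X₂ ^ 4 / (W * z ^ (1 / 3 : ℝ))) ≥ 0 := by
    positivity
  have h2 : M * ((Y₀ + 1 + 2 * C0) * X₂ * Real.log X₂ ^ 4 / (W * z ^ (1 / 3 : ℝ)) +
      1 / Real.sqrt z * ∑ n ∈ Prs W s X₁ X₂, Real.log n) =
      M * (Y₀ + 1 : ℝ) * ((X₂ : ℝ) * Real.log X₂ ^ 4 / (W * z ^ (1 / 3 : ℝ))) +
      2 * M * (C0 * (X₂ * Real.log X₂ ^ 4 / (W * z ^ (1 / 3 : ℝ)))) +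
        M / Real.sqrt z * ∑ n ∈ Prs W s X₁ X₂, Real.log n := by
    ring
  rw [h2]
  linarith

example : M_LPA := t_LPA

end Pool.Agent.CRE
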