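import Pool.Agent.CRE.Stmts
import Pool.Agent.Lib_helper9.LG.Avg

/-!
# Project CRE, module LPE: the identity and the bound of the coefficients
-/

set_option autoImplicit false

namespace Pool.Agent.CRE

open Finset Pool.Agent.Lib_helper9.LG Pool.Agent.IPP

noncomputable section

namespace LPEAux

variable {κ : Type} [Fintype κ] [DecidableEq κ] {Q : Finset ℕ} {ρ : ℕ → κ → ℕ}

set_option linter.unusedSectionVars false

/-- the support as a set of numbers -/
def sE (η : {l // l ∈ Q} → Option κ) : Finset ℕ := (spp η).map (Function.Embedding.subtype _)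

lemma prod_sE {R : Type} [CommMonoid R] (η : {l // l ∈ Q} → Option κ) (g : ℕ → R) :
    ∏ l ∈ sE η, g l = ∏ l ∈ spp η, g (l : ℕ) := by
  unfold sE
  rw [Finset.prod_map]
  rfl

lemma mem_sE {η : {l // l ∈ Q} → Option κ} {l : ℕ} :
    l ∈ sE η ↔ ∃ h : l ∈ Q, η ⟨l, h⟩ ≠ none := by
  unfold sE spp
  rw [Finset.mem_map]
  constructor
  · rintro ⟨i, hi, rfl⟩
    rw [Finset.mem_filter] at hi
    exact ⟨i.2, hi.2⟩
  · rintro ⟨h, h2⟩
    exact ⟨⟨l, h⟩, by rw [Finset.mem_filter]; exact ⟨Finset.mem_univ _, h2⟩, rfl⟩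

lemma sE_sub (η : {l // l ∈ Q} → Option κ) : sE η ⊆ Q := fun _ hl => (mem_sE.1 hl).1

lemma pf (hp : ∀ l ∈ Q, l.Prime) (η : {l // l ∈ Q} → Option κ) :
    (∏ l ∈ spp η, (l : ℕ)).primeFactors = sE η := by
  rw [← prod_sE η (fun l => l)]
  exact Nat.primeFactors_prod fun l hl => hp l (sE_sub η hl)

omit [Fintype κ] [DecidableEq κ] in
lemma pat_congr {n n' : ℕ} {l : {l // l ∈ Q}} (h : n % (l : ℕ) = n' % (l : ℕ)) :
    pat Q ρ n l = pat Q ρ n' l := by
  obtain ⟨P, hP⟩ : ∃ P : ℕ → Option κ, ∀ n, pat Q ρ n l = P (n % (l : ℕ)) :=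
    ⟨fun m => @dite _ (∃ k, m = ρ l k) (Classical.propDecidable _) (fun h => some h.choose)
      (fun _ => none), fun n => rfl⟩
  rw [hP, hP, h]

lemma per_dvd {g : ℕ → ℝ} {a b : ℕ} (hg : ∀ n, g (n + a) = g n) (h : a ∣ b) (n : ℕ) :
    g (n + b) = g n := by
  obtain ⟨k, rfl⟩ := h
  exact Avg.per_mul hg k n

/-- a local sum -/
lemma loc (hH : Hits Q ρ)
    (c1 : ∀ (n : ℕ) (l : {l // l ∈ Q}) (k : κ), pat Q ρ n l = some k ↔ n % (l : ℕ) = ρ l k)
    (l : {l // l ∈ Q}) (w : Option κ → ℝ) :
    ∑ y ∈ range (l : ℕ), w (pat Q ρ y l) =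
      ((l : ℕ) - Fintype.card κ : ℝ) * w none + ∑ j, w (some j) := by
  have e : ∀ y ∈ range (l : ℕ), w (pat Q ρ y l) =
      w none + ∑ j, if y = ρ l j then w (some j) - w none else 0 := by
    intro y hy
    rw [Finset.mem_range] at hy
    have hm : y % (l : ℕ) = y := Nat.mod_eq_of_lt hy
    rcases ho : pat Q ρ y l with _ | k
    · have h0 : ∀ j, y ≠ ρ l j := by
        intro j hj
        have := (c1 y l j).2 (by rw [hm]; exact hj)
        rw [ho] at this
        cases this
      rw [Finset.sum_eq_zero (fun j _ => if_neg (h0 j)), add_zero]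
    · have hk : y = ρ l k := by
        have := (c1 y l k).1 ho
        rwa [hm] at this
      rw [Finset.sum_eq_single k]
      · rw [if_pos hk]; ring
      · intro j _ hj
        rw [if_neg]
        intro h
        apply hj
        exact hH.inj l l.2 (by rw [← h, hk])
      · intro h; exact absurd (Finset.mem_univ k) h
  rw [Finset.sum_congr rfl e, Finset.sum_add_distrib, Finset.sum_const, Finset.card_range,
    Finset.sum_comm]
  have e2 : ∀ j ∈ (Finset.univ : Finset κ), ∑ y ∈ range (l : ℕ),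
      (if y = ρ l j then w (some j) - w none else 0) = w (some j) - w none := by
    intro j _
    rw [Finset.sum_ite_eq', if_pos (Finset.mem_range.2 (hH.lt l l.2 j))]
  rw [Finset.sum_congr rfl e2, Finset.sum_sub_distrib, Finset.sum_const, Finset.card_univ,
    nsmul_eq_mul, nsmul_eq_mul]
  ring

/-- a mean which vanishes -/
lemma mean0 (hH : Hits Q ρ) (w : {l // l ∈ Q} → Option κ → ℝ) {l : {l // l ∈ Q}}
    (hl : ∑ y ∈ range (l : ℕ), w l (pat Q ρ y l) = 0) {g : ℕ → ℝ} {E : Finset ℕ} (hE : E ⊆ Q)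
    (hg : ∀ n, g (n + pr E) = g n) (hlE : (l : ℕ) ∉ E) :
    mean (pr Q) (fun n => g n * ∏ i, w i (pat Q ρ n i)) = 0 := by
  have hlp := hH.prime l l.2
  have hD0 : 0 < pr (Q.erase l) := Finset.prod_pos fun a ha =>
    (hH.prime a (Finset.mem_of_mem_erase ha)).pos
  have hcop : (pr (Q.erase l)).Coprime (l : ℕ) := by
    refine Nat.Coprime.prod_left fun a ha => ?_
    exact (Nat.coprime_primes (hH.prime a (Finset.mem_of_mem_erase ha)) hlp).2
      (Finset.ne_of_mem_erase ha)
  have e1 : pr Q = (l : ℕ) * pr (Q.erase l) := (Finset.mul_prod_erase Q (fun l => l) l.2).symm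
  have e2 : ∀ n, g n * ∏ i, w i (pat Q ρ n i) = w l (pat Q ρ n l) *
      (g n * ∏ i ∈ Finset.univ.erase l, w i (pat Q ρ n i)) := by
    intro n
    rw [← Finset.mul_prod_erase Finset.univ (fun i => w i (pat Q ρ n i)) (Finset.mem_univ l)]
    ring
  unfold mean
  rw [Finset.sum_congr rfl (fun n _ => e2 n), e1]
  rw [Avg.sum_prod (g := fun n => w l (pat Q ρ n l))
    (h := fun n => g n * ∏ i ∈ Finset.univ.erase l, w i (pat Q ρ n i)) hlp.pos hD0 ?_ ?_ hcop, hl,
    zero_mul, zero_div]
  · intro c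
    have h1 : (c + (l : ℕ)) % (l : ℕ) = c % (l : ℕ) := Nat.add_mod_right _ _
    show w l (pat Q ρ (c + (l : ℕ)) l) = w l (pat Q ρ c l)
    rw [pat_congr h1]
  · intro c
    show g (c + pr (Q.erase l)) * ∏ i ∈ Finset.univ.erase l, w i (pat Q ρ (c + pr (Q.erase l)) i) = _
    have hdE : pr E ∣ pr (Q.erase l) := Finset.prod_dvd_prod_of_subset _ _ _ (by
      intro a ha
      exact Finset.mem_erase.2 ⟨fun h => hlE (h ▸ ha), hE ha⟩)
    rw [per_dvd hg hdE]
    congr 1
    refine Finset.prod_congr rfl fun i hi => ?_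
    have hne : (i : ℕ) ≠ (l : ℕ) := fun h => (Finset.ne_of_mem_erase hi) (Subtype.ext h)
    have hd : (i : ℕ) ∣ pr (Q.erase l) := Finset.dvd_prod_of_mem (fun l => l)
      (Finset.mem_erase.2 ⟨hne, i.2⟩)
    obtain ⟨k, hk⟩ := hd
    rw [pat_congr (n := c + pr (Q.erase l)) (n' := c) (by rw [hk, Nat.add_mul_mod_self_left])]

lemma sum_sq {z : ℝ} (hz : 1 ≤ z) (hQ : ∀ l ∈ Q, z ≤ l) : ∑ l ∈ Q, (1 / (l : ℝ)) ^ 2 ≤ 2 / z := by
  set k := ⌈z⌉₊ - 1 with hk
  have hz0 : 0 < z := by linarith
  have hc1 : 1 ≤ ⌈z⌉₊ := Nat.one_le_iff_ne_zero.2 (by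
    intro h
    have := Nat.le_ceil z
    rw [h] at this
    norm_num at this
    linarith)
  have hsub : Q ⊆ Finset.Ioo k (Q.sup id + 1) := by
    intro l hl
    rw [Finset.mem_Ioo]
    have h1 : ⌈z⌉₊ ≤ l := Nat.ceil_le.2 (hQ l hl)
    have h2 : l ≤ Q.sup id := Finset.le_sup (f := id) hl
    omega
  calc ∑ l ∈ Q, (1 / (l : ℝ)) ^ 2 = ∑ l ∈ Q, ((l : ℝ) ^ 2)⁻¹ := by
        refine Finset.sum_congr rfl fun l _ => ?_
        rw [one_div, inv_pow]
    _ ≤ ∑ l ∈ Finset.Ioo k (Q.sup id + 1), ((l : ℝ) ^ 2)⁻¹ :=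
        Finset.sum_le_sum_of_subset_of_nonneg hsub fun _ _ _ => by positivity
    _ ≤ 2 / ((k : ℝ) + 1) := sum_Ioo_inv_sq_le _ _
    _ ≤ 2 / z := by
        have h1 : z ≤ (k : ℝ) + 1 := by
          have h2 := Nat.le_ceil z
          have h3 : ((⌈z⌉₊ : ℕ) : ℝ) = (k : ℝ) + 1 := by
            rw [hk]
            push_cast [Nat.cast_sub hc1]
            ring
          rwa [h3] at h2
        exact div_le_div_of_nonneg_left (by norm_num) hz0 h1

end LPEAux

open LPEAux

theorem t_LPE : M_LPE := by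
  intro hEXN hDDB hUNM hCRT Q κ _ _ _ ρ F z D M C W s X₁ X₂ hH hFac hCon hF0 hl hC hz hX hM hmean
  obtain ⟨c1, c2, c3, c4⟩ := hCRT Q κ ρ hH
  choose N hN using c3
  set K : ℝ := (Fintype.card κ : ℝ) with hKdef
  have hK1 : 1 ≤ K := by
    rw [hKdef]
    exact_mod_cast Fintype.card_pos (α := κ)
  set B : ℝ := 8 * C * (K + 1) with hB
  have hB16 : 16 ≤ B := by rw [hB]; nlinarith
  have hBK : 8 * C * K ≤ B := by rw [hB]; nlinarith
  have hBK' : K ≤ B / 8 := by rw [hB]; nlinarith
  have hB8 : B ^ 8 = B ^ 2 * B ^ 6 := by ring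
  have hB6 : (16 : ℝ) ^ 6 ≤ B ^ 6 := pow_le_pow_left₀ (by norm_num) hB16 6
  have hB2 : 0 < B ^ 2 := by positivity
  have hzB : 16 ^ 6 * B ^ 2 ≤ z := by
    refine le_trans ?_ hz
    rw [hB8]
    nlinarith
  have hz16 : 16 * B ≤ z := by nlinarith
  have hz1 : 1 ≤ z := by linarith
  have hz0 : 0 < z := by linarith
  let ι := {l // l ∈ Q}
  let u : ι → ℝ := fun i => 1 / ((i : ℕ) : ℝ)
  let p : ι → ℝ := fun i => u i / (1 - u i)
  let f : (ι → Option κ) → ℝ := fun θ => F (N θ)
  have hf : ∀ n, f (pat Q ρ n) = F n := by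
    intro n
    refine hFac _ _ fun l hl k => ?_
    rw [← c1 (N (pat Q ρ n)) ⟨l, hl⟩ k, ← c1 n ⟨l, hl⟩ k, hN]
  have hf0 : ∀ θ, 0 ≤ f θ := fun θ => hF0 _
  have hiz : ∀ i : ι, z ≤ ((i : ℕ) : ℝ) := fun i => (hl i i.2).1
  have hi0 : ∀ i : ι, 0 < ((i : ℕ) : ℝ) := fun i => lt_of_lt_of_le hz0 (hiz i)
  have hu0 : ∀ i, 0 < u i := fun i => div_pos one_pos (hi0 i)
  have hBu : ∀ i, B * u i ≤ 1 / 16 := by
    intro i
    show B * (1 / ((i : ℕ) : ℝ)) ≤ 1 / 16
    rw [mul_one_div, div_le_div_iff₀ (hi0 i) (by norm_num)]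
    have := hiz i
    linarith
  have hu256 : ∀ i, u i ≤ 1 / 256 := by
    intro i
    have h1 := hBu i
    have h2 := hu0 i
    nlinarith
  have hKu : ∀ i, K * u i ≤ 1 / 128 := by
    intro i
    have h1 := hBu i
    have h2 := hu0 i
    nlinarith
  have hp0 : ∀ i, 0 < p i := fun i => div_pos (hu0 i) (by have := hu256 i; linarith)
  have hp2 : ∀ i, p i ≤ 2 * u i := by
    intro i
    have h1 := hu256 i
    have h2 := hu0 i
    show u i / (1 - u i) ≤ 2 * u i
    rw [div_le_iff₀ (by linarith)]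
    nlinarith
  have hKp : ∀ i, K * p i ≤ 1 / 2 := by
    intro i
    have h1 := hp2 i
    have h2 := hKu i
    nlinarith
  -- the hypothesis of `UNM`
  have hew : ∀ η, ew u (rs η f) ≤ M * ∏ i ∈ spp η, (C * u i) := by
    intro η
    have e1 : ew u (rs η f) = mean (pr Q) (fun n => rs η f (pat Q ρ n)) := (c4 (rs η f)).symm
    let k : ℕ → κ := fun l => if h : l ∈ Q then (η ⟨l, h⟩).getD (Classical.arbitrary κ)
      else Classical.arbitrary κ
    have hk : ∀ (i : ι) (j : κ), η i = some j → k i = j := by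
      intro i j hj
      show (if h : (i : ℕ) ∈ Q then (η ⟨i, h⟩).getD (Classical.arbitrary κ)
        else Classical.arbitrary κ) = j
      rw [dif_pos i.2, hj]
      rfl
    have e2 : (fun n => rs η f (pat Q ρ n)) = fun n =>
        if ∀ l ∈ sE η, n % l = ρ l (k l) then F n else 0 := by
      funext n
      unfold rs
      refine if_congr ?_ (hf n) rfl
      constructor
      · intro h l hl
        obtain ⟨hQ, hne⟩ := mem_sE.1 hl
        obtain ⟨j, hj⟩ := Option.ne_none_iff_exists'.1 hne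
        have h1 := h ⟨l, hQ⟩ hne
        rw [hj] at h1
        have h2 := (c1 n ⟨l, hQ⟩ j).1 h1
        have h3 : k l = j := hk ⟨l, hQ⟩ j hj
        rw [h3]
        exact h2
      · intro h i hne
        obtain ⟨j, hj⟩ := Option.ne_none_iff_exists'.1 hne
        have h1 := h i (mem_sE.2 ⟨i.2, hne⟩)
        rw [hk i j hj] at h1
        rw [hj]
        exact (c1 n i j).2 h1
    rw [e1, e2]
    refine le_trans (hmean (sE η) k (sE_sub η)) (le_of_eq ?_)
    rw [prod_sE η (fun l => C / (l : ℝ))]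
    congr 1
    refine Finset.prod_congr rfl fun i _ => ?_
    show C / ((i : ℕ) : ℝ) = C * (1 / ((i : ℕ) : ℝ))
    ring
  set x : ℝ := 4 * C * K * ∑ i, u i ^ 2 with hx
  have hsum : ∑ i, u i ^ 2 ≤ 2 / z := by
    have h1 : ∑ i, u i ^ 2 = ∑ l ∈ Q, (1 / (l : ℝ)) ^ 2 :=
      Finset.sum_coe_sort Q (fun l => (1 / (l : ℝ)) ^ 2)
    rw [h1]
    exact sum_sq hz1 fun l hl' => (hl l hl').1
  have hx0 : 0 ≤ x := by
    rw [hx]
    have : 0 ≤ ∑ i, u i ^ 2 := Finset.sum_nonneg fun i _ => by positivity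
    positivity
  have hxB : x ≤ B / z := by
    have h1 : x ≤ 4 * C * K * (2 / z) := by
      rw [hx]
      exact mul_le_mul_of_nonneg_left hsum (by positivity)
    refine le_trans h1 ?_
    rw [mul_div_assoc']
    exact div_le_div_of_nonneg_right (by linarith) hz0.le
  have hsq : 2 * B ≤ Real.sqrt z := by
    apply Real.le_sqrt_of_sq_le
    nlinarith
  have hsz : 0 < Real.sqrt z := Real.sqrt_pos.2 hz0
  have hx1 : x ≤ 1 := by
    refine le_trans hxB ?_
    rw [div_le_one hz0]
    linarith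
  have hexp : Real.exp x - 1 ≤ 1 / Real.sqrt z := by
    have h1 := Real.abs_exp_sub_one_le (x := x) (by rw [abs_of_nonneg hx0]; exact hx1)
    rw [abs_of_nonneg hx0] at h1
    have h2 : Real.exp x - 1 ≤ 2 * x := le_trans (le_abs_self _) h1
    refine le_trans h2 ?_
    calc 2 * x ≤ 2 * B / z := by
          have := mul_le_mul_of_nonneg_left hxB (by norm_num : (0:ℝ) ≤ 2)
          rwa [← mul_div_assoc] at this
      _ ≤ Real.sqrt z / z := div_le_div_of_nonneg_right hsq hz0.le
      _ = 1 / Real.sqrt z := by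
          rw [div_eq_div_iff hz0.ne' hsz.ne', one_mul, Real.mul_self_sqrt hz0.le]
  have hs1 : 1 / Real.sqrt z ≤ 1 := by
    rw [div_le_one hsz]
    linarith
  have hexp2 : Real.exp x ≤ 2 := by linarith
  obtain ⟨ua, ub⟩ := hUNM ι κ u f M C hu0 (fun i => by have := hu256 i; linarith)
    (fun i => by have := hKu i; linarith)
    (fun i => by
      have h1 := hKu i
      have h2 := hu0 i
      have h3 := hu256 i
      have h4 : 4 * K * u i ^ 2 = 4 * (K * u i) * u i := by ring
      rw [h4]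
      nlinarith) hf0 hM hC hew
  have hcf : ∀ η, |cf p f η| ≤ 2 * M * (4 * C) ^ (spp η).card := by
    intro η
    have h1 := hDDB ι κ p f (M * Real.exp x) (2 * C) hp0 hKp hf0 (by positivity) (by linarith)
      (fun η => ua η) η
    refine le_trans h1 ?_
    have h2 : (2 * C + 2) ^ (spp η).card ≤ (4 * C) ^ (spp η).card :=
      pow_le_pow_left₀ (by linarith) (by linarith) _
    have h3 : M * Real.exp x ≤ 2 * M := by nlinarith
    exact mul_le_mul h3 h2 (by positivity) (by positivity)
  have hwt : ∀ (i : ι) (o : Option κ), law K (u i) o ≠ 0 := by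
    intro i o
    cases o with
    | none =>
      show 1 - K * u i ≠ 0
      have := hKu i
      linarith
    | some j => exact (hu0 i).ne'
  refine ⟨fun η => cf p f η, fun η => ((N η : ℕ) : ℤ), hcf, ?_, ?_, ?_⟩
  · -- large conductors
    intro η hD
    let w : ι → Option κ → ℝ := fun i o => dco K (p i) (η i) o / law K (u i) o
    have e1 : cf p f η = mean (pr Q) (fun n => F n * ∏ i, w i (pat Q ρ n i)) := by
      have h1 : mean (pr Q) (fun n => F n * ∏ i, w i (pat Q ρ n i)) =
          mean (pr Q) (fun n => (fun θ => f θ * ∏ i, w i (θ i)) (pat Q ρ n)) := by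
        congr 1
        funext n
        show _ = f (pat Q ρ n) * ∏ i, w i (pat Q ρ n i)
        rw [hf]
      rw [h1]
      refine Eq.trans ?_ (c4 (fun θ => f θ * ∏ i, w i (θ i))).symm
      unfold cf ew
      refine Finset.sum_congr rfl fun θ _ => ?_
      rw [mul_assoc, ← Finset.prod_mul_distrib]
      congr 1
      refine Finset.prod_congr rfl fun i _ => ?_
      exact (div_mul_cancel₀ _ (hwt i (θ i))).symm
    have key : ∀ g, Con Q D g → mean (pr Q) (fun n => g n * ∏ i, w i (pat Q ρ n i)) = 0 := by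
      intro g hg
      induction hg with
      | base E g hE hp hD' =>
        obtain ⟨i, hi, hiE⟩ : ∃ i ∈ spp η, (i : ℕ) ∉ E := by
          by_contra hcon
          push Not at hcon
          have h1 : ∏ l ∈ spp η, ((l : ℕ) : ℝ) ≤ (pr E : ℝ) := by
            have h2 : ∏ l ∈ spp η, (l : ℕ) ≤ pr E := by
              rw [← prod_sE η (fun l => l)]
              refine Nat.le_of_dvd (Finset.prod_pos fun l hl => (hH.prime l (hE hl)).pos)
                (Finset.prod_dvd_prod_of_subset _ _ _ ?_)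
              intro l hl
              obtain ⟨hQ, hne⟩ := mem_sE.1 hl
              exact hcon ⟨l, hQ⟩ (by
                unfold spp
                rw [Finset.mem_filter]
                exact ⟨Finset.mem_univ _, hne⟩)
            exact_mod_cast h2
          linarith
        have hne : η i ≠ none := by
          unfold spp at hi
          exact (Finset.mem_filter.1 hi).2
        obtain ⟨j, hj⟩ := Option.ne_none_iff_exists'.1 hne
        refine mean0 hH w (l := i) ?_ hE hp hiE
        rw [loc hH c1 i (w i)]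
        have h0 : w i none = -1 / (1 - K * u i) := by
          show dco K (p i) (η i) none / law K (u i) none = _
          rw [hj]
          rfl
        have h1 : ∀ j', w i (some j') = (if j = j' then 1 else 0) / u i := by
          intro j'
          show dco K (p i) (η i) (some j') / law K (u i) (some j') = _
          rw [hj]
          rfl
        rw [h0, Finset.sum_congr rfl (fun j' _ => h1 j'), ← Finset.sum_div,
          Finset.sum_ite_eq, if_pos (Finset.mem_univ _)]
        have h2 : 1 - K * u i ≠ 0 := hwt i none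
        have h3 : ((i : ℕ) : ℝ) ≠ 0 := (hi0 i).ne'
        have h4 : ((i : ℕ) : ℝ) - K = ((i : ℕ) : ℝ) * (1 - K * u i) := by
          show _ = ((i : ℕ) : ℝ) * (1 - K * (1 / ((i : ℕ) : ℝ)))
          field_simp
        rw [← hKdef, h4]
        have h5 : (1 : ℝ) / u i = ((i : ℕ) : ℝ) := by
          show 1 / (1 / ((i : ℕ) : ℝ)) = _
          rw [one_div_one_div]
        rw [h5]
        field_simp
        ring
      | add hg hh ih1 ih2 =>
        rename_i g h
        have e3 : mean (pr Q) (fun n => (g n + h n) * ∏ i, w i (pat Q ρ n i)) =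
            mean (pr Q) (fun n => g n * ∏ i, w i (pat Q ρ n i)) +
            mean (pr Q) (fun n => h n * ∏ i, w i (pat Q ρ n i)) := by
          unfold mean
          rw [← add_div, ← Finset.sum_add_distrib]
          congr 1
          exact Finset.sum_congr rfl fun n _ => by ring
        rw [e3, ih1, ih2, add_zero]
    show cf p f η = 0
    rw [e1]
    exact key F hCon
  · -- units
    intro η l hl
    rw [pf hH.prime η] at hl
    obtain ⟨hQ, hne⟩ := mem_sE.1 hl
    obtain ⟨j, hj⟩ := Option.ne_none_iff_exists'.1 hne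
    have h1 : N η % l = ρ l j := (c1 (N η) ⟨l, hQ⟩ j).1 (by rw [hN]; exact hj)
    have h2 := hH.pos l hQ j
    intro h3
    have h4 : ((N η : ℕ) : ZMod l) = 0 := by exact_mod_cast h3
    rw [ZMod.natCast_eq_zero_iff] at h4
    have := Nat.mod_eq_zero_of_dvd h4
    omega
  · -- the identity
    have hnone : cf p f (fun _ => none) = ew p f := (hEXN ι κ p f).2.1
    have hexpn := (hEXN ι κ p f).1
    have hprod : ∀ n ∈ Prs W s X₁ X₂, ∀ η : ι → Option κ,
        ∏ i, bas (p i) (η i) (pat Q ρ n i) =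
          IPR.ps (∏ l ∈ spp η, (l : ℕ)) ((N η : ℕ) : ℤ) n := by
      intro n hn η
      unfold Prs at hn
      rw [Finset.mem_filter, Finset.mem_Ioc] at hn
      obtain ⟨⟨hn1, hn2⟩, hnp, hns⟩ := hn
      unfold IPR.ps
      rw [pf hH.prime η, prod_sE η (fun l => Pool.Agent.Lib_helper72.AP.wt l ((N η : ℕ) : ℤ) n)]
      rw [← Finset.prod_subset (Finset.subset_univ (spp η))]
      · refine Finset.prod_congr rfl fun i hi => ?_
        have hne : η i ≠ none := by
          unfold spp at hi
          exact (Finset.mem_filter.1 hi).2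
        obtain ⟨j, hj⟩ := Option.ne_none_iff_exists'.1 hne
        have hip := hH.prime i i.2
        have hnd : ¬ (i : ℕ) ∣ n := by
          intro h
          have h1 := (Nat.prime_dvd_prime_iff_eq hip hnp).1 h
          have h2 := (hl i i.2).2.2
          omega
        have hN2 : N η % (i : ℕ) = ρ i j := (c1 (N η) i j).1 (by rw [hN]; exact hj)
        unfold Pool.Agent.Lib_helper72.AP.wt
        rw [hj, if_neg hnd]
        show (if pat Q ρ n i = some j then (1 : ℝ) else 0) - p i = _
        have hpi : p i = 1 / (((i : ℕ) : ℝ) - 1) := by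
          show (1 / ((i : ℕ) : ℝ)) / (1 - 1 / ((i : ℕ) : ℝ)) = _
          have h1 : ((i : ℕ) : ℝ) ≠ 0 := (hi0 i).ne'
          have h2 : ((i : ℕ) : ℝ) - 1 ≠ 0 := by
            have := hiz i
            linarith
          have h3 : 1 - 1 / ((i : ℕ) : ℝ) ≠ 0 := by
            have := hu256 i
            have h4 : 1 / ((i : ℕ) : ℝ) ≤ 1 / 256 := this
            linarith
          field_simp
        rw [hpi]
        congr 1
        refine if_congr ?_ rfl rfl
        rw [c1 n i j, ← hN2]
        push_cast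
        rw [ZMod.natCast_eq_natCast_iff']
      · intro i _ hi
        have hno : η i = none := by
          by_contra h
          apply hi
          unfold spp
          rw [Finset.mem_filter]
          exact ⟨Finset.mem_univ _, h⟩
        rw [hno]
        rfl
    have hFn : ∀ n ∈ Prs W s X₁ X₂, F n = ew p f +
        ∑ η ∈ univ.filter (fun η : ι → Option κ => spp η ≠ ∅), cf p f η *
          IPR.ps (∏ l ∈ spp η, (l : ℕ)) ((N η : ℕ) : ℤ) n := by
      intro n hn
      have h1 : F n = ∑ η : ι → Option κ, cf p f η *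
          IPR.ps (∏ l ∈ spp η, (l : ℕ)) ((N η : ℕ) : ℤ) n := by
        rw [← hf n, hexpn (pat Q ρ n)]
        exact Finset.sum_congr rfl fun η _ => by rw [hprod n hn η]
      rw [h1, ← Finset.sum_filter_add_sum_filter_not Finset.univ
        (fun η : ι → Option κ => spp η ≠ ∅), add_comm]
      congr 1
      have h2 : (univ.filter fun η : ι → Option κ => ¬ spp η ≠ ∅) = {fun _ => none} := by
        ext η
        rw [Finset.mem_filter, Finset.mem_singleton, not_not]
        constructor
        · rintro ⟨_, h⟩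
          funext i
          by_contra hc
          have : i ∈ spp η := by
            unfold spp
            rw [Finset.mem_filter]
            exact ⟨Finset.mem_univ _, hc⟩
          rw [h] at this
          simp at this
        · rintro rfl
          refine ⟨Finset.mem_univ _, ?_⟩
          unfold spp
          simp
      rw [h2, Finset.sum_singleton, hnone]
      have h3 : spp (fun _ : ι => (none : Option κ)) = ∅ := by
        unfold spp
        simp
      rw [h3, Finset.prod_empty]
      unfold IPR.ps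
      rw [Nat.primeFactors_one, Finset.prod_empty, mul_one]
    have hdsp : ∀ η : ι → Option κ, IPR.dsp W s (∏ l ∈ spp η, (l : ℕ)) ((N η : ℕ) : ℤ) X₁ X₂ =
        ∑ n ∈ Prs W s X₁ X₂, Real.log n * IPR.ps (∏ l ∈ spp η, (l : ℕ)) ((N η : ℕ) : ℤ) n :=
      fun η => rfl
    have hmF : mean (pr Q) F = ew u f := by
      rw [← c4 f]
      congr 1
      funext n
      exact (hf n).symm
    have hid : ∑ n ∈ Prs W s X₁ X₂, Real.log n * (F n - mean (pr Q) F) -
        ∑ η ∈ univ.filter (fun η : ι → Option κ => spp η ≠ ∅), cf p f η *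
          IPR.dsp W s (∏ l ∈ spp η, (l : ℕ)) ((N η : ℕ) : ℤ) X₁ X₂ =
        (ew p f - ew u f) * ∑ n ∈ Prs W s X₁ X₂, Real.log n := by
      have h1 : ∑ η ∈ univ.filter (fun η : ι → Option κ => spp η ≠ ∅), cf p f η *
          IPR.dsp W s (∏ l ∈ spp η, (l : ℕ)) ((N η : ℕ) : ℤ) X₁ X₂ =
          ∑ n ∈ Prs W s X₁ X₂, Real.log n *
            ∑ η ∈ univ.filter (fun η : ι → Option κ => spp η ≠ ∅), cf p f η *
              IPR.ps (∏ l ∈ spp η, (l : ℕ)) ((N η : ℕ) : ℤ) n := by
        rw [Finset.sum_congr rfl (fun η _ => by rw [hdsp η, Finset.mul_sum])]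
        rw [Finset.sum_comm]
        refine Finset.sum_congr rfl fun n _ => ?_
        rw [Finset.mul_sum]
        exact Finset.sum_congr rfl fun η _ => by ring
      rw [h1, ← Finset.sum_sub_distrib, Finset.mul_sum]
      refine Finset.sum_congr rfl fun n hn => ?_
      rw [hmF]
      have h2 := hFn n hn
      rw [← mul_sub]
      rw [h2]
      ring
    have hlog : 0 ≤ ∑ n ∈ Prs W s X₁ X₂, Real.log n := by
      refine Finset.sum_nonneg fun n _ => ?_
      exact Real.log_natCast_nonneg n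
    show |∑ n ∈ Prs W s X₁ X₂, Real.log n * (F n - mean (pr Q) F) -
        ∑ η ∈ univ.filter (fun η : ι → Option κ => spp η ≠ ∅), cf p f η *
          IPR.dsp W s (∏ l ∈ spp η, (l : ℕ)) ((N η : ℕ) : ℤ) X₁ X₂| ≤ _
    rw [hid, abs_mul, abs_of_nonneg hlog]
    refine mul_le_mul_of_nonneg_right ?_ hlog
    refine le_trans ub ?_
    rw [div_eq_mul_one_div]
    exact mul_le_mul_of_nonneg_left hexp hM

end

end Pool.Agent.CRE
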