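import Pool.Agent.CRE.Stmts2
import Pool.Agent.IPP.LEV
import Pool.Agent.IPP.AVG
import Pool.Agent.IPP.GLEV
import Pool.Agent.IPP.LPG
import Pool.Agent.IP.EDP

set_option autoImplicit false

/-!
# LPU: the core inequality of the project UIP
-/

namespace Pool.Agent.CRE

open Finset Filter Pool.Agent.Lib_helper9.LG Pool.Agent.IPP

noncomputable section

namespace LPU

/-- the numerical facts -/
lemma big : ∀ᶠ L : ℝ in atTop,
    1600 ≤ L ∧ 100 * Real.log L ≤ Real.sqrt L ∧ 2 * L ^ 2 ≤ Real.exp (L / 20) ∧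
    162 ≤ Real.exp (L / 100) ∧ 2 * L ≤ Real.exp (L / 100) := by
  have h1 := (isLittleO_log_rpow_atTop (show (0 : ℝ) < 1 / 2 by norm_num)).bound
    (show (0 : ℝ) < 1 / 100 by norm_num)
  have h3 := LPGx.pe 2 (1 / 20) 2 (by norm_num) (by norm_num)
  have h5 := LPGx.pe 0 (1 / 100) 162 (by norm_num) (by norm_num)
  have h6 := LPGx.pe 1 (1 / 100) 2 (by norm_num) (by norm_num)
  filter_upwards [h1, h3, h5, h6, eventually_ge_atTop 1600] with L a1 a3 a5 a6 a7
  refine ⟨a7, ?_, ?_, ?_, ?_⟩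
  · rw [Real.norm_of_nonneg (Real.log_nonneg (by linarith)),
      Real.norm_of_nonneg (Real.rpow_nonneg (by linarith) _), ← Real.sqrt_eq_rpow] at a1
    linarith
  · rw [show L / 20 = 1 / 20 * L by ring]
    exact a3
  · rw [show L / 100 = 1 / 100 * L by ring]
    simpa using a5
  · rw [show L / 100 = 1 / 100 * L by ring]
    simpa using a6

section mono

variable {ι κ : Type} [Fintype ι] [DecidableEq ι] [Fintype κ] [DecidableEq κ]

lemma abs_hh_mono {lam : ι → ℝ} {a B1 : ℝ} (hl : ∀ i, 0 < lam i) (ha : 0 ≤ a)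
    (hal : ∀ i, a ≤ lam i) {T T' : Finset ι} (h : T' ⊆ T) :
    |hh lam a B1 T| ≤ |hh lam a B1 T'| := by
  by_cases hT' : T' = ∅
  · subst hT'
    rw [hh_empty, abs_one]
    exact abs_hh_le hl ha hal T
  · have hT : T ≠ ∅ := fun e => hT' (subset_empty.1 (e ▸ h))
    have h1 := sz_mono (lam := lam) (fun i => (hl i).le) h
    have h2 := sz_pos hl hT'
    have h3 := sz_pos hl hT
    unfold hh
    rw [if_neg hT, if_neg hT']
    by_cases hc : sz lam T ≤ B1
    · rw [if_pos hc, if_pos (h1.trans hc), abs_div, abs_div, abs_of_pos h3, abs_of_pos h2]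
      exact div_le_div_of_nonneg_left (abs_nonneg _) h2 h1
    · rw [if_neg hc, abs_zero]
      exact abs_nonneg _

lemma mono_yy {lam : ι → ℝ} {a B B1 : ℝ} (hl : ∀ i, 0 < lam i) (ha : 0 ≤ a)
    (hal : ∀ i, a ≤ lam i) : Mono (fun α : ι → Option κ => yy lam a B B1 α) := by
  intro α β hαβ
  have hspp : spp β ⊆ spp α := by
    intro i hi
    rw [mem_spp] at hi ⊢
    rcases hαβ i with h | h
    · rwa [← h]
    · exact absurd h hi
  have hblk : ∀ k, blk β k ⊆ blk α k := by
    intro k i hi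
    rw [mem_blk] at hi ⊢
    rcases hαβ i with h | h
    · rw [← h, hi]
    · rw [h] at hi
      exact absurd hi (by simp)
  show |yy lam a B B1 α| ≤ |yy lam a B B1 β|
  unfold yy wt
  by_cases hc : sz lam (spp α) ≤ B
  · rw [if_pos hc, if_pos ((sz_mono (fun i => (hl i).le) hspp).trans hc), Finset.abs_prod,
      Finset.abs_prod]
    exact Finset.prod_le_prod (fun _ _ => abs_nonneg _) fun k _ => abs_hh_mono hl ha hal (hblk k)
  · rw [if_neg hc, abs_zero]
    exact abs_nonneg _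

end mono

section eng

variable {P : ℕ → Finset ℕ} {bb : ℕ → ℕ} {N m W b i n J : ℕ} {Q S : Finset ℕ}
  {z a B B1 VJ : ℝ}

lemma Zy_eq (h : IP.EDP.Ctx P bb N m W b i n J Q S z a B B1 VJ) :
    Zy P N Q S ∅ (fun α => yy (IP.EDP.la Q) a B B1 α) = IP.EDP.ZZ P N J Q S a B B1 := by
  unfold Zy IP.EDP.ZZ vw
  apply Finset.sum_congr rfl
  intro α _
  rw [← yy_sq, union_empty, card_map]
  by_cases hα : sz (IP.EDP.la Q) (spp α) ≤ B
  · rw [IP.EDP.Vf_le (by have := IP.EDP.card_act h.cfg α hα; omega)]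
    ring
  · have h0 : yy (IP.EDP.la Q) a B B1 α = 0 := by rw [yy, wt, if_neg hα]
    simp [h0]

lemma ZZ_one (h : IP.EDP.Ctx P bb N m W b i n J Q S z a B B1 VJ) :
    1 ≤ IP.EDP.ZZ P N J Q S a B B1 := by
  have h1 : vw (IP.EDP.la Q) B (IP.EDP.Vf P N J) (fun _ => ww (IP.EDP.la Q) (IP.EDP.qa Q) a B1)
      (fun _ : {l // l ∈ Q} => (none : Option {k // k ∈ S})) = 1 := by
    have hb : ∀ k : {k // k ∈ S},
        blk (fun _ : {l // l ∈ Q} => (none : Option {k // k ∈ S})) k = ∅ := by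
      intro k
      ext j
      rw [mem_blk]
      simp
    have ha : act (fun _ : {l // l ∈ Q} => (none : Option {k // k ∈ S})) = ∅ := by
      ext k
      rw [mem_act, hb k]
      simp
    have hs : spp (fun _ : {l // l ∈ Q} => (none : Option {k // k ∈ S})) = ∅ := by
      ext j
      rw [mem_spp]
      simp
    unfold vw wt
    rw [ha, hs, card_empty, IP.EDP.Vf_zero, sz_empty, if_pos h.hB, one_mul]
    apply Finset.prod_eq_one
    intro k _
    rw [hb k]
    exact ww_empty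
  rw [← h1]
  unfold IP.EDP.ZZ
  exact Finset.single_le_sum
    (f := fun α => vw (IP.EDP.la Q) B (IP.EDP.Vf P N J)
      (fun _ => ww (IP.EDP.la Q) (IP.EDP.qa Q) a B1) α)
    (fun α _ => vw_nonneg (fun j => IP.EDP.Vf_nonneg h.sv j)
      (fun _ T => ww_nonneg (fun j => IP.EDP.qa_pos h.cfg j) T) α) (mem_univ _)

lemma Gy_eq (c : ℕ) : Gy P bb N m Q S ∅ (fun α => yy (IP.EDP.la Q) a B B1 α) c =
    Gc P bb N m Q S a B B1 c := by
  unfold Gy Gc GD
  apply Finset.sum_congr rfl
  intro α _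
  rw [union_empty]

/-- The mean over the coprime integers against the mean over a full period, and the total
weight. -/
lemma means {η L : ℝ} (hp : IP.Par η P bb N m W b i n Q S L a B B1)
    (hLbig : 1600 ≤ L) (f2 : L ^ 100 ≤ Real.exp (η * L)) (f3 : 2 * L ^ 2 ≤ Real.exp (L / 20))
    (f7 : 162 ≤ Real.exp (L / 100)) (f8 : 2 * L ≤ Real.exp (L / 100))
    (hom : ((4 : ℝ) ^ m.primeFactors.card) ≤ (m : ℝ) ^ (1 / 10 : ℝ)) :
    IP.Th m W b i n * |IP.mn m W b n (fun x => IP.Gf P bb N m W b Q S a B B1 x ^ 2) -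
      mean (pr (SS P N ∪ Q)) (fun c => Gc P bb N m Q S a B B1 c ^ 2)| ≤
      Real.exp (99 / 100 * L) := by
  have hm0 : (0 : ℝ) < m := by exact_mod_cast hp.hm
  have hLm : L = Real.log m := hp.hL
  have hexp : (m : ℝ) = Real.exp L := by rw [hLm, Real.exp_log hm0]
  have hL0 : 0 < L := by linarith
  -- number of prime factors
  set w : ℝ := (2 : ℝ) ^ m.primeFactors.card with hw
  have hw1 : 1 ≤ w := one_le_pow₀ (by norm_num)
  have hw2 : w ^ 2 ≤ Real.exp (L / 10) := by
    have h2 : (m : ℝ) ^ (1 / 10 : ℝ) = Real.exp (L / 10) := by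
      rw [hexp, ← Real.exp_mul]
      congr 1
      ring
    rw [h2] at hom
    have h3 : w ^ 2 = (4 : ℝ) ^ m.primeFactors.card := by
      rw [hw, ← pow_mul, mul_comm, pow_mul]
      norm_num
    rwa [h3]
  -- the modulus W
  have hW1 : (1 : ℝ) ≤ W := by exact_mod_cast hp.hW
  have hW20 : (W : ℝ) ≤ Real.exp (L / 20) := by
    refine hp.hWL.trans (Real.exp_le_exp.2 ?_)
    have h1 := Real.sq_sqrt hL0.le
    have h2 : 40 ≤ Real.sqrt L := by
      apply Real.le_sqrt_of_sq_le
      linarith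
    nlinarith
  have hWm' : W ≤ m := by
    have h1 : (W : ℝ) ≤ m := by
      rw [hexp]
      exact hW20.trans (Real.exp_le_exp.2 (by linarith))
    exact_mod_cast h1
  have hn := hp.hn
  have hWpos : 0 < W := hp.hW
  have hn1 : W * n ≤ m := by rw [hn]; exact Nat.mul_div_le m W
  have hnpos : 1 ≤ n := by
    rw [hn]
    exact Nat.div_pos hWm' hWpos
  have hn2 : m ≤ 2 * (W * n) := by
    have h1 := Nat.div_add_mod m W
    have h2 := Nat.mod_lt m hWpos
    rw [← hn] at h1
    have h3 : W ≤ W * n := Nat.le_mul_of_pos_right W hnpos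
    omega
  have hn2r : (m : ℝ) ≤ 2 * (W * n) := by exact_mod_cast hn2
  have hnr : (0 : ℝ) < n := by exact_mod_cast hnpos
  -- sites
  have hScard := LPGx.cardS S L hp.hk
  have hS0 : (0 : ℝ) ≤ S.card := Nat.cast_nonneg _
  have hL1 : 1 ≤ L := by linarith
  have hS2 : (S.card : ℝ) ≤ 2 * L ^ 2 := by
    have : 1 ≤ L ^ 2 := one_le_pow₀ hL1
    linarith
  have hL7 : L ^ 7 ≤ L ^ 100 := pow_le_pow_right₀ hL1 (by norm_num)
  -- the primes
  set Qt : Finset ℕ := SS P N ∪ Q with hQt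
  have hlarge : ∀ l ∈ Qt, l.Prime ∧ ¬ l ∣ m ∧ ¬ l ∣ W ∧ L ^ 100 ≤ (l : ℝ) := by
    intro l hl
    rcases mem_union.1 hl with h | h
    · obtain ⟨a1, a2, a3, a4, _⟩ := hp.hS l h
      exact ⟨a1, a2, a3, a4.le⟩
    · obtain ⟨a1, a2, a3, a4, _⟩ := hp.hQ l h
      exact ⟨a1, a2, a3, f2.trans a4.le⟩
  -- the level of G
  set G : ℕ → ℝ := fun c => Gc P bb N m Q S a B B1 c with hG
  have hz1 : (1 : ℝ) ≤ L ^ 100 := one_le_pow₀ hL1
  have hz4 : 2 * (S.card : ℝ) ≤ L ^ 100 := by
    have h1 : 4 * L ^ 2 ≤ L ^ 7 := by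
      have h2 : (4 : ℝ) ≤ L ^ 5 := by
        calc (4 : ℝ) ≤ 1600 ^ 5 := by norm_num
          _ ≤ L ^ 5 := by gcongr
      calc 4 * L ^ 2 ≤ L ^ 5 * L ^ 2 := by gcongr
        _ = L ^ 7 := by ring
    linarith
  have hsum := LPGx.sumC Q S (L ^ 100) hz1
    (fun l hl => lt_of_le_of_lt f2 (hp.hQ l hl).2.2.2.1) hz4
  have hal : ∀ l ∈ Q, a ≤ Real.log l := by
    intro l hl
    have h1 := (hp.hQ l hl).2.2.2.1
    have h2 : (0 : ℝ) < l := (Real.exp_pos _).trans h1
    have h3 : η * L < Real.log l := (Real.lt_log_iff_exp_lt h2).2 h1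
    exact hp.haη.trans h3.le
  have hlev := glev lev P bb N m Q S a B B1 3 (fun l hl => (hlarge l hl).1) hp.ha hal hsum
  obtain ⟨D0, hD0⟩ : ∃ D0 : ℝ, D0 = Real.exp (3 * B) * 3 * LV P bb N := ⟨_, rfl⟩
  rw [← hD0] at hlev
  have hLV1 : 1 ≤ LV P bb N := IP.EDP.LV_one
  have hB0 : 0 ≤ B := hp.hB1.le.trans hp.hB1B
  have hD01 : 1 ≤ D0 := by
    rw [hD0]
    have h1 : 1 ≤ Real.exp (3 * B) := Real.one_le_exp (by linarith)
    have h2 : 1 ≤ Real.exp (3 * B) * 3 := by linarith
    exact one_le_mul_of_one_le_of_one_le h2 hLV1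
  have hD00 : 0 < D0 := by linarith
  have hD0u : D0 ≤ 3 * Real.exp (13 / 10000 * L) := by
    have h1 := hp.hB
    calc D0 = Real.exp (3 * B) * 3 * LV P bb N := hD0
      _ ≤ Real.exp (3 / 10000 * L) * 3 * Real.exp (L / 1000) := by
          have h2 : 3 * B ≤ 3 / 10000 * L := by linarith
          have h3 := hp.hLV
          gcongr
      _ = 3 * (Real.exp (3 / 10000 * L) * Real.exp (L / 1000)) := by ring
      _ = 3 * Real.exp (13 / 10000 * L) := by
          rw [← Real.exp_add]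
          congr 2
          ring
  have hD2u : D0 ^ 2 ≤ 81 * Real.exp (52 / 10000 * L) := by
    calc D0 ^ 2 ≤ (3 * Real.exp (13 / 10000 * L)) ^ 2 := by gcongr
      _ = 9 * Real.exp (26 / 10000 * L) := by
          rw [mul_pow, ← Real.exp_nat_mul]
          have h5 : ((2 : ℕ) : ℝ) * (13 / 10000 * L) = 26 / 10000 * L := by push_cast; ring
          rw [h5]
          norm_num
      _ ≤ 81 * Real.exp (52 / 10000 * L) := by
          apply mul_le_mul (by norm_num) (Real.exp_le_exp.2 (by linarith)) (Real.exp_pos _).le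
            (by norm_num)
  obtain ⟨_, hmul, _⟩ := lev Qt (fun l hl => (hlarge l hl).1)
  have hG2 : Lev Qt (D0 ^ 2) (fun c => G c ^ 2) := by
    have h1 := hmul _ _ _ _ hlev hlev
    have e1 : D0 * D0 = D0 ^ 2 := (sq D0).symm
    have e2 : (fun c => G c * G c) = fun c => G c ^ 2 := by
      funext c
      exact (sq _).symm
    rw [e1] at h1
    rw [← e2]
    exact h1
  -- the averages
  have hcop : ∀ l ∈ Qt, l.Prime ∧ ¬ l ∣ m ∧ ¬ l ∣ W := fun l hl =>
    ⟨(hlarge l hl).1, (hlarge l hl).2.1, (hlarge l hl).2.2.1⟩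
  have hA2 := IPP.avg Qt m W b n (D0 ^ 2) (fun c => G c ^ 2) hp.hm hp.hW hp.hWm hcop hG2
  have hρ := LPGx.two_pow_totient m hp.hm
  have hB2 := LPGx.dv _ _ _ _ _ w n rfl hnr hw1 hρ (by positivity) hA2
  have hn3 : Real.exp (95 / 100 * L) ≤ 2 * n := by
    have h1 : Real.exp (L / 20) * Real.exp (95 / 100 * L) ≤ Real.exp (L / 20) * (2 * n) := by
      calc Real.exp (L / 20) * Real.exp (95 / 100 * L) = m := by
            rw [← Real.exp_add, hexp]
            congr 1
            ring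
        _ ≤ 2 * (W * n) := hn2r
        _ ≤ 2 * (Real.exp (L / 20) * n) := by gcongr
        _ = Real.exp (L / 20) * (2 * n) := by ring
    exact le_of_mul_le_mul_left h1 (Real.exp_pos _)
  have he : w ^ 2 * D0 ^ 2 / n ≤ Real.exp (-(83 / 100) * L) := by
    rw [div_le_iff₀ hnr]
    have h1 : w ^ 2 * D0 ^ 2 ≤ Real.exp (L / 10) * (81 * Real.exp (52 / 10000 * L)) := by
      gcongr
    have h2 : 162 * (Real.exp (L / 10) * Real.exp (52 / 10000 * L)) ≤
        Real.exp (-(83 / 100) * L) * Real.exp (95 / 100 * L) := by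
      calc 162 * (Real.exp (L / 10) * Real.exp (52 / 10000 * L)) ≤
            Real.exp (L / 100) * (Real.exp (L / 10) * Real.exp (52 / 10000 * L)) := by gcongr
        _ = Real.exp (L / 100 + (L / 10 + 52 / 10000 * L)) := by rw [Real.exp_add, Real.exp_add]
        _ ≤ Real.exp (-(83 / 100) * L + 95 / 100 * L) := Real.exp_le_exp.2 (by linarith)
        _ = _ := Real.exp_add _ _
    have h3 : Real.exp (-(83 / 100) * L) * Real.exp (95 / 100 * L) ≤
        Real.exp (-(83 / 100) * L) * (2 * n) := by gcongr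
    linarith
  -- the total weight
  have hi1 : (i : ℝ) + 1 ≤ Real.exp (L / 20) := by
    have h1 := hp.hiL
    have h2 : 1 ≤ L ^ 2 := one_le_pow₀ hL1
    linarith
  have hlw : ∀ x ∈ IP.Pi m W b i n, IP.lw m W b i x ≤ 2 * L := by
    intro x hx
    have hxn : x < n := by
      rw [IP.Pi, mem_filter, mem_range] at hx
      exact hx.1
    have h1 : b + W * x + i * m ≤ (i + 1) * m := by
      have h2 : b + W * x ≤ W * n := by
        have h3 : W * (x + 1) ≤ W * n := Nat.mul_le_mul_left W hxn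
        have h4 := hp.hb
        rw [mul_add, mul_one] at h3
        omega
      have h5 : b + W * x ≤ m := h2.trans hn1
      rw [add_mul, one_mul]
      omega
    have h2 : ((b + W * x + i * m : ℕ) : ℝ) ≤ ((i : ℝ) + 1) * m := by exact_mod_cast h1
    rcases Nat.eq_zero_or_pos (b + W * x + i * m) with h0 | h0
    · rw [IP.lw, h0]
      simp only [Nat.cast_zero, Real.log_zero]
      linarith
    · have h3 : (0 : ℝ) < ((b + W * x + i * m : ℕ) : ℝ) := by exact_mod_cast h0
      rw [IP.lw, Real.log_le_iff_le_exp h3]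
      calc ((b + W * x + i * m : ℕ) : ℝ) ≤ ((i : ℝ) + 1) * m := h2
        _ ≤ Real.exp (L / 20) * Real.exp L := by
            rw [hexp]
            gcongr
        _ = Real.exp (L / 20 + L) := (Real.exp_add _ _).symm
        _ ≤ Real.exp (2 * L) := Real.exp_le_exp.2 (by linarith)
  have hTh0 : 0 ≤ IP.Th m W b i n := by
    rw [IP.Th]
    apply Finset.sum_nonneg
    intro x _
    exact Real.log_natCast_nonneg _
  have hTh : IP.Th m W b i n ≤ 2 * L * Real.exp L := by
    rw [IP.Th]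
    refine (Finset.sum_le_card_nsmul _ _ _ hlw).trans ?_
    rw [nsmul_eq_mul]
    have h1 : ((IP.Pi m W b i n).card : ℝ) ≤ n := by
      have h2 : (IP.Pi m W b i n).card ≤ (range n).card := card_filter_le _ _
      rw [card_range] at h2
      exact_mod_cast h2
    have h3 : (n : ℝ) ≤ Real.exp L := by
      rw [← hexp]
      have h4 : n ≤ m := by
        calc n = 1 * n := (one_mul n).symm
          _ ≤ W * n := Nat.mul_le_mul_right n hWpos
          _ ≤ m := hn1
      exact_mod_cast h4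
    calc ((IP.Pi m W b i n).card : ℝ) * (2 * L) ≤ Real.exp L * (2 * L) := by
          gcongr
          exact h1.trans h3
      _ = _ := by ring
  have hM2 : IP.mn m W b n (fun x => IP.Gf P bb N m W b Q S a B B1 x ^ 2) =
      (∑ x ∈ (range n).filter (fun x => (b + W * x).Coprime m), G (b + W * x) ^ 2) /
        ((n : ℝ) * ((m.totient : ℝ) / m)) := rfl
  rw [← hM2] at hB2
  calc IP.Th m W b i n * |IP.mn m W b n (fun x => IP.Gf P bb N m W b Q S a B B1 x ^ 2) -
      mean (pr Qt) (fun c => G c ^ 2)| ≤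
        (2 * L * Real.exp L) * Real.exp (-(83 / 100) * L) := by
        apply mul_le_mul hTh (hB2.trans he) (abs_nonneg _) (by positivity)
    _ ≤ (Real.exp (L / 100) * Real.exp L) * Real.exp (-(83 / 100) * L) := by gcongr
    _ = Real.exp (L / 100 + L + -(83 / 100) * L) := by rw [Real.exp_add, Real.exp_add]
    _ ≤ Real.exp (99 / 100 * L) := Real.exp_le_exp.2 (by linarith)

lemma yy_of_ne {α : {l // l ∈ Q} → Option {k // k ∈ S}}
    (h : yy (IP.EDP.la Q) a B B1 α ≠ 0) : sz (IP.EDP.la Q) (spp α) ≤ B := by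
  by_contra hc
  exact h (by rw [yy, wt, if_neg hc])

/-- The conditions of the core. -/
lemma cfg_of {η L : ℝ} (hp : IP.Par η P bb N m W b i n Q S L a B B1)
    (h : IP.EDP.Ctx P bb N m W b i n J Q S (Real.exp (η * L)) a B B1 VJ) (hS : S.Nonempty)
    (hsm : 4 * J * S.card / Real.exp (η * L) ≤ 1) :
    Cfg P bb N m J Q S ∅ (fun α => yy (IP.EDP.la Q) a B B1 α) where
  disj := hp.hd
  pS := fun l hl => ⟨(h.sv.hS1 l hl).1, (h.sv.hS1 l hl).2.1, (h.sv.hS1 l hl).2.2.2⟩
  pQ := fun l hl => ⟨(h.hQ1 l hl).1, (h.hQ1 l hl).2.1,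
    fun hs => (Finset.disjoint_left.1 h.hdQ hs) hl⟩
  ne := hS
  DS := empty_subset _
  lt := by
    intro k hk l hl
    rcases mem_union.1 hl with h1 | h1
    · exact h.sv.hkS k (mem_insert_of_mem hk) l h1
    · exact h.hkQ k (mem_insert_of_mem hk) l h1
  blk := h.sv.hsum
  bb := h.sv.hb
  card := by
    intro α hα
    rw [union_empty, card_map]
    have := IP.EDP.card_act h.cfg α (yy_of_ne hα)
    omega
  mono := mono_yy (IP.EDP.la_pos h.cfg) h.ha (fun j => h.haz.trans (IP.EDP.la_le h.cfg j))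
  eps := by
    intro α hα
    have h1 := IP.EDP.eps_cfg h.cfg α (yy_of_ne hα)
    rw [Fintype.card_coe] at h1
    refine le_trans ?_ (h1.trans (by linarith))
    exact le_refl _

/-- The function `G` without sites. -/
lemma Gc_empty (hB : 0 ≤ B) (c : ℕ) : Gc P bb N m Q ∅ a B B1 c = 1 := by
  unfold Gc GD
  have hu : ∀ α : {l // l ∈ Q} → Option {k // k ∈ (∅ : Finset ℕ)}, α = fun _ => none := by
    intro α
    funext j
    rcases hj : α j with _ | k
    · rfl
    · exact absurd k.2 (notMem_empty _)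
  rw [Fintype.sum_eq_single (fun _ => none) (fun α hα => absurd (hu α) hα)]
  have hs : spp (fun _ : {l // l ∈ Q} => (none : Option {k // k ∈ (∅ : Finset ℕ)})) = ∅ := by
    ext j
    rw [mem_spp]
    simp
  have h1 : yy (fun j : {l // l ∈ Q} => Real.log ((j : ℕ) : ℝ)) a B B1
      (fun _ => (none : Option {k // k ∈ (∅ : Finset ℕ)})) = 1 := by
    unfold yy wt
    rw [hs, sz_empty, if_pos hB]
    exact Finset.prod_eq_one fun k _ => absurd k.2 (notMem_empty _)
  have h2 : (act (fun _ : {l // l ∈ Q} => (none : Option {k // k ∈ (∅ : Finset ℕ)}))).map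
      (Function.Embedding.subtype _) = ∅ := by
    rw [Finset.map_eq_empty]
    ext k
    exact absurd k.2 (notMem_empty _)
  obtain ⟨-, -, -, -, hL0, hL1, hL2⟩ := NNd.nn
  rw [h1]
  beta_reduce
  rw [h2, hL1]
  unfold vl
  simp

lemma mean_one {Qt : Finset ℕ} (h : ∀ l ∈ Qt, l.Prime) : mean (pr Qt) (fun _ => (1 : ℝ)) = 1 := by
  unfold mean
  rw [Finset.sum_const, card_range, nsmul_eq_mul, mul_one]
  apply div_self
  have : 0 < pr Qt := Finset.prod_pos fun l hl => (h l hl).pos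
  exact_mod_cast this.ne'

end eng

end LPU

open LPU in
/-- **The module.** -/
theorem t_LPU : M_LPU := by
  intro hLPY
  obtain ⟨m₁, hm₁⟩ := hLPY
  obtain ⟨X₀, hX₀⟩ := OmD.om 1
  obtain ⟨L₀, hL₀⟩ := eventually_atTop.1 big
  refine ⟨m₁ + ⌈Real.exp L₀⌉₊ + ⌈X₀⌉₊ + 1, fun m hm η hη hη8 hηL P bb N W b i n J Q S L a B B1 VJ
    hp hctx hJη hVJ => ?_⟩
  have hm0 : (0 : ℝ) < m := by exact_mod_cast hp.hm
  have hLm : L = Real.log m := hp.hL
  have hexp : (m : ℝ) = Real.exp L := by rw [hLm, Real.exp_log hm0]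
  have hmr : ((⌈Real.exp L₀⌉₊ + ⌈X₀⌉₊ : ℕ) : ℝ) ≤ (m : ℝ) := by
    exact_mod_cast (by omega : ⌈Real.exp L₀⌉₊ + ⌈X₀⌉₊ ≤ m)
  push_cast at hmr
  have hce1 := Nat.le_ceil (Real.exp L₀)
  have hce2 := Nat.le_ceil X₀
  have hc0 : (0 : ℝ) ≤ (⌈X₀⌉₊ : ℝ) := Nat.cast_nonneg _
  have hc0' : (0 : ℝ) ≤ (⌈Real.exp L₀⌉₊ : ℝ) := Nat.cast_nonneg _
  have hLL : L₀ ≤ L := by
    rw [hLm, Real.le_log_iff_exp_le hm0]
    linarith
  obtain ⟨f1, fl, f3, f7, f8⟩ := hL₀ L hLL
  have hL0 : 0 < L := by linarith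
  have hη1 : η ≤ 1 := hη8.trans (by norm_num)
  rw [← hLm] at hηL
  obtain ⟨e1, e2, e3, e4⟩ := UNI.eta_facts hη hη1 (by linarith) hηL
  have f2 : L ^ 100 ≤ Real.exp (η * L) := by
    calc L ^ 100 = Real.exp (((100 : ℕ) : ℝ) * Real.log L) := by
          rw [Real.exp_nat_mul, Real.exp_log hL0]
      _ ≤ _ := Real.exp_le_exp.2 (by push_cast; linarith)
  have hom : ((4 : ℝ) ^ m.primeFactors.card) ≤ (m : ℝ) ^ (1 / 10 : ℝ) := by
    have h1 := hX₀ m (by linarith) m hp.hm (by simp)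
    exact h1
  have hmeans := means hp f1 f2 f3 f7 f8 hom
  have hZ1 := ZZ_one hctx
  have hW0 : (0 : ℝ) < W.totient := by exact_mod_cast Nat.totient_pos.2 hp.hW
  -- the core
  have hcore : |∑ x ∈ IP.Pi m W b i n, IP.lw m W b i x * IP.Gf P bb N m W b Q S a B B1 x ^ 2 -
      IP.Th m W b i n * mean (pr (SS P N ∪ Q)) (fun c => Gc P bb N m Q S a B B1 c ^ 2)| ≤
      IP.EDP.ZZ P N J Q S a B B1 * (Real.exp L / (W.totient * L ^ 20)) := by
    rcases S.eq_empty_or_nonempty with hSe | hSne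
    · subst hSe
      have hg : ∀ x, IP.Gf P bb N m W b Q ∅ a B B1 x = 1 := fun x =>
        Gc_empty (m := m) (Q := Q) hctx.hB (b + W * x)
      have h1 : ∑ x ∈ IP.Pi m W b i n, IP.lw m W b i x * IP.Gf P bb N m W b Q ∅ a B B1 x ^ 2 =
          IP.Th m W b i n := by
        rw [IP.Th]
        apply Finset.sum_congr rfl
        intro x _
        rw [hg x]
        ring
      have h2 : mean (pr (SS P N ∪ Q)) (fun c => Gc P bb N m Q ∅ a B B1 c ^ 2) = 1 := by
        have h3 : (fun c => Gc P bb N m Q ∅ a B B1 c ^ 2) = fun _ => (1 : ℝ) := by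
          funext c
          rw [Gc_empty hctx.hB c]
          norm_num
        rw [h3]
        apply mean_one
        intro l hl
        rcases mem_union.1 hl with h | h
        · exact (hp.hS l h).1
        · exact (hp.hQ l h).1
      rw [h1, h2, mul_one, sub_self, abs_zero]
      positivity
    · -- `4 J |S| / z ≤ 1`
      have hsm : 4 * J * S.card / Real.exp (η * L) ≤ 1 := by
        rw [div_le_one (Real.exp_pos _)]
        refine le_trans ?_ f2
        have h1 := LPGx.cardS S L hp.hk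
        have h2 : (1 : ℝ) ≤ L ^ 2 := one_le_pow₀ (by linarith)
        have h3 : (J : ℝ) ≤ L := by
          have h4 : (J : ℝ) ≤ 1 / η := by
            rw [le_div_iff₀ hη]
            exact hJη.trans (by norm_num)
          have h5 : Real.sqrt L ≤ L := by
            rw [Real.sqrt_le_left (by linarith)]
            nlinarith
          linarith
        have hJ0 : (0 : ℝ) ≤ J := Nat.cast_nonneg _
        have h6 : 4 * J * (S.card : ℝ) ≤ 4 * L * (2 * L ^ 2) := by
          apply mul_le_mul (by linarith) (by linarith) (Nat.cast_nonneg _) (by positivity)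
        have h7 := LPGx.l7 L f1
        have h8 : (8 : ℝ) ≤ L ^ 4 :=
          (by norm_num : (8 : ℝ) ≤ 1600 ^ 4).trans (pow_le_pow_left₀ (by norm_num) f1 4)
        have h9 : 8 * L ^ 3 ≤ L ^ 4 * L ^ 3 := mul_le_mul_of_nonneg_right h8 (by positivity)
        have h10 : L ^ 4 * L ^ 3 = L ^ 7 := by ring
        have h11 : 4 * L * (2 * L ^ 2) = 8 * L ^ 3 := by ring
        linarith
      have hcfg := cfg_of hp hctx hSne hsm
      have key := hm₁ m (by omega) P bb N W b i n J Q S ∅ (fun α => yy (IP.EDP.la Q) a B B1 α) L B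
        hLm hcfg hp.hW hp.hWL hp.hb hp.hbi hp.hi hp.hiL hp.hn
        (by
          intro l hl
          rcases mem_union.1 hl with h | h
          · exact ⟨(hp.hS l h).2.2.1, (hp.hS l h).2.2.2.1⟩
          · exact ⟨(hp.hQ l h).2.2.1, lt_of_le_of_lt f2 (hp.hQ l h).2.2.2.1⟩)
        (by
          intro l hl
          refine (hp.hQ l hl).2.2.2.2.trans (Real.exp_le_exp.2 ?_)
          have h1 := hp.hB1B
          have h2 := hp.hB
          linarith)
        hp.hk hp.hiS hp.hLV hctx.hB hp.hB (fun α hα => yy_of_ne hα)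
      rw [Zy_eq hctx] at key
      have h1 : (fun c => Gy P bb N m Q S ∅ (fun α => yy (IP.EDP.la Q) a B B1 α) c ^ 2) =
          fun c => Gc P bb N m Q S a B B1 c ^ 2 := by
        funext c
        rw [Gy_eq]
      rw [h1] at key
      have h2 : ∑ x ∈ IP.Pi m W b i n, IP.lw m W b i x *
          Gy P bb N m Q S ∅ (fun α => yy (IP.EDP.la Q) a B B1 α) (b + W * x) ^ 2 =
          ∑ x ∈ IP.Pi m W b i n, IP.lw m W b i x * IP.Gf P bb N m W b Q S a B B1 x ^ 2 := by
        apply Finset.sum_congr rfl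
        intro x _
        rw [Gy_eq]
        rfl
      rw [h2] at key
      exact key
  have hTh0 : 0 ≤ IP.Th m W b i n := by
    rw [IP.Th]
    apply Finset.sum_nonneg
    intro x _
    exact Real.log_natCast_nonneg _
  unfold UIP.LPh
  set X : ℝ := ∑ x ∈ IP.Pi m W b i n, IP.lw m W b i x * IP.Gf P bb N m W b Q S a B B1 x ^ 2
    with hX
  set T : ℝ := IP.Th m W b i n with hT
  set M : ℝ := IP.mn m W b n (fun x => IP.Gf P bb N m W b Q S a B B1 x ^ 2) with hM
  set E : ℝ := mean (pr (SS P N ∪ Q)) (fun c => Gc P bb N m Q S a B B1 c ^ 2) with hE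
  set Z : ℝ := IP.EDP.ZZ P N J Q S a B B1 with hZ
  have h1 : |X - T * M| ≤ |X - T * E| + T * |M - E| := by
    have h5 : X - T * M = (X - T * E) + -(T * (M - E)) := by ring
    rw [h5]
    refine (abs_add_le _ _).trans ?_
    rw [abs_neg, abs_mul, abs_of_nonneg hTh0]
  have h2 : Real.exp (99 / 100 * L) ≤ Real.exp (99 / 100 * L) * Z :=
    le_mul_of_one_le_right (Real.exp_pos _).le hZ1
  rw [add_mul]
  linarith

end

end Pool.Agent.CRE
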