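import Pool.Agent.CRE.Stmts
import Pool.Agent.IPP.INT
import Pool.Agent.IPP.FAC
import Pool.Agent.IPP.LPG

set_option autoImplicit false

/-!
LPY: the second moment of `G` over the primes `b + W x + i m`.
-/

namespace Pool.Agent.CRE

open Finset Filter Pool.Agent.Lib_helper9.LG Pool.Agent.IPP

noncomputable section

namespace LPYx

lemma con_per {Q : Finset ℕ} {D : ℝ} {g : ℕ → ℝ} (h : Con Q D g) : ∀ n, g (n + pr Q) = g n := by
  induction h with
  | base E g hE hp hD =>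
    intro n
    have h1 : pr E ∣ pr Q := Finset.prod_dvd_prod_of_subset E Q _ hE
    obtain ⟨c, hc⟩ := h1
    rw [hc, mul_comm]
    exact INTx.per_mul _ g hp c n
  | add hg hh ihg ihh =>
    intro n
    simp only [ihg n, ihh n]

lemma sum_Prs (W b K n : ℕ) (hW : 1 ≤ W) (hb : b < W) (hK : 1 ≤ K) (f : ℕ → ℝ) :
    ∑ p ∈ Prs W (b + K) (K - 1) (K + W * n - 1), f p =
      ∑ x ∈ (range n).filter (fun x => (b + W * x + K).Prime), f (b + W * x + K) := by
  classical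
  have h1 := INTx.sum_class W b K n hW hb hK (fun p => if p.Prime then f p else 0)
  have h2 : Prs W (b + K) (K - 1) (K + W * n - 1) =
      ((Ioc (K - 1) (K + W * n - 1)).filter (fun p => p % W = (b + K) % W)).filter
        (fun p => p.Prime) := by
    ext p
    simp only [Prs, mem_filter, Nat.ModEq]
    tauto
  rw [h2, Finset.sum_filter, Finset.sum_filter (s := range n), h1]

lemma shift_eq (n K q : ℕ) (hq : 1 ≤ q) : n + K + K * (q - 1) = n + K * q := by
  obtain ⟨q', rfl⟩ : ∃ q', q = q' + 1 := ⟨q - 1, by omega⟩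
  rw [Nat.add_sub_cancel]
  ring

lemma num (C₁ L Z w X lX Th φ : ℝ) (hL : 6400 ≤ L) (hC : 0 < C₁) (hCL : 256 * C₁ ≤ L)
    (hZ : 0 ≤ Z) (hw : 1 ≤ w) (hφ : 0 < φ) (hφw : φ ≤ w) (hX0 : 0 ≤ X)
    (hX : X ≤ (L ^ 2 + 1) * Real.exp L) (hlX0 : 0 ≤ lX) (hlX : lX ≤ 2 * L)
    (hTh : Th ≤ Real.exp L / w * (2 * L)) :
    4 * Z * (C₁ * X * lX ^ 4 / (w * (L ^ 100) ^ (1 / 3 : ℝ)) + 1 / Real.sqrt (L ^ 100) * Th) ≤
      Z * (Real.exp L / (φ * L ^ 20)) := by
  have hL0 : 0 < L := by linarith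
  have hL1 : 1 ≤ L := by linarith
  have hw0 : 0 < w := by linarith
  obtain ⟨e, he⟩ : ∃ e, e = Real.exp L := ⟨_, rfl⟩
  have he0 : 0 < e := by rw [he]; exact Real.exp_pos _
  rw [← he] at hX hTh ⊢
  have hT : L ^ 33 ≤ (L ^ 100) ^ (1 / 3 : ℝ) := by
    calc L ^ 33 = ((L ^ 33) ^ 3) ^ (((3 : ℕ) : ℝ)⁻¹) :=
          (Real.pow_rpow_inv_natCast (by positivity) (by norm_num)).symm
      _ = (L ^ 99) ^ (1 / 3 : ℝ) := by
          rw [← pow_mul]
          norm_num
      _ ≤ (L ^ 100) ^ (1 / 3 : ℝ) := by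
          apply Real.rpow_le_rpow (by positivity) _ (by norm_num)
          exact pow_le_pow_right₀ hL1 (by norm_num)
  obtain ⟨T, hTe⟩ : ∃ T, T = (L ^ 100) ^ (1 / 3 : ℝ) := ⟨_, rfl⟩
  rw [← hTe] at hT ⊢
  have hT0 : 0 < T := lt_of_lt_of_le (by positivity) hT
  have hs : Real.sqrt (L ^ 100) = L ^ 50 := by
    rw [show L ^ 100 = (L ^ 50) ^ 2 by ring]
    exact Real.sqrt_sq (by positivity)
  rw [hs]
  have hL2 : L ^ 2 + 1 ≤ 2 * L ^ 2 := by
    have : 1 ≤ L ^ 2 := one_le_pow₀ hL1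
    linarith
  have h1 : C₁ * X * lX ^ 4 / (w * T) ≤ e / w / (8 * L ^ 20) := by
    rw [div_div, div_le_div_iff₀ (by positivity) (by positivity)]
    have a1 : C₁ * X * lX ^ 4 ≤ C₁ * (2 * L ^ 2 * e) * (2 * L) ^ 4 := by
      have : X ≤ 2 * L ^ 2 * e := hX.trans (by gcongr)
      gcongr
    have a2 : C₁ * (2 * L ^ 2 * e) * (2 * L) ^ 4 * (8 * L ^ 20) ≤ e * L ^ 33 := by
      calc C₁ * (2 * L ^ 2 * e) * (2 * L) ^ 4 * (8 * L ^ 20) = (256 * C₁) * (e * L ^ 26) := by ring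
        _ ≤ L * (e * L ^ 26) := by gcongr
        _ = e * L ^ 27 := by ring
        _ ≤ e * L ^ 33 := by
            have : L ^ 27 ≤ L ^ 33 := pow_le_pow_right₀ hL1 (by norm_num)
            gcongr
    calc C₁ * X * lX ^ 4 * (w * (8 * L ^ 20)) = w * (C₁ * X * lX ^ 4 * (8 * L ^ 20)) := by ring
      _ ≤ w * (C₁ * (2 * L ^ 2 * e) * (2 * L) ^ 4 * (8 * L ^ 20)) := by gcongr
      _ ≤ w * (e * L ^ 33) := by gcongr
      _ ≤ w * (e * T) := by gcongr
      _ = e * (w * T) := by ring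
  have h2 : 1 / L ^ 50 * Th ≤ e / w / (8 * L ^ 20) := by
    calc 1 / L ^ 50 * Th ≤ 1 / L ^ 50 * (e / w * (2 * L)) := by gcongr
      _ ≤ e / w / (8 * L ^ 20) := by
          rw [div_mul_eq_mul_div, one_mul, div_le_div_iff₀ (by positivity) (by positivity)]
          have a1 : 16 * L ^ 21 ≤ L ^ 50 := by
            calc 16 * L ^ 21 ≤ L * L ^ 21 := by
                  have : 16 ≤ L := by linarith
                  gcongr
              _ = L ^ 22 := by ring
              _ ≤ L ^ 50 := pow_le_pow_right₀ hL1 (by norm_num)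
          have a2 : 0 < e / w := by positivity
          calc e / w * (2 * L) * (8 * L ^ 20) = e / w * (16 * L ^ 21) := by ring
            _ ≤ e / w * L ^ 50 := by gcongr
  calc 4 * Z * (C₁ * X * lX ^ 4 / (w * T) + 1 / L ^ 50 * Th) ≤
        4 * Z * (e / w / (8 * L ^ 20) + e / w / (8 * L ^ 20)) := by gcongr
    _ = Z * (e / (w * L ^ 20)) := by
        field_simp
        ring
    _ ≤ Z * (e / (φ * L ^ 20)) := by gcongr

lemma big (C₁ : ℝ) (hC : 0 < C₁) : ∀ᶠ L : ℝ in atTop,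
    6400 ≤ L ∧ C₁ ≤ Real.exp L ∧ 256 * C₁ ≤ L ∧ 2 * L ^ 2 ≤ Real.exp (L / 20) := by
  have h2 := LPGx.pe 2 (1 / 20) 2 (by norm_num) (by norm_num)
  have h3 := LPGx.pe 0 1 C₁ one_pos hC
  filter_upwards [h2, h3, eventually_ge_atTop 6400, eventually_ge_atTop (256 * C₁)]
    with L a2 a3 a7 a8
  refine ⟨a7, by simpa using a3, a8, ?_⟩
  rw [show L / 20 = 1 / 20 * L by ring]
  exact a2

lemma k8 (L K : ℝ) (hL : 6400 ≤ L) (hK0 : 0 ≤ K) (hK : K ≤ L ^ 2 + 1) :
    (8 * 32 * (K + 1)) ^ 8 ≤ L ^ 100 := by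
  have hL0 : 0 < L := by linarith
  have hL1 : 1 ≤ L := by linarith
  have h1 : K + 1 ≤ 3 * L ^ 2 := by
    have : 1 ≤ L ^ 2 := one_le_pow₀ hL1
    linarith
  have h2 : 8 * 32 * (K + 1) ≤ L ^ 3 := by
    calc 8 * 32 * (K + 1) ≤ 8 * 32 * (3 * L ^ 2) := by gcongr
      _ = 768 * L ^ 2 := by ring
      _ ≤ L * L ^ 2 := by
          have : 768 ≤ L := by linarith
          gcongr
      _ = L ^ 3 := by ring
  calc (8 * 32 * (K + 1)) ^ 8 ≤ (L ^ 3) ^ 8 := by gcongr
    _ = L ^ 24 := by ring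
    _ ≤ L ^ 100 := pow_le_pow_right₀ hL1 (by norm_num)

end LPYx

open LPYx in
/-- LPY. -/
theorem t_LPY : M_LPY := by
  intro hLPA hLOC hFCY hCNY hCOA
  obtain ⟨C₁, hC₁, hLPA⟩ := hLPA
  obtain ⟨L₀, hL₀⟩ := eventually_atTop.1 (big C₁ hC₁)
  refine ⟨⌈Real.exp L₀⌉₊ + 1, fun m hm P bb N W b i n J Q' S D y L B hLm hcfg hW hWL hb hbi hi hiL
    hn hQ hQ' hk hiS hLV hB0 hB hsz => ?_⟩
  have hm1 : 1 ≤ m := by omega
  have hm0 : (0 : ℝ) < m := by exact_mod_cast hm1
  have hexp : (m : ℝ) = Real.exp L := by rw [hLm, Real.exp_log hm0]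
  have hmr : ((⌈Real.exp L₀⌉₊ + 1 : ℕ) : ℝ) ≤ (m : ℝ) := by exact_mod_cast hm
  push_cast at hmr
  have hce1 := Nat.le_ceil (Real.exp L₀)
  have hLL : L₀ ≤ L := by
    rw [hLm, Real.le_log_iff_exp_le hm0]
    linarith
  obtain ⟨f1, f2, f3, f4⟩ := hL₀ L hLL
  have hL0 : 0 < L := by linarith
  have hL1 : 1 ≤ L := by linarith
  -- the modulus W
  have hW1 : (1 : ℝ) ≤ W := by exact_mod_cast hW
  have hWpos : 0 < W := hW
  have hn1 : W * n ≤ m := by rw [hn]; exact Nat.mul_div_le m W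
  -- the primes
  obtain ⟨Qt, hQt⟩ : ∃ Qt, Qt = SS P N ∪ Q' := ⟨_, rfl⟩
  rw [← hQt] at hQ
  have hpm : ∀ l ∈ Qt, l.Prime ∧ ¬ l ∣ m := by
    intro l hl
    rw [hQt] at hl
    rcases mem_union.1 hl with h | h
    · exact ⟨(hcfg.pS l h).1, (hcfg.pS l h).2.1⟩
    · exact ⟨(hcfg.pQ l h).1, (hcfg.pQ l h).2.1⟩
  have hL2 : L ^ 2 < L ^ 100 := pow_lt_pow_right₀ (by linarith) (by norm_num)
  have hil : ∀ l ∈ Qt, i < l := by
    intro l hl
    have h1 : (i : ℝ) < l := lt_of_le_of_lt hiL (hL2.trans (hQ l hl).2)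
    exact_mod_cast h1
  have hlm : ∀ l ∈ Qt, l ≤ m := by
    intro l hl
    have h1 : (l : ℝ) ≤ m := by
      rw [hexp]
      rw [hQt] at hl
      rcases mem_union.1 hl with h | h
      · rw [SS, mem_biUnion] at h
        obtain ⟨j, hj, hlj⟩ := h
        have hj' := mem_range.1 hj
        have a0 : ∀ j : ℕ, (1 : ℝ) ≤ 1 + ∑ l ∈ P j, (l : ℝ) := by
          intro j
          have : (0 : ℝ) ≤ ∑ l ∈ P j, (l : ℝ) := Finset.sum_nonneg fun _ _ => Nat.cast_nonneg _
          linarith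
        have a1 : (l : ℝ) ≤ 1 + ∑ l ∈ P j, (l : ℝ) := by
          have := Finset.single_le_sum (f := fun l : ℕ => (l : ℝ))
            (fun l _ => Nat.cast_nonneg l) hlj
          linarith
        have a2 : 1 + ∑ l ∈ P j, (l : ℝ) ≤ (1 + ∑ l ∈ P j, (l : ℝ)) ^ (2 * bb j) := by
          have h2 := hcfg.bb j hj'
          exact le_self_pow₀ (a0 j) (by omega)
        have a3 : (1 + ∑ l ∈ P j, (l : ℝ)) ^ (2 * bb j) ≤ LV P bb N := by
          rw [LV, ← Finset.mul_prod_erase _ _ hj]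
          have a4 : 1 ≤ ∏ j ∈ (range N).erase j, (1 + ∑ l ∈ P j, (l : ℝ)) ^ (2 * bb j) := by
            apply Finset.prod_induction _ (fun x : ℝ => 1 ≤ x)
              (fun u v hu hv => one_le_mul_of_one_le_of_one_le hu hv) le_rfl
            intro j _
            exact one_le_pow₀ (a0 j)
          have a5 : 0 ≤ (1 + ∑ l ∈ P j, (l : ℝ)) ^ (2 * bb j) := by
            have := a0 j
            positivity
          exact le_mul_of_one_le_right a5 a4
        exact (a1.trans (a2.trans (a3.trans hLV))).trans (Real.exp_le_exp.2 (by linarith))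
      · exact (hQ' l h).trans (Real.exp_le_exp.2 (by linarith))
    exact_mod_cast h1
  have hq1 : 1 ≤ pr Qt := by
    unfold pr
    exact Finset.prod_pos fun l hl => (hpm l hl).1.pos
  -- the function
  obtain ⟨G, hG⟩ : ∃ G : ℕ → ℝ, G = Gy P bb N m Q' S D y := ⟨_, rfl⟩
  obtain ⟨hhits, hfac⟩ := hFCY P bb N m i Q' S D y hcfg.DS
    (fun l hl => ⟨(hpm l (hQt ▸ hl)).1, (hpm l (hQt ▸ hl)).2, hil l (hQt ▸ hl)⟩)
    (fun l hl k hk => hcfg.lt k hk l hl) hiS
  have hcon := hCNY P bb N m Q' S D y B (fun l hl => (hpm l (hQt ▸ hl)).1) hB0 hsz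
  rw [← hQt, ← hG] at hcon
  rw [← hQt] at hhits hfac
  rw [← hG] at hfac
  have hper : ∀ c, G (c + pr Qt) = G c := con_per hcon
  have hLV1 : 1 ≤ LV P bb N := by
    unfold LV
    apply Finset.prod_induction _ (fun x : ℝ => 1 ≤ x)
      (fun u v hu hv => one_le_mul_of_one_le_of_one_le hu hv) le_rfl
    intro j _
    apply one_le_pow₀
    have h1 : (0 : ℝ) ≤ ∑ l ∈ P j, (l : ℝ) := Finset.sum_nonneg fun _ _ => Nat.cast_nonneg _
    linarith
  obtain ⟨D0, hD0⟩ : ∃ D0 : ℝ, D0 = Real.exp B * LV P bb N := ⟨_, rfl⟩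
  rw [← hD0] at hcon
  have hD01 : 1 ≤ D0 := by
    rw [hD0]
    exact one_le_mul_of_one_le_of_one_le (Real.one_le_exp hB0) hLV1
  have hD0u : D0 ≤ Real.exp (11 / 10000 * L) := by
    calc D0 = Real.exp B * LV P bb N := hD0
      _ ≤ Real.exp (L / 10000) * Real.exp (L / 1000) := by gcongr
      _ = Real.exp (11 / 10000 * L) := by
          rw [← Real.exp_add]
          congr 1
          ring
  obtain ⟨-, hmul, hsh, -, -⟩ := hCOA Qt (fun l hl => (hpm l hl).1)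
  obtain ⟨F, hF⟩ : ∃ F : ℕ → ℝ, F = fun c => G (c + i * m * (pr Qt - 1)) ^ 2 := ⟨_, rfl⟩
  have hconF : Con Qt (D0 * D0) F := by
    have h1 := hmul D0 D0 _ _ hD01 hD01 hcon hcon
    have h2 := hsh (D0 * D0) _ (i * m * (pr Qt - 1)) h1
    have h3 : (fun c => G (c + i * m * (pr Qt - 1)) * G (c + i * m * (pr Qt - 1))) = F := by
      rw [hF]
      funext c
      exact (sq _).symm
    rw [← h3]
    exact h2
  have hfacF : Fac Qt (fun l (k : {k // k ∈ S}) => rho m i l k) F := by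
    intro c c' hcc
    have h1 := hfac c c' hcc
    rw [hF]
    exact congrArg (fun t : ℝ => t ^ 2) h1
  have hF0 : ∀ c, 0 ≤ F c := by
    intro c
    rw [hF]
    positivity
  have hFG : ∀ c, F (c + i * m) = G c ^ 2 := by
    intro c
    rw [hF]
    show G (c + i * m + i * m * (pr Qt - 1)) ^ 2 = G c ^ 2
    rw [shift_eq c (i * m) _ hq1, INTx.per_mul _ G hper]
  have hmean : mean (pr Qt) F = mean (pr Qt) (fun c => G c ^ 2) := by
    rw [hF]
    exact INTx.mean_shift _ (fun c => G c ^ 2) (fun c => by rw [hper]) _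
  -- the mass
  obtain ⟨Z, hZ⟩ : ∃ Z, Z = Zy P N Q' S D y := ⟨_, rfl⟩
  have hZ0 : 0 ≤ Z := by
    obtain ⟨k0, hk0⟩ := hcfg.ne
    have h1 := hLOC P bb N m J Q' S D y hcfg ∅ (fun _ => k0) (empty_subset _)
      (fun l hl => absurd hl (notMem_empty l))
    rw [← hZ, Finset.prod_empty, mul_one] at h1
    have h2 : 0 ≤ mean (pr (SS P N ∪ Q')) (fun c => if ∀ l ∈ (∅ : Finset ℕ), l ∣ c + k0 * m then
        Gy P bb N m Q' S D y c ^ 2 else 0) := by
      unfold mean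
      apply div_nonneg _ (Nat.cast_nonneg _)
      apply Finset.sum_nonneg
      intro c _
      split_ifs
      · positivity
      · exact le_rfl
    linarith
  have hmass : ∀ (E : Finset ℕ) (k : ℕ → {k // k ∈ S}), E ⊆ Qt → mean (pr Qt) (fun c =>
      if ∀ l ∈ E, c % l = rho m i l (k l) then F c else 0) ≤
        4 * Z * ∏ l ∈ E, ((32 : ℝ) / l) := by
    intro E k hE
    have h1 := hLOC P bb N m J Q' S D y hcfg E (fun l => (k l : ℕ)) (by rw [← hQt]; exact hE)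
      (fun l _ => (k l).2)
    rw [← hZ, ← hQt, ← hG] at h1
    refine le_trans (le_of_eq ?_) h1
    rw [← INTx.mean_shift (pr Qt) (fun c => if ∀ l ∈ E, l ∣ c + (k l : ℕ) * m then G c ^ 2 else 0)
      ?_ (i * m * (pr Qt - 1))]
    · congr 1
      funext c
      have h2 : (∀ l ∈ E, c % l = rho m i l (k l)) ↔
          ∀ l ∈ E, l ∣ (c + i * m * (pr Qt - 1)) + (k l : ℕ) * m := by
        refine forall_congr' fun l => forall_congr' fun hl => ?_
        have hlp : l ∣ pr Qt := Finset.dvd_prod_of_mem _ (hE hl)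
        exact (FACx.dvd_iff (hpm l (hE hl)).1.pos hlp hq1).symm
      rw [hF]
      by_cases h3 : ∀ l ∈ E, c % l = rho m i l (k l)
      · rw [if_pos h3, if_pos (h2.1 h3)]
      · rw [if_neg h3, if_neg (fun h => h3 (h2.2 h))]
    · intro c
      have h2 : (∀ l ∈ E, l ∣ c + pr Qt + (k l : ℕ) * m) ↔ ∀ l ∈ E, l ∣ c + (k l : ℕ) * m := by
        refine forall_congr' fun l => forall_congr' fun hl => ?_
        have hlp : l ∣ pr Qt := Finset.dvd_prod_of_mem _ (hE hl)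
        rw [show c + pr Qt + (k l : ℕ) * m = (c + (k l : ℕ) * m) + pr Qt by ring]
        exact (Nat.dvd_add_iff_left hlp).symm
      by_cases h3 : ∀ l ∈ E, l ∣ c + (k l : ℕ) * m
      · rw [if_pos h3, if_pos (h2.2 h3), hper]
      · rw [if_neg h3, if_neg (fun h => h3 (h2.1 h))]
  -- the interval
  obtain ⟨K, hK⟩ : ∃ K, K = i * m := ⟨_, rfl⟩
  have hKm : 2 * m ≤ K := by rw [hK]; exact Nat.mul_le_mul_right m hi
  obtain ⟨Y, hY⟩ : ∃ Y, Y = W * n := ⟨_, rfl⟩
  rw [← hY] at hn1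
  obtain ⟨X₂, hX₂⟩ : ∃ X₂, X₂ = K + Y - 1 := ⟨_, rfl⟩
  have hX2m : m ≤ X₂ := by omega
  have hX2K : X₂ ≤ K + m := by omega
  have hX2m' : Real.exp L ≤ X₂ := by
    rw [← hexp]
    exact_mod_cast hX2m
  have hX2a : (X₂ : ℝ) ≤ (L ^ 2 + 1) * Real.exp L := by
    have h1 : (X₂ : ℝ) ≤ ((K + m : ℕ) : ℝ) := by exact_mod_cast hX2K
    rw [hK] at h1
    push_cast at h1
    calc (X₂ : ℝ) ≤ (i : ℝ) * m + m := h1
      _ = ((i : ℝ) + 1) * m := by ring
      _ ≤ (L ^ 2 + 1) * m := by gcongr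
      _ = _ := by rw [hexp]
  have hLe : L ^ 2 + 1 ≤ Real.exp L := by
    have h1 : 1 ≤ L ^ 2 := one_le_pow₀ hL1
    have h2 : Real.exp (L / 20) ≤ Real.exp L := Real.exp_le_exp.2 (by linarith)
    linarith
  have hX2b : (X₂ : ℝ) ≤ Real.exp (2 * L) := by
    calc (X₂ : ℝ) ≤ (L ^ 2 + 1) * Real.exp L := hX2a
      _ ≤ Real.exp L * Real.exp L := by gcongr
      _ = Real.exp (2 * L) := by
          rw [← Real.exp_add]
          congr 1
          ring
  have hX20 : (0 : ℝ) < X₂ := (Real.exp_pos L).trans_le hX2m'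
  have hlogX : Real.log X₂ ≤ 2 * L := by
    rw [Real.log_le_iff_le_exp hX20]
    exact hX2b
  have hlogX0 : 0 ≤ Real.log X₂ := Real.log_natCast_nonneg _
  have hD40 : (D0 * D0) ^ 40 ≤ (X₂ : ℝ) := by
    calc (D0 * D0) ^ 40 = D0 ^ 80 := by ring
      _ ≤ Real.exp (11 / 10000 * L) ^ 80 := by gcongr
      _ = Real.exp (((80 : ℕ) : ℝ) * (11 / 10000 * L)) := (Real.exp_nat_mul _ _).symm
      _ ≤ Real.exp L := Real.exp_le_exp.2 (by push_cast; linarith)
      _ ≤ X₂ := hX2m'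
  have hW40 : (W : ℝ) ^ 40 ≤ (X₂ : ℝ) := by
    calc (W : ℝ) ^ 40 ≤ Real.exp (2 * Real.sqrt L) ^ 40 := by gcongr
      _ = Real.exp (((40 : ℕ) : ℝ) * (2 * Real.sqrt L)) := (Real.exp_nat_mul _ _).symm
      _ ≤ Real.exp L := by
          apply Real.exp_le_exp.2
          have h1 := Real.sq_sqrt hL0.le
          have h2 : 80 ≤ Real.sqrt L := by
            apply Real.le_sqrt_of_sq_le
            linarith
          push_cast
          nlinarith
      _ ≤ X₂ := hX2m'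
  have hScard := LPGx.cardS S L hk
  have hS0 : (0 : ℝ) ≤ S.card := Nat.cast_nonneg _
  have hcard : ((Fintype.card {k // k ∈ S} : ℕ) : ℝ) = S.card := by rw [Fintype.card_coe]
  haveI : Nonempty {k // k ∈ S} := by
    obtain ⟨k0, hk0⟩ := hcfg.ne
    exact ⟨⟨k0, hk0⟩⟩
  have key := hLPA Qt {k // k ∈ S} (fun l (k : {k // k ∈ S}) => rho m i l k) F (L ^ 100)
    (D0 * D0) (4 * Z) 32 W (b + K) (K - 1) X₂ hhits hfacF hconF hF0
    (fun l hl => ⟨(hQ l hl).2.le, (hQ l hl).1, by have := hlm l hl; omega⟩) (by norm_num)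
    (by rw [hcard]; exact k8 L S.card f1 hS0 hScard) hW (by rw [hK]; exact hbi)
    (f2.trans hX2m') (by omega) (one_le_mul_of_one_le_of_one_le hD01 hD01) hD40 hW40
    (by positivity) hmass
  rw [hmean, hX₂, hY] at key
  have hK1 : 1 ≤ K := by omega
  rw [sum_Prs W b K n hW hb hK1, sum_Prs W b K n hW hb hK1, ← hY, ← hX₂] at key
  -- the total weight
  have hTh : IP.Th m W b i n ≤ Real.exp L / W * (2 * L) := by
    have hlw : ∀ x ∈ IP.Pi m W b i n, IP.lw m W b i x ≤ 2 * L := by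
      intro x hx
      rw [IP.Pi, mem_filter, mem_range] at hx
      have h2 : b + W * x ≤ Y := by
        have h3 : W * (x + 1) ≤ W * n := Nat.mul_le_mul_left W hx.1
        rw [mul_add, mul_one, ← hY] at h3
        omega
      have h5 : b + W * x + i * m ≤ (i + 1) * m := by
        rw [add_mul, one_mul]
        omega
      have h6 : ((b + W * x + i * m : ℕ) : ℝ) ≤ ((i : ℝ) + 1) * m := by exact_mod_cast h5
      have h3 : (0 : ℝ) < ((b + W * x + i * m : ℕ) : ℝ) := by exact_mod_cast hx.2.pos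
      rw [IP.lw, Real.log_le_iff_le_exp h3]
      calc ((b + W * x + i * m : ℕ) : ℝ) ≤ ((i : ℝ) + 1) * m := h6
        _ ≤ (L ^ 2 + 1) * m := by gcongr
        _ = (L ^ 2 + 1) * Real.exp L := by rw [hexp]
        _ ≤ Real.exp L * Real.exp L := by gcongr
        _ = Real.exp (2 * L) := by
            rw [← Real.exp_add]
            congr 1
            ring
    rw [IP.Th]
    refine (Finset.sum_le_card_nsmul _ _ _ hlw).trans ?_
    rw [nsmul_eq_mul]
    have h1 : ((IP.Pi m W b i n).card : ℝ) ≤ n := by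
      have h2 : (IP.Pi m W b i n).card ≤ (range n).card := card_filter_le _ _
      rw [card_range] at h2
      exact_mod_cast h2
    have h3 : (n : ℝ) ≤ Real.exp L / W := by
      rw [le_div_iff₀ (by linarith), ← hexp, mul_comm]
      have h4 : W * n ≤ m := by rw [← hY]; exact hn1
      exact_mod_cast h4
    have h4 := h1.trans h3
    gcongr
  have hThe : ∑ x ∈ (range n).filter (fun x => (b + W * x + K).Prime),
      Real.log ((b + W * x + K : ℕ) : ℝ) = IP.Th m W b i n := by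
    rw [IP.Th, IP.Pi, hK]
    rfl
  have hsplit : ∑ x ∈ (range n).filter (fun x => (b + W * x + K).Prime),
      Real.log ((b + W * x + K : ℕ) : ℝ) * (F (b + W * x + K) -
        mean (pr Qt) (fun c => G c ^ 2)) =
      ∑ x ∈ IP.Pi m W b i n, IP.lw m W b i x * G (b + W * x) ^ 2 -
        IP.Th m W b i n * mean (pr Qt) (fun c => G c ^ 2) := by
    rw [IP.Th, Finset.sum_mul, ← Finset.sum_sub_distrib, hK]
    apply Finset.sum_congr rfl
    intro x _
    rw [hFG]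
    simp only [IP.lw]
    ring
  rw [hsplit, hThe] at key
  rw [← hG, ← hQt, ← hZ]
  refine key.trans ?_
  exact num C₁ L Z W X₂ (Real.log X₂) (IP.Th m W b i n) W.totient f1 hC₁ f3 hZ0 hW1
    (by exact_mod_cast Nat.totient_pos.2 hWpos) (by exact_mod_cast Nat.totient_le W) hX20.le hX2a
    hlogX0 hlogX hTh

end

end Pool.Agent.CRE
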