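import Mathlib
import Pool.Agent.CRE.Stmts

set_option autoImplicit false
set_option linter.unusedSectionVars false

/-!
# CRE_UNM: change of the law

The law is changed one coordinate after the other: `mx u S` has `p = u / (1 - u)` on `S` and `u`
elsewhere.
-/

namespace Pool.Agent.CRE

open Finset Pool.Agent.Lib_helper9.LG Pool.Agent.IPP

noncomputable section

namespace UNM

variable {ι κ : Type} [Fintype ι] [DecidableEq ι] [Fintype κ] [DecidableEq κ]

/-- The mixed parameters. -/
def mx (u : ι → ℝ) (S : Finset ι) (i : ι) : ℝ := if i ∈ S then u i / (1 - u i) else u i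

/-- The product of the mixed laws. -/
def aa (u : ι → ℝ) (S : Finset ι) (θ : ι → Option κ) : ℝ :=
  ∏ i, law (Fintype.card κ) (mx u S i) (θ i)

/-- The ratio of the laws, minus one. -/
def rr (κ : Type) [Fintype κ] (v : ℝ) : Option κ → ℝ
  | none => - ((Fintype.card κ : ℝ) * (v / (1 - v)) * v) / (1 - Fintype.card κ * v)
  | some _ => v / (1 - v)

lemma law_ratio (v : ℝ) (h0 : 0 < v) (h4 : v ≤ 1 / 4) (hK : (Fintype.card κ : ℝ) * v ≤ 1 / 2)
    (o : Option κ) :
    law (Fintype.card κ) (v / (1 - v)) o = law (Fintype.card κ) v o * (1 + rr κ v o) := by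
  have h1 : (1 : ℝ) - v ≠ 0 := by linarith
  have h2 : (1 : ℝ) - Fintype.card κ * v ≠ 0 := by
    intro h
    linarith
  cases o with
  | none =>
    simp only [law, rr]
    field_simp
    ring
  | some k =>
    simp only [law, rr]
    field_simp
    ring

lemma rr_le (v : ℝ) (h0 : 0 < v) (h4 : v ≤ 1 / 4) (hK : (Fintype.card κ : ℝ) * v ≤ 1 / 2)
    (o : Option κ) :
    rr κ v o ≤ ∑ k : κ, (if o = some k then v / (1 - v) else 0) := by
  have h1 : 0 < 1 - v := by linarith
  have hp : 0 ≤ v / (1 - v) := (div_pos h0 h1).le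
  cases o with
  | none =>
    simp only [rr]
    have h3 : 0 ≤ (Fintype.card κ : ℝ) * (v / (1 - v)) * v := by positivity
    have h2 : 0 < (1 : ℝ) - Fintype.card κ * v := by linarith
    have h5 : - ((Fintype.card κ : ℝ) * (v / (1 - v)) * v) / (1 - Fintype.card κ * v) ≤ 0 :=
      div_nonpos_of_nonpos_of_nonneg (by linarith) h2.le
    simpa using h5
  | some k =>
    simp [rr]

lemma abs_rr_le (v : ℝ) (h0 : 0 < v) (h4 : v ≤ 1 / 4) (hK : (Fintype.card κ : ℝ) * v ≤ 1 / 2)
    (o : Option κ) :
    |rr κ v o| ≤ ∑ k : κ, (if o = some k then v / (1 - v) else 0) +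
      2 * Fintype.card κ * (v / (1 - v)) * v := by
  have h1 : 0 < 1 - v := by linarith
  have hp : 0 ≤ v / (1 - v) := (div_pos h0 h1).le
  cases o with
  | none =>
    simp only [rr]
    have h3 : 0 ≤ (Fintype.card κ : ℝ) * (v / (1 - v)) * v := by positivity
    have h2 : 0 < (1 : ℝ) - Fintype.card κ * v := by linarith
    rw [neg_div, abs_neg, abs_of_nonneg (div_nonneg h3 h2.le)]
    have h5 : (Fintype.card κ : ℝ) * (v / (1 - v)) * v / (1 - Fintype.card κ * v) ≤
        2 * Fintype.card κ * (v / (1 - v)) * v := by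
      rw [div_le_iff₀ h2]
      nlinarith
    simpa using h5
  | some k =>
    simp only [rr]
    rw [abs_of_nonneg hp]
    have h3 : 0 ≤ 2 * (Fintype.card κ : ℝ) * (v / (1 - v)) * v := by positivity
    simpa using h3

lemma mx_insert_self (u : ι → ℝ) (S : Finset ι) (j : ι) :
    mx u (insert j S) j = u j / (1 - u j) := by
  simp [mx]

lemma mx_not_mem {u : ι → ℝ} {S : Finset ι} {j : ι} (hj : j ∉ S) : mx u S j = u j := by
  simp [mx, hj]

lemma mx_insert_ne (u : ι → ℝ) (S : Finset ι) {i j : ι} (h : i ≠ j) :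
    mx u (insert j S) i = mx u S i := by
  simp [mx, h]

lemma aa_insert (u : ι → ℝ) (S : Finset ι) {j : ι} (hj : j ∉ S) (h0 : 0 < u j)
    (h4 : u j ≤ 1 / 4) (hK : (Fintype.card κ : ℝ) * u j ≤ 1 / 2) (θ : ι → Option κ) :
    aa u (insert j S) θ = aa u S θ * (1 + rr κ (u j) (θ j)) := by
  unfold aa
  rw [← Finset.mul_prod_erase univ _ (mem_univ j), ← Finset.mul_prod_erase univ _ (mem_univ j),
    mx_insert_self, mx_not_mem hj, law_ratio (u j) h0 h4 hK]
  have h : ∏ i ∈ univ.erase j, law (Fintype.card κ) (mx u (insert j S) i) (θ i) =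
      ∏ i ∈ univ.erase j, law (Fintype.card κ) (mx u S i) (θ i) := by
    refine Finset.prod_congr rfl fun i hi => ?_
    rw [mx_insert_ne u S (Finset.ne_of_mem_erase hi)]
  rw [h]
  ring

lemma p_le {v : ℝ} (h0 : 0 < v) (h4 : v ≤ 1 / 4) : v / (1 - v) ≤ 4 / 3 * v := by
  have h1 : 0 < 1 - v := by linarith
  rw [div_le_iff₀ h1]
  nlinarith

lemma law_nonneg {K v : ℝ} (hv : 0 ≤ v) (h : K * v ≤ 1) (o : Option κ) : 0 ≤ law K v o := by
  cases o with
  | none => simp only [law]; linarith
  | some k => simpa only [law] using hv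

lemma aa_nonneg (u : ι → ℝ) (S : Finset ι) (h0 : ∀ i, 0 < u i) (h4 : ∀ i, u i ≤ 1 / 4)
    (hK : ∀ i, (Fintype.card κ : ℝ) * u i ≤ 1 / 2) (θ : ι → Option κ) : 0 ≤ aa u S θ := by
  refine Finset.prod_nonneg fun i _ => law_nonneg ?_ ?_ _
  · unfold mx
    have h1 : 0 < 1 - u i := by linarith [h4 i]
    split_ifs
    · exact (div_pos (h0 i) h1).le
    · exact (h0 i).le
  · unfold mx
    split_ifs
    · have h2 := p_le (h0 i) (h4 i)
      have h3 : (Fintype.card κ : ℝ) * (u i / (1 - u i)) ≤ Fintype.card κ * (4 / 3 * u i) :=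
        mul_le_mul_of_nonneg_left h2 (Nat.cast_nonneg _)
      linarith [hK i]
    · linarith [hK i]

lemma ew_eq (u : ι → ℝ) (S : Finset ι) (f : (ι → Option κ) → ℝ) :
    ew (mx u S) f = ∑ θ, f θ * aa u S θ := rfl

lemma rs_nonneg {f : (ι → Option κ) → ℝ} (hf : ∀ θ, 0 ≤ f θ) (η θ : ι → Option κ) :
    0 ≤ rs η f θ := by
  unfold rs
  split_ifs
  · exact hf _
  · exact le_rfl

lemma rs_update (f : (ι → Option κ) → ℝ) (η : ι → Option κ) (j : ι) (hj : η j = none) (k : κ)
    (θ : ι → Option κ) :
    rs (Function.update η j (some k)) f θ = if θ j = some k then rs η f θ else 0 := by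
  unfold rs
  by_cases h : θ j = some k
  · rw [if_pos h]
    congr 1
    apply propext
    constructor
    · intro h1 i hi
      have hij : i ≠ j := by
        rintro rfl
        exact hi hj
      have h2 := h1 i (by rw [Function.update_of_ne hij]; exact hi)
      rwa [Function.update_of_ne hij] at h2
    · intro h1 i hi
      by_cases hij : i = j
      · subst hij
        rw [Function.update_self]
        exact h
      · rw [Function.update_of_ne hij] at hi ⊢
        exact h1 i hi
  · rw [if_neg h, if_neg]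
    intro h1
    apply h
    have h2 := h1 j (by rw [Function.update_self]; simp)
    rwa [Function.update_self] at h2

lemma spp_update (η : ι → Option κ) (j : ι) (k : κ) :
    spp (Function.update η j (some k)) = insert j (spp η) := by
  ext i
  rw [mem_spp, mem_insert, mem_spp]
  by_cases hij : i = j
  · subst hij
    simp
  · rw [Function.update_of_ne hij]
    simp [hij]

/-- The sum over the values at `j`. -/
lemma sum_vals (g : (ι → Option κ) → ℝ) (a : (ι → Option κ) → ℝ) (j : ι) (c : ℝ) :
    ∑ θ, g θ * a θ * (∑ k : κ, if θ j = some k then c else 0) =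
      c * ∑ k : κ, ∑ θ, (if θ j = some k then g θ else 0) * a θ := by
  rw [Finset.mul_sum, Finset.sum_congr rfl (fun θ _ => Finset.mul_sum _ _ _), Finset.sum_comm]
  refine Finset.sum_congr rfl fun k _ => ?_
  rw [Finset.mul_sum]
  refine Finset.sum_congr rfl fun θ _ => ?_
  split_ifs <;> ring

section

variable (u : ι → ℝ) (f : (ι → Option κ) → ℝ) (M C : ℝ)

/-- The bound. -/
def Bd (κ : Type) [Fintype κ] (u : ι → ℝ) (M C : ℝ) (S : Finset ι) (T : Finset ι) : ℝ :=
  M * (∏ i ∈ S, (1 + 4 * C * Fintype.card κ * u i ^ 2)) * ∏ i ∈ T, (C * mx u S i)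

lemma mx_nonneg (h0 : ∀ i, 0 < u i) (h4 : ∀ i, u i ≤ 1 / 4) (S : Finset ι) (i : ι) :
    0 ≤ mx u S i := by
  unfold mx
  have h1 : 0 < 1 - u i := by linarith [h4 i]
  split_ifs
  · exact (div_pos (h0 i) h1).le
  · exact (h0 i).le

lemma Bd_nonneg (h0 : ∀ i, 0 < u i) (h4 : ∀ i, u i ≤ 1 / 4) (hM : 0 ≤ M) (hC : 1 ≤ C)
    (S T : Finset ι) : 0 ≤ Bd κ u M C S T := by
  unfold Bd
  refine mul_nonneg (mul_nonneg hM (Finset.prod_nonneg fun i _ => ?_))
    (Finset.prod_nonneg fun i _ => ?_)
  · positivity
  · exact mul_nonneg (by linarith) (mx_nonneg u h0 h4 S i)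

lemma Bd_insert_not (S T : Finset ι) {j : ι} (hj : j ∉ S) (hT : j ∉ T) :
    Bd κ u M C (insert j S) T =
      (1 + 4 * C * Fintype.card κ * u j ^ 2) * Bd κ u M C S T := by
  unfold Bd
  rw [Finset.prod_insert hj]
  have h : ∏ i ∈ T, (C * mx u (insert j S) i) = ∏ i ∈ T, (C * mx u S i) := by
    refine Finset.prod_congr rfl fun i hi => ?_
    rw [mx_insert_ne u S (by rintro rfl; exact hT hi)]
  rw [h]
  ring

lemma Bd_insert_mem (S T : Finset ι) {j : ι} (hj : j ∉ S) (hT : j ∈ T) (h4 : u j ≤ 1 / 4) :
    Bd κ u M C (insert j S) T =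
      (1 + 4 * C * Fintype.card κ * u j ^ 2) * ((1 + u j / (1 - u j)) * Bd κ u M C S T) := by
  unfold Bd
  rw [Finset.prod_insert hj, ← Finset.mul_prod_erase T _ hT,
    ← Finset.mul_prod_erase T (fun i => C * mx u S i) hT, mx_insert_self, mx_not_mem hj]
  have h : ∏ i ∈ T.erase j, (C * mx u (insert j S) i) = ∏ i ∈ T.erase j, (C * mx u S i) := by
    refine Finset.prod_congr rfl fun i hi => ?_
    rw [mx_insert_ne u S (Finset.ne_of_mem_erase hi)]
  rw [h]
  have h1 : (1 : ℝ) - u j ≠ 0 := by linarith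
  field_simp
  ring

lemma Bd_T_insert (S T : Finset ι) {j : ι} (hj : j ∉ S) (hT : j ∉ T) :
    Bd κ u M C S (insert j T) = C * u j * Bd κ u M C S T := by
  unfold Bd
  rw [Finset.prod_insert hT, mx_not_mem hj]
  ring

variable (h0 : ∀ i, 0 < u i) (h4 : ∀ i, u i ≤ 1 / 4)
  (hK : ∀ i, (Fintype.card κ : ℝ) * u i ≤ 1 / 2) (hf : ∀ θ, 0 ≤ f θ) (hM : 0 ≤ M) (hC : 1 ≤ C)
  (hyp : ∀ η, ew u (rs η f) ≤ M * ∏ i ∈ spp η, (C * u i))

include h0 h4 hK hf hM hC hyp in
lemma main (S : Finset ι) : ∀ η, ew (mx u S) (rs η f) ≤ Bd κ u M C S (spp η) := by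
  induction S using Finset.induction_on with
  | empty =>
    intro η
    have h : mx u ∅ = u := by funext i; simp [mx]
    rw [h]
    refine (hyp η).trans (le_of_eq ?_)
    unfold Bd
    rw [h]
    simp
  | insert j S hj ih =>
    intro η
    have hp : 0 ≤ u j / (1 - u j) := (div_pos (h0 j) (by linarith [h4 j])).le
    have hx : 0 ≤ 4 * C * Fintype.card κ * u j ^ 2 := by positivity
    have e1 : ew (mx u (insert j S)) (rs η f) ≤ ew (mx u S) (rs η f) +
        u j / (1 - u j) * ∑ k : κ, ∑ θ, (if θ j = some k then rs η f θ else 0) * aa u S θ := by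
      rw [ew_eq, ew_eq, ← sum_vals, ← Finset.sum_add_distrib]
      refine Finset.sum_le_sum fun θ _ => ?_
      rw [aa_insert u S hj (h0 j) (h4 j) (hK j)]
      have h5 := rr_le (κ := κ) (u j) (h0 j) (h4 j) (hK j) (θ j)
      have h6 : 0 ≤ rs η f θ * aa u S θ :=
        mul_nonneg (rs_nonneg hf η θ) (aa_nonneg u S h0 h4 hK θ)
      have h7 := mul_le_mul_of_nonneg_left h5 h6
      linarith
    by_cases hη : η j = none
    · have hT : j ∉ spp η := by rw [mem_spp]; simpa using hη
      have e2 : ∀ k : κ, ∑ θ, (if θ j = some k then rs η f θ else 0) * aa u S θ ≤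
          C * u j * Bd κ u M C S (spp η) := by
        intro k
        have h5 := ih (Function.update η j (some k))
        rw [spp_update, Bd_T_insert u M C S _ hj hT] at h5
        refine le_trans (le_of_eq ?_) h5
        rw [ew_eq]
        refine Finset.sum_congr rfl fun θ _ => ?_
        rw [rs_update f η j hη k θ]
      have e3 : ∑ k : κ, ∑ θ, (if θ j = some k then rs η f θ else 0) * aa u S θ ≤
          Fintype.card κ * (C * u j * Bd κ u M C S (spp η)) := by
        refine (Finset.sum_le_sum fun k _ => e2 k).trans (le_of_eq ?_)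
        simp
      rw [Bd_insert_not u M C S _ hj hT]
      have e4 := ih η
      have hB := Bd_nonneg (κ := κ) u M C h0 h4 hM hC S (spp η)
      have e5 : u j / (1 - u j) * (Fintype.card κ * (C * u j * Bd κ u M C S (spp η))) ≤
          4 * C * Fintype.card κ * u j ^ 2 * Bd κ u M C S (spp η) := by
        have h6 := p_le (h0 j) (h4 j)
        have h7 : 0 ≤ (Fintype.card κ : ℝ) * (C * u j * Bd κ u M C S (spp η)) := by
          have := h0 j
          positivity
        have h8 := mul_le_mul_of_nonneg_right h6 h7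
        have h9 : 0 ≤ C * Fintype.card κ * u j ^ 2 * Bd κ u M C S (spp η) := by positivity
        nlinarith
      have e6 := mul_le_mul_of_nonneg_left e3 hp
      linarith
    · have hT : j ∈ spp η := by rw [mem_spp]; exact hη
      have e2 : ∑ k : κ, ∑ θ, (if θ j = some k then rs η f θ else 0) * aa u S θ ≤
          ew (mx u S) (rs η f) := by
        rw [Finset.sum_comm, ew_eq]
        refine Finset.sum_le_sum fun θ _ => ?_
        have h6 : 0 ≤ rs η f θ * aa u S θ :=
          mul_nonneg (rs_nonneg hf η θ) (aa_nonneg u S h0 h4 hK θ)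
        rcases hθ : θ j with _ | k0
        · simpa using h6
        · rw [Finset.sum_eq_single k0]
          · simp
          · intro k _ hk
            rw [if_neg (by simpa using hk.symm), zero_mul]
          · simp
      have e3 := mul_le_mul_of_nonneg_left e2 hp
      have e4 := ih η
      have hB := Bd_nonneg (κ := κ) u M C h0 h4 hM hC S (spp η)
      rw [Bd_insert_mem u M C S _ hj hT (h4 j)]
      have e5 : ew (mx u (insert j S)) (rs η f) ≤ (1 + u j / (1 - u j)) * Bd κ u M C S (spp η) := by
        have := mul_le_mul_of_nonneg_left e4 hp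
        linarith
      refine e5.trans ?_
      have h6 : 0 ≤ (1 + u j / (1 - u j)) * Bd κ u M C S (spp η) := by positivity
      nlinarith

include h0 h4 hK hf hM hC hyp in
lemma main2 (S : Finset ι) : |ew (mx u S) f - ew u f| ≤
    M * ((∏ i ∈ S, (1 + 4 * C * Fintype.card κ * u i ^ 2)) - 1) := by
  have hrs : rs (fun _ => none) f = f := by
    funext θ
    unfold rs
    rw [if_pos]
    intro i hi
    exact absurd rfl hi
  have hspp : spp (fun _ : ι => (none : Option κ)) = ∅ := by
    ext i
    rw [mem_spp]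
    simp
  induction S using Finset.induction_on with
  | empty =>
    have h : mx u ∅ = u := by funext i; simp [mx]
    rw [h]
    simp
  | insert j S hj ih =>
    have hp : 0 ≤ u j / (1 - u j) := (div_pos (h0 j) (by linarith [h4 j])).le
    have hu := h0 j
    set X : ℝ := ∏ i ∈ S, (1 + 4 * C * Fintype.card κ * u i ^ 2) with hX
    have hX0 : 0 ≤ X := Finset.prod_nonneg fun i _ => by positivity
    have m1 := main u f M C h0 h4 hK hf hM hC hyp S (fun _ => none)
    rw [hrs, hspp] at m1
    have m1' : ew (mx u S) f ≤ M * X := by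
      refine m1.trans (le_of_eq ?_)
      unfold Bd
      simp [hX]
    have e2 : ∀ k : κ, ∑ θ, (if θ j = some k then f θ else 0) * aa u S θ ≤
        C * u j * (M * X) := by
      intro k
      have h5 := main u f M C h0 h4 hK hf hM hC hyp S
        (Function.update (fun _ => none) j (some k))
      rw [spp_update, hspp, Bd_T_insert u M C S _ hj (by simp)] at h5
      have h6 : Bd κ u M C S ∅ = M * X := by unfold Bd; simp [hX]
      rw [h6] at h5
      refine le_trans (le_of_eq ?_) h5
      rw [ew_eq]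
      refine Finset.sum_congr rfl fun θ _ => ?_
      rw [rs_update f _ j rfl k θ, hrs]
    have e3 : ∑ k : κ, ∑ θ, (if θ j = some k then f θ else 0) * aa u S θ ≤
        Fintype.card κ * (C * u j * (M * X)) := by
      refine (Finset.sum_le_sum fun k _ => e2 k).trans (le_of_eq ?_)
      simp
    have e1 : |ew (mx u (insert j S)) f - ew (mx u S) f| ≤
        u j / (1 - u j) * (∑ k : κ, ∑ θ, (if θ j = some k then f θ else 0) * aa u S θ) +
        2 * Fintype.card κ * (u j / (1 - u j)) * u j * ew (mx u S) f := by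
      rw [ew_eq, ew_eq, ← sum_vals, ← Finset.sum_sub_distrib, Finset.mul_sum,
        ← Finset.sum_add_distrib]
      refine (Finset.abs_sum_le_sum_abs _ _).trans (Finset.sum_le_sum fun θ _ => ?_)
      rw [aa_insert u S hj (h0 j) (h4 j) (hK j)]
      have h5 := abs_rr_le (κ := κ) (u j) (h0 j) (h4 j) (hK j) (θ j)
      have h6 : 0 ≤ f θ * aa u S θ := mul_nonneg (hf θ) (aa_nonneg u S h0 h4 hK θ)
      have h7 := mul_le_mul_of_nonneg_left h5 h6
      have h8 : f θ * (aa u S θ * (1 + rr κ (u j) (θ j))) - f θ * aa u S θ =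
          f θ * aa u S θ * rr κ (u j) (θ j) := by ring
      rw [h8, abs_mul, abs_of_nonneg h6]
      linarith
    have h9 := p_le (h0 j) (h4 j)
    have hMX : 0 ≤ M * X := mul_nonneg hM hX0
    have e6 := mul_le_mul_of_nonneg_left e3 hp
    have e7 : 2 * Fintype.card κ * (u j / (1 - u j)) * u j * ew (mx u S) f ≤
        2 * Fintype.card κ * (u j / (1 - u j)) * u j * (M * X) :=
      mul_le_mul_of_nonneg_left m1' (by positivity)
    have e8 : u j / (1 - u j) * (Fintype.card κ * (C * u j * (M * X))) +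
        2 * Fintype.card κ * (u j / (1 - u j)) * u j * (M * X) ≤
        4 * C * Fintype.card κ * u j ^ 2 * (M * X) := by
      have h10 : 0 ≤ (Fintype.card κ : ℝ) * u j * (M * X) := by positivity
      have h11 : 2 * ((Fintype.card κ : ℝ) * u j * (M * X)) ≤
          2 * C * ((Fintype.card κ : ℝ) * u j * (M * X)) := by nlinarith
      have h12 : u j / (1 - u j) * (Fintype.card κ * (C * u j * (M * X))) +
          2 * Fintype.card κ * (u j / (1 - u j)) * u j * (M * X) ≤
          u j / (1 - u j) * (3 * C * ((Fintype.card κ : ℝ) * u j * (M * X))) := by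
        have := mul_le_mul_of_nonneg_left h11 hp
        linarith
      refine h12.trans ?_
      have h13 : 0 ≤ 3 * C * ((Fintype.card κ : ℝ) * u j * (M * X)) := by positivity
      have := mul_le_mul_of_nonneg_right h9 h13
      linarith
    rw [Finset.prod_insert hj, ← hX]
    have h14 : |ew (mx u (insert j S)) f - ew u f| ≤
        |ew (mx u (insert j S)) f - ew (mx u S) f| + |ew (mx u S) f - ew u f| :=
      abs_sub_le _ _ _
    linarith

end

end UNM

open UNM in
theorem t_UNM : S_UNM := by
  intro ι κ _ _ _ _ u f M C h0 h4 hK _ hf hM hC hyp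
  have hun : mx u univ = fun i => u i / (1 - u i) := by
    funext i
    simp [mx]
  have hprod : ∏ i, (1 + 4 * C * Fintype.card κ * u i ^ 2) ≤
      Real.exp (4 * C * Fintype.card κ * ∑ i, u i ^ 2) := by
    rw [Finset.mul_sum, Real.exp_sum]
    refine Finset.prod_le_prod (fun i _ => by positivity) fun i _ => ?_
    rw [add_comm]
    exact Real.add_one_le_exp _
  constructor
  · intro η
    have h := main u f M C h0 h4 hK hf hM hC hyp univ η
    rw [hun] at h
    refine h.trans ?_
    unfold Bd
    refine mul_le_mul (mul_le_mul_of_nonneg_left hprod hM) ?_ ?_ (by positivity)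
    · refine Finset.prod_le_prod (fun i _ => ?_) fun i _ => ?_
      · exact mul_nonneg (by linarith) (mx_nonneg u h0 h4 _ i)
      · rw [hun]
        have hp : 0 ≤ u i / (1 - u i) := (div_pos (h0 i) (by linarith [h4 i])).le
        have : 0 ≤ C * (u i / (1 - u i)) := by positivity
        linarith
    · exact Finset.prod_nonneg fun i _ => mul_nonneg (by linarith) (mx_nonneg u h0 h4 _ i)
  · have h := main2 u f M C h0 h4 hK hf hM hC hyp univ
    rw [hun] at h
    refine h.trans (mul_le_mul_of_nonneg_left ?_ hM)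
    linarith

end

end Pool.Agent.CRE
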