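import Pool.Agent.CRE.COA
import Pool.Agent.CRE.CNY
import Pool.Agent.CRE.CRT
import Pool.Agent.CRE.DDB
import Pool.Agent.CRE.EXN
import Pool.Agent.CRE.FCY
import Pool.Agent.CRE.LCQ
import Pool.Agent.CRE.LCS
import Pool.Agent.CRE.LOC
import Pool.Agent.CRE.LPA
import Pool.Agent.CRE.LPE
import Pool.Agent.CRE.LPU
import Pool.Agent.CRE.LPY
import Pool.Agent.CRE.UNM
import Pool.Agent.IPR.BVP
import Pool.Agent.IPR.BVL
import Pool.Agent.IPR.DLS
import Pool.Agent.IPR.LSV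
import Pool.Agent.IPR.T2
import Pool.Agent.IPR.TT2
import Pool.Agent.IPR.TY1

set_option autoImplicit false

/-!
# The common core: assembly
-/

namespace Pool.Agent.CRE

theorem bvp : IPR.S_BVP :=
  IPR.t_BVP (IPR.t_BVL (IPR.t_TT2 (IPR.t_T2 (IPR.t_LSV IPR.t_DLS))) IPR.t_TY1)

theorem lpa : S_LPA := t_LPA (t_LPE t_EXN t_DDB t_UNM t_CRT) bvp

theorem loc : S_LOC := t_LOC t_LCS t_LCQ

theorem lpy : S_LPY := t_LPY lpa loc t_FCY (t_CNY t_COA) t_COA

theorem core : UIP.S_CORE := t_LPU lpy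

end Pool.Agent.CRE
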