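import Mathlib
import Pool.Agent.CRE.Stmts

set_option autoImplicit false

/-!
Closure properties of the conductor.
-/

namespace Pool.Agent.CRE

open Finset Pool.Agent.Lib_helper9.LG Pool.Agent.IPP

noncomputable section

namespace COAx

lemma const (Q : Finset ℕ) (D c : ℝ) (hD : 1 ≤ D) : Con Q D (fun _ => c) :=
  Con.base ∅ _ (by simp) (by simp) (by simpa [pr] using hD)

lemma mono {Q : Finset ℕ} {D D' : ℝ} {g : ℕ → ℝ} (h : D ≤ D') (hg : Con Q D g) : Con Q D' g := by
  induction hg with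
  | base E g hE hp hD => exact Con.base E g hE hp (hD.trans h)
  | add _ _ ih1 ih2 => exact Con.add ih1 ih2

lemma per_mul (g : ℕ → ℝ) (a : ℕ) (h : ∀ n, g (n + a) = g n) (k n : ℕ) :
    g (n + a * k) = g n := by
  induction k with
  | zero => simp
  | succ k ih => rw [Nat.mul_succ, ← add_assoc, h, ih]

lemma shift {Q : Finset ℕ} {D : ℝ} {g : ℕ → ℝ} (d : ℕ) (hg : Con Q D g) :
    Con Q D (fun n => g (n + d)) := by
  induction hg with
  | base E g hE hp hD =>
    refine Con.base E _ hE (fun n => ?_) hD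
    have h := hp (n + d)
    rw [← h]
    congr 1
    ring
  | add _ _ ih1 ih2 => exact Con.add ih1 ih2

lemma pr_pos {Q E : Finset ℕ} (hQ : ∀ l ∈ Q, l.Prime) (hE : E ⊆ Q) : 0 < pr E :=
  Finset.prod_pos fun l hl => (hQ l (hE hl)).pos

lemma pr_union {Q E E' : Finset ℕ} (hQ : ∀ l ∈ Q, l.Prime) (hE : E ⊆ Q) :
    pr (E ∪ E') ≤ pr E * pr E' := by
  have h : pr (E ∪ E') * pr (E ∩ E') = pr E * pr E' := Finset.prod_union_inter
  rw [← h]
  exact Nat.le_mul_of_pos_right _ (pr_pos hQ (Finset.inter_subset_left.trans hE))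

lemma pr_dvd {E F : Finset ℕ} (h : E ⊆ F) : pr E ∣ pr F :=
  Finset.prod_dvd_prod_of_subset _ _ _ h

lemma base_mul {Q : Finset ℕ} (hQ : ∀ l ∈ Q, l.Prime) {D D' : ℝ}
    {E : Finset ℕ} {g : ℕ → ℝ} (hE : E ⊆ Q)
    (hp : ∀ n, g (n + pr E) = g n) (hD : (pr E : ℝ) ≤ D) {h : ℕ → ℝ} (hh : Con Q D' h) :
    Con Q (D * D') (fun n => g n * h n) := by
  induction hh with
  | base E' h hE' hp' hD1 =>
    refine Con.base (E ∪ E') _ (Finset.union_subset hE hE') (fun n => ?_) ?_
    · obtain ⟨a, ha⟩ := pr_dvd (Finset.subset_union_left : E ⊆ E ∪ E')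
      obtain ⟨b, hb⟩ := pr_dvd (Finset.subset_union_right : E' ⊆ E ∪ E')
      have h1 : g (n + pr (E ∪ E')) = g n := by rw [ha]; exact per_mul g _ hp a n
      have h2 : h (n + pr (E ∪ E')) = h n := by rw [hb]; exact per_mul h _ hp' b n
      simp only [h1, h2]
    · have h1 : ((pr (E ∪ E') : ℕ) : ℝ) ≤ (pr E : ℝ) * (pr E' : ℝ) := by
        exact_mod_cast pr_union (E' := E') hQ hE
      have h0 : (0 : ℝ) ≤ pr E := Nat.cast_nonneg _
      have h0' : (0 : ℝ) ≤ pr E' := Nat.cast_nonneg _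
      exact h1.trans (mul_le_mul hD hD1 h0' (h0.trans hD))
  | add _ _ ih1 ih2 =>
    have h3 := Con.add ih1 ih2
    refine (congrArg (Con Q (D * D')) (funext fun n => ?_)).mp h3
    ring

lemma mul {Q : Finset ℕ} (hQ : ∀ l ∈ Q, l.Prime) {D D' : ℝ} {g h : ℕ → ℝ}
    (hg : Con Q D g) (hh : Con Q D' h) : Con Q (D * D') (fun n => g n * h n) := by
  induction hg with
  | base E g hE hp hD1 => exact base_mul hQ hE hp hD1 hh
  | add _ _ ih1 ih2 =>
    have h3 := Con.add ih1 ih2
    refine (congrArg (Con Q (D * D')) (funext fun n => ?_)).mp h3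
    ring

lemma sum {Q : Finset ℕ} (ι : Type) (s : Finset ι) (D : ℝ) (g : ι → ℕ → ℝ) (hD : 1 ≤ D)
    (h : ∀ i ∈ s, Con Q D (g i)) : Con Q D (fun n => ∑ i ∈ s, g i n) := by
  classical
  induction s using Finset.induction_on with
  | empty => simpa using const Q D 0 hD
  | insert a s ha ih =>
    have h1 := h a (Finset.mem_insert_self a s)
    have h2 := ih (fun i hi => h i (Finset.mem_insert_of_mem hi))
    have h3 := Con.add h1 h2
    refine (congrArg (Con Q D) (funext fun n => ?_)).mp h3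
    rw [Finset.sum_insert ha]

end COAx

theorem t_COA : S_COA := by
  intro Q hQ
  refine ⟨fun D c hD => COAx.const Q D c hD, fun D D' g h _ _ hg hh => COAx.mul hQ hg hh,
    fun D g d hg => COAx.shift d hg, fun D D' g h hg => COAx.mono h hg,
    fun ι s D g hD h => COAx.sum ι s D g hD h⟩

end

end Pool.Agent.CRE
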