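import Pool.Agent.CRE.Stmts
import Pool.Agent.UIP.St

set_option autoImplicit false

/-!
# The common core: interface to the project UIP
-/

namespace Pool.Agent.CRE

/-- LPU (250 lines). The core inequality of the project UIP (`Pool/Agent/UIP/St.lean`).
PROOF. If `S` is empty then `Gf = 1` (only `α = none`, `Lm ∅ = 1`, `yy none = 1`), `mn 1` is the number of the
`x` of `Om` divided by the expected number, and the claim is StmtAVG for the function `1` (or: treat this
case like the general one with AVG alone). Otherwise `Gf x = Gy (D := ∅) (y := yy ..) (b + W x)` and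
`Gc = Gy` likewise (unfold `GD`). `Cfg` (of CRE): from `Ctx` (`sv`, `cfg`; `z = exp (η L)`), `Par`; `y = yy` is
monotone: `hh` of a larger set is smaller in absolute value (`hh ∅ = 1`, `|hh {l}| = a / log l ≤ 1` by
`a ≤ η L < log l`, `sz` grows, beyond `B1` it is `0`), and the truncation `sz ≤ B` is monotone; `card`: if
`y α ≠ 0` then `|act α| ≤ J` (this is in `Cfg`/`Ctx` of IP/EDP.lean); `eps`: at most `J` primes, each
`> exp (η L)`, so the product is at most `exp (J |S| / (exp (η L) - 1)) ≤ 2` (compare `ε` in EDP.lean).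
`Zy = ZZ`: `y α ^ 2 / ph (spp α) = wt .. ww` (`yy_sq`, LG/Core.lean), `Vf` = `VS` for at most `J + 1` sites.
LPY with this `y`, and then the two means: `mn` against `mean (pr (SS ∪ Q))`: `IPP.avg : StmtAVG`
(IPP/AVG.lean) for `g = Gc ^ 2`, level `(exp (3 B) * 3 * LV) ^ 2` (`glev`, `lev`, `LPGx.sumC`; copy the
corresponding part of `t_LPG` in IPP/LPG.lean); the error is at most
`2 ^ ω(m) D ^ 2 / (n phi(m) / m) ≤ exp (- L / 2)` (`OmD.om`, as there), times `Th ≤ 3 L exp L / W`; and
`ZZ ≥ 1` (the term `α = none`). Facts for large `L`: `1 ≤ η ^ 8 L` gives `sqrt L ≤ η L`, so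
`L ^ 100 ≤ exp (η L)` for `L ≥ L₀` absolute; `J ≤ 1 / η ≤ sqrt L`. -/
def M_LPU : Prop := S_LPY → UIP.S_CORE

end Pool.Agent.CRE
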